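import Mathlib

set_option autoImplicit false

/-!
# A criterion for null sets and a criterion for points outside a frontier
-/

namespace Pool.Agent.K6.H14.ABC

open MeasureTheory Filter Topology

variable {E : Type*} [NormedAddCommGroup E] [NormedSpace ℝ E] [FiniteDimensional ℝ E]
  [MeasurableSpace E] [BorelSpace E]

/-- If the orbits of a measurable one parameter family of linear automorphisms meet `A` only for
a null set of parameters, then `A` is a null set. -/
theorem null_of_orbits (μ : Measure E) [μ.IsAddHaarMeasure] (f : ℝ → E ≃ₗ[ℝ] E)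
    (hf : Measurable fun p : ℝ × E => f p.1 p.2) {A : Set E} (hA : MeasurableSet A)
    (h : ∀ e : E, volume {s : ℝ | f s e ∈ A} = 0) : μ A = 0 := by
  set B : Set (ℝ × E) := {p | f p.1 p.2 ∈ A} with hB
  have hBm : MeasurableSet B := hf hA
  have h1 : ((volume : Measure ℝ).prod μ) B = 0 := by
    rw [← Measure.prod_swap, Measure.map_apply measurable_swap hBm,
      Measure.measure_prod_null (measurable_swap hBm)]
    refine Filter.Eventually.of_forall fun e => ?_
    exact h e
  rw [Measure.measure_prod_null hBm] at h1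
  obtain ⟨s, hs⟩ : ∃ s : ℝ, μ (Prod.mk s ⁻¹' B) = 0 := by
    by_contra hcon
    push Not at hcon
    have h2 : (volume : Measure ℝ) {s : ℝ | ¬ (μ (Prod.mk s ⁻¹' B) = (0 : ℝ → ENNReal) s)} = 0 := h1
    have h3 : {s : ℝ | ¬ (μ (Prod.mk s ⁻¹' B) = (0 : ℝ → ENNReal) s)} = Set.univ := by
      ext s
      simp only [Set.mem_ofPred_eq, Pi.zero_apply, Set.mem_univ, iff_true]
      exact hcon s
    rw [h3, Real.volume_univ] at h2
    exact ENNReal.top_ne_zero h2
  have h4 : Prod.mk s ⁻¹' B = (f s) ⁻¹' A := rfl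
  rw [h4, Measure.addHaar_preimage_linearEquiv] at hs
  rcases mul_eq_zero.mp hs with h5 | h5
  · exfalso
    rw [ENNReal.ofReal_eq_zero] at h5
    have h6 : LinearMap.det ((f s).symm : E →ₗ[ℝ] E) ≠ 0 := by
      have := (LinearEquiv.det (f s).symm).ne_zero
      rwa [LinearEquiv.coe_det] at this
    exact h6 (abs_eq_zero.mp (le_antisymm h5 (abs_nonneg _)))
  · exact h5

theorem notMem_frontier_of_eventually {X : Type*} [TopologicalSpace X] {S : Set X} {e : X}
    (h : ∀ᶠ e' in 𝓝 e, (e' ∈ S ↔ e ∈ S)) : e ∉ frontier S := by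
  by_cases he : e ∈ S
  · have : S ∈ 𝓝 e := by
      filter_upwards [h] with e' he'
      exact he'.mpr he
    intro hf
    exact hf.2 (mem_interior_iff_mem_nhds.mpr this)
  · have : Sᶜ ∈ 𝓝 e := by
      filter_upwards [h] with e' he'
      exact fun h' => he (he'.mp h')
    intro hf
    rw [← frontier_compl] at hf
    exact hf.2 (mem_interior_iff_mem_nhds.mpr this)

theorem eventually_le_iff {X : Type*} [TopologicalSpace X] {g : X → ℝ} {e : X} {c : ℝ}
    (hg : ContinuousAt g e) (hc : g e ≠ c) : ∀ᶠ e' in 𝓝 e, (g e' ≤ c ↔ g e ≤ c) := by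
  rcases lt_or_gt_of_ne hc with h | h
  · filter_upwards [hg.eventually (gt_mem_nhds h)] with e' he'
    exact ⟨fun _ => h.le, fun _ => le_of_lt he'⟩
  · filter_upwards [hg.eventually (lt_mem_nhds h)] with e' he'
    exact ⟨fun h' => absurd h' (not_le.mpr he'), fun h' => absurd h' (not_le.mpr h)⟩

theorem eventually_lt_iff {X : Type*} [TopologicalSpace X] {g : X → ℝ} {e : X} {c : ℝ}
    (hg : ContinuousAt g e) (hc : g e ≠ c) : ∀ᶠ e' in 𝓝 e, (g e' < c ↔ g e < c) := by
  rcases lt_or_gt_of_ne hc with h | h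
  · filter_upwards [hg.eventually (gt_mem_nhds h)] with e' he'
    exact ⟨fun _ => h, fun _ => he'⟩
  · filter_upwards [hg.eventually (lt_mem_nhds h)] with e' he'
    exact ⟨fun h' => absurd h' (not_lt.mpr (le_of_lt he')), fun h' => absurd h' (not_lt.mpr h.le)⟩

end Pool.Agent.K6.H14.ABC
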