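import Mathlib
import Pool.Agent.K6.H14.ABC.Null

set_option autoImplicit false
set_option linter.unusedSectionVars false

/-!
# The region in the square of the mixed space
-/

namespace Pool.Agent.K6.H14.ABC

open MeasureTheory Filter Topology Module NumberField NumberField.InfinitePlace
open NumberField.mixedEmbedding NumberField.Units NumberField.Units.dirichletUnitTheorem
open scoped Classical

variable {K : Type*} [Field K] [NumberField K]

instance borel2 : @BorelSpace (mixedSpace K × mixedSpace K)
    (PseudoMetricSpace.toUniformSpace.toTopologicalSpace) _ := by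
  have : BorelSpace (mixedSpace K × mixedSpace K) := inferInstance
  exact this

/-- the larger one of the absolute values at the places -/
noncomputable def mw (e : mixedSpace K × mixedSpace K) : realSpace K := fun w =>
  max (normAtPlace w e.1) (normAtPlace w e.2)

noncomputable def mu (e : mixedSpace K × mixedSpace K) : mixedSpace K :=
  mixedSpaceOfRealSpace (mw e)

theorem mw_nonneg (e : mixedSpace K × mixedSpace K) (w : InfinitePlace K) : 0 ≤ mw e w :=
  le_max_of_le_left (normAtPlace_nonneg w _)

theorem normAtPlace_mu (w : InfinitePlace K) (e : mixedSpace K × mixedSpace K) :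
    normAtPlace w (mu e) = max (normAtPlace w e.1) (normAtPlace w e.2) :=
  normAtPlace_mixedSpaceOfRealSpace (mw_nonneg e w)

/-- the product of the larger ones of the absolute values -/
noncomputable def HH (e : mixedSpace K × mixedSpace K) : ℝ := mixedEmbedding.norm (mu e)

theorem HH_eq (e : mixedSpace K × mixedSpace K) :
    HH e = ∏ w, (max (normAtPlace w e.1) (normAtPlace w e.2)) ^ (mult w) := by
  unfold HH
  rw [mixedEmbedding.norm_apply]
  simp_rw [normAtPlace_mu]

theorem HH_nonneg (e : mixedSpace K × mixedSpace K) : 0 ≤ HH e := mixedEmbedding.norm_nonneg _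

/-- the linear form attached to a point of the projective line -/
noncomputable def Lf (a : K × K) (e : mixedSpace K × mixedSpace K) : mixedSpace K :=
  e.1 * mixedEmbedding K a.2 - e.2 * mixedEmbedding K a.1

/-- the product of the norms of the linear forms -/
noncomputable def NN {q : ℕ} (α : Fin q → K × K) (e : mixedSpace K × mixedSpace K) : ℝ :=
  ∏ l, mixedEmbedding.norm (Lf (α l) e)

theorem NN_nonneg {q : ℕ} (α : Fin q → K × K) (e : mixedSpace K × mixedSpace K) : 0 ≤ NN α e :=
  Finset.prod_nonneg fun _ _ => mixedEmbedding.norm_nonneg _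

theorem continuous_mw : Continuous (mw : mixedSpace K × mixedSpace K → realSpace K) := by
  refine continuous_pi fun w => ?_
  exact ((continuous_normAtPlace w).comp continuous_fst).max
    ((continuous_normAtPlace w).comp continuous_snd)

theorem continuous_mu : Continuous (mu : mixedSpace K × mixedSpace K → mixedSpace K) :=
  mixedSpaceOfRealSpace.continuous.comp continuous_mw

theorem continuous_HH : Continuous (HH : mixedSpace K × mixedSpace K → ℝ) :=
  (mixedEmbedding.continuous_norm K).comp continuous_mu

theorem continuous_Lf (a : K × K) : Continuous (Lf a) :=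
  (continuous_fst.mul continuous_const).sub (continuous_snd.mul continuous_const)

theorem continuous_NN {q : ℕ} (α : Fin q → K × K) : Continuous (NN α) := by
  unfold NN
  exact continuous_finsetProd _ fun l _ =>
    (mixedEmbedding.continuous_norm K).comp (continuous_Lf (α l))

theorem Lf_mul (a : K × K) (s : mixedSpace K) (e : mixedSpace K × mixedSpace K) :
    Lf a (s * e.1, s * e.2) = s * Lf a e := by
  unfold Lf
  ring

theorem Lf_add (a : K × K) (e e' : mixedSpace K × mixedSpace K) :
    Lf a (e + e') = Lf a e + Lf a e' := by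
  unfold Lf
  simp only [Prod.fst_add, Prod.snd_add]
  ring

theorem Lf_smul (a : K × K) (c : ℝ) (e : mixedSpace K × mixedSpace K) :
    Lf a (c • e) = c • Lf a e := by
  unfold Lf
  simp only [Prod.smul_fst, Prod.smul_snd, smul_mul_assoc, smul_sub]

theorem HH_mul (s : mixedSpace K) (e : mixedSpace K × mixedSpace K) :
    HH (s * e.1, s * e.2) = mixedEmbedding.norm s * HH e := by
  rw [HH_eq, HH_eq, mixedEmbedding.norm_apply, ← Finset.prod_mul_distrib]
  refine Finset.prod_congr rfl fun w _ => ?_
  rw [← mul_pow, map_mul, map_mul, mul_max_of_nonneg _ _ (normAtPlace_nonneg w s)]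

theorem NN_mul {q : ℕ} (α : Fin q → K × K) (s : mixedSpace K)
    (e : mixedSpace K × mixedSpace K) :
    NN α (s * e.1, s * e.2) = mixedEmbedding.norm s ^ q * NN α e := by
  unfold NN
  simp_rw [Lf_mul, map_mul]
  rw [Finset.prod_mul_distrib, Finset.prod_const, Finset.card_univ, Fintype.card_fin]

theorem smul_eq_mul' (c : ℝ) (x : mixedSpace K) : c • x = (c • (1 : mixedSpace K)) * x := by
  rw [smul_mul_assoc, one_mul]

theorem norm_smul_one (c : ℝ) :
    mixedEmbedding.norm (c • (1 : mixedSpace K)) = |c| ^ (finrank ℚ K) := by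
  rw [mixedEmbedding.norm_smul, map_one, mul_one]

theorem HH_smul (c : ℝ) (e : mixedSpace K × mixedSpace K) :
    HH (c • e) = |c| ^ (finrank ℚ K) * HH e := by
  have : c • e = ((c • (1 : mixedSpace K)) * e.1, (c • (1 : mixedSpace K)) * e.2) := by
    ext1
    · exact smul_eq_mul' c e.1
    · exact smul_eq_mul' c e.2
  rw [this, HH_mul, norm_smul_one]

theorem NN_smul {q : ℕ} (α : Fin q → K × K) (c : ℝ) (e : mixedSpace K × mixedSpace K) :
    NN α (c • e) = (|c| ^ (finrank ℚ K)) ^ q * NN α e := by
  have : c • e = ((c • (1 : mixedSpace K)) * e.1, (c • (1 : mixedSpace K)) * e.2) := by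
    ext1
    · exact smul_eq_mul' c e.1
    · exact smul_eq_mul' c e.2
  rw [this, NN_mul, norm_smul_one]

theorem mu_mul_real {s : realSpace K} (hs : ∀ w, 0 ≤ s w) (e : mixedSpace K × mixedSpace K) :
    mu (mixedSpaceOfRealSpace s * e.1, mixedSpaceOfRealSpace s * e.2) =
      mixedSpaceOfRealSpace s * mu e := by
  have h : mw (mixedSpaceOfRealSpace s * e.1, mixedSpaceOfRealSpace s * e.2) =
      fun w => s w * mw e w := by
    funext w
    show max (normAtPlace w (mixedSpaceOfRealSpace s * e.1))
      (normAtPlace w (mixedSpaceOfRealSpace s * e.2)) = s w * max _ _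
    rw [map_mul, map_mul, normAtPlace_mixedSpaceOfRealSpace (hs w),
      mul_max_of_nonneg _ _ (hs w)]
  unfold mu
  rw [h]
  refine Prod.ext ?_ ?_
  · funext w
    rfl
  · funext w
    show ((s w.1 * mw e w.1 : ℝ) : ℂ) = (s w.1 : ℂ) * (mw e w.1 : ℂ)
    push_cast
    rfl

/-- nonvanishing forms have nonvanishing heights -/
theorem HH_ne_zero {q : ℕ} (hq : 0 < q) {α : Fin q → K × K} {e : mixedSpace K × mixedSpace K}
    (h : NN α e ≠ 0) : HH e ≠ 0 := by
  intro h0
  apply h
  unfold HH at h0
  rw [mixedEmbedding.norm_eq_zero_iff] at h0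
  obtain ⟨w, hw⟩ := h0
  rw [normAtPlace_mu] at hw
  have h1 : normAtPlace w e.1 = 0 :=
    le_antisymm (by rw [← hw]; exact le_max_left _ _) (normAtPlace_nonneg w _)
  have h2 : normAtPlace w e.2 = 0 :=
    le_antisymm (by rw [← hw]; exact le_max_right _ _) (normAtPlace_nonneg w _)
  unfold NN
  refine Finset.prod_eq_zero (Finset.mem_univ (⟨0, hq⟩ : Fin q)) ?_
  rw [mixedEmbedding.norm_eq_zero_iff]
  refine ⟨w, le_antisymm ?_ (normAtPlace_nonneg w _)⟩
  unfold Lf
  rw [sub_eq_add_neg]
  refine (normAtPlace_add_le w _ _).trans ?_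
  rw [normAtPlace_neg, map_mul, map_mul, h1, h2]
  simp

/-- the zeros of a form at a place are a null set -/
theorem null_form (ν : Measure (mixedSpace K × mixedSpace K)) [ν.IsAddHaarMeasure]
    {a : K × K} (ha : a ≠ 0) (w : InfinitePlace K) :
    ν {e : mixedSpace K × mixedSpace K | normAtPlace w (Lf a e) = 0} = 0 := by
  let S : Submodule ℝ (mixedSpace K × mixedSpace K) :=
    { carrier := {e | normAtPlace w (Lf a e) = 0}
      add_mem' := by
        intro x y hx hy
        simp only [Set.mem_ofPred_eq] at hx hy ⊢
        rw [Lf_add]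
        refine le_antisymm ?_ (normAtPlace_nonneg w _)
        refine (normAtPlace_add_le w _ _).trans ?_
        rw [hx, hy, add_zero]
      zero_mem' := by
        simp only [Set.mem_ofPred_eq]
        have : Lf a 0 = 0 := by
          unfold Lf
          simp
        rw [this, map_zero]
      smul_mem' := by
        intro c x hx
        simp only [Set.mem_ofPred_eq] at hx ⊢
        rw [Lf_smul, normAtPlace_smul, hx, mul_zero] }
  have hS : S ≠ ⊤ := by
    intro htop
    have key : ∀ e, normAtPlace w (Lf a e) = 0 := fun e => by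
      have : e ∈ S := htop ▸ Submodule.mem_top
      exact this
    have h1 := key (1, 0)
    have h2 := key (0, 1)
    unfold Lf at h1 h2
    simp only [one_mul, zero_mul, sub_zero, zero_sub, normAtPlace_neg, normAtPlace_apply] at h1 h2
    rw [map_eq_zero] at h1 h2
    exact ha (Prod.ext h2 h1)
  exact Measure.addHaar_submodule ν S hS

theorem null_NN (ν : Measure (mixedSpace K × mixedSpace K)) [ν.IsAddHaarMeasure]
    {q : ℕ} {α : Fin q → K × K} (hα : ∀ l, α l ≠ 0) :
    ν {e : mixedSpace K × mixedSpace K | NN α e = 0} = 0 := by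
  have h : {e : mixedSpace K × mixedSpace K | NN α e = 0} ⊆
      ⋃ l : Fin q, ⋃ w : InfinitePlace K, {e | normAtPlace w (Lf (α l) e) = 0} := by
    intro e he
    rw [Set.mem_ofPred_eq] at he
    unfold NN at he
    rw [Finset.prod_eq_zero_iff] at he
    obtain ⟨l, _, hl⟩ := he
    rw [mixedEmbedding.norm_eq_zero_iff] at hl
    obtain ⟨w, hw⟩ := hl
    exact Set.mem_iUnion.mpr ⟨l, Set.mem_iUnion.mpr ⟨w, hw⟩⟩
  refine measure_mono_null h ?_
  exact measure_iUnion_null fun l => measure_iUnion_null fun w => null_form ν (hα l) w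

/-- scaling of the whole space -/
noncomputable def scal (s : ℝ) :
    (mixedSpace K × mixedSpace K) ≃ₗ[ℝ] (mixedSpace K × mixedSpace K) :=
  LinearEquiv.smulOfNeZero ℝ _ (Real.exp s) (Real.exp_pos s).ne'

theorem scal_apply (s : ℝ) (e : mixedSpace K × mixedSpace K) : scal s e = Real.exp s • e := rfl

theorem null_NN_one (ν : Measure (mixedSpace K × mixedSpace K)) [ν.IsAddHaarMeasure]
    {q : ℕ} (hq : 0 < q) (α : Fin q → K × K) :
    ν {e : mixedSpace K × mixedSpace K | NN α e = 1} = 0 := by
  refine null_of_orbits ν (fun s => scal s) ?_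
    (measurableSet_eq_fun (continuous_NN α).measurable measurable_const) ?_
  · refine Continuous.measurable ?_
    exact (Real.continuous_exp.comp continuous_fst).smul continuous_snd
  · intro e
    refine Set.Subsingleton.measure_zero ?_ _
    intro s hs s' hs'
    simp only [Set.mem_ofPred_eq, scal_apply, NN_smul, abs_of_pos (Real.exp_pos _)] at hs hs'
    have h0 : NN α e ≠ 0 := by
      intro h
      rw [h, mul_zero] at hs
      exact zero_ne_one hs
    have h1 := mul_right_cancel₀ h0 (hs.trans hs'.symm)
    rw [← pow_mul, ← pow_mul] at h1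
    have h2 := (pow_left_inj₀ (Real.exp_pos s).le (Real.exp_pos s').le
      (Nat.mul_ne_zero finrank_pos.ne' hq.ne')).mp h1
    exact Real.exp_injective h2

end Pool.Agent.K6.H14.ABC
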