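import Mathlib
import Pool.Agent.K6.H14.ABC.Geo

set_option autoImplicit false
set_option linter.unusedSectionVars false

/-!
# The region in the square of the mixed space: the frontier is a null set
-/

namespace Pool.Agent.K6.H14.ABC

open MeasureTheory Filter Topology Module NumberField NumberField.InfinitePlace
open NumberField.mixedEmbedding NumberField.Units NumberField.Units.dirichletUnitTheorem
open scoped Classical

variable {K : Type*} [Field K] [NumberField K]

variable (K) in
/-- the basis of the logarithmic space given by the fundamental units -/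
noncomputable def BU : Basis (Fin (rank K)) ℝ (logSpace K) :=
  (basisUnitLattice K).ofZLatticeBasis ℝ (unitLattice K)

theorem mem_cone_iff (x : mixedSpace K) : x ∈ fundamentalCone K ↔
    (∀ i, (BU K).repr (logMap x) i ∈ Set.Ico (0 : ℝ) 1) ∧ mixedEmbedding.norm x ≠ 0 := by
  unfold fundamentalCone BU
  rw [Set.mem_diff, Set.mem_preimage, ZSpan.mem_fundamentalDomain]
  rfl

/-- the coordinates of a point -/
noncomputable def crd (i : Fin (rank K)) (e : mixedSpace K × mixedSpace K) : ℝ :=
  (BU K).repr (logMap (mu e)) i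

theorem continuous_repr (i : Fin (rank K)) :
    Continuous fun x : logSpace K => (BU K).repr x i :=
  ((BU K).coord i).continuous_of_finiteDimensional

theorem measurable_logMap_mu :
    Measurable fun e : mixedSpace K × mixedSpace K => logMap (mu e) := by
  unfold logMap
  refine measurable_pi_iff.mpr fun w => measurable_const.mul ?_
  refine Measurable.sub ?_ (Measurable.mul ?_ measurable_const)
  · exact ((continuous_normAtPlace _).comp continuous_mu).measurable.log
  · exact ((mixedEmbedding.continuous_norm _).comp continuous_mu).measurable.log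

theorem measurable_crd (i : Fin (rank K)) :
    Measurable (crd i : mixedSpace K × mixedSpace K → ℝ) :=
  (continuous_repr i).measurable.comp measurable_logMap_mu

theorem continuousAt_crd (i : Fin (rank K)) {e : mixedSpace K × mixedSpace K} (he : HH e ≠ 0) :
    ContinuousAt (crd i) e := by
  have h1 : ContinuousAt (fun e : mixedSpace K × mixedSpace K => logMap (mu e)) e := by
    unfold logMap
    refine continuousAt_pi.mpr fun w => ContinuousAt.mul continuousAt_const ?_
    refine ContinuousAt.sub ?_ (ContinuousAt.mul ?_ continuousAt_const)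
    · refine ContinuousAt.log ?_ ?_
      · exact ((continuous_normAtPlace _).comp continuous_mu).continuousAt
      · exact mixedEmbedding.norm_ne_zero_iff.mp he w
    · refine ContinuousAt.log ?_ he
      exact ((mixedEmbedding.continuous_norm _).comp continuous_mu).continuousAt
  exact (continuous_repr i).continuousAt.comp h1

/-- the direction in the logarithmic space of the scaling at a place -/
noncomputable def vec (w : InfinitePlace K) : logSpace K := fun w' =>
  (mult w'.val : ℝ) * ((if w'.val = w then 1 else 0) - (mult w : ℝ) * (finrank ℚ K : ℝ)⁻¹)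

theorem exists_vec (i : Fin (rank K)) : ∃ w : InfinitePlace K, (BU K).repr (vec w) i ≠ 0 := by
  by_contra hcon
  push Not at hcon
  have hmw : ∀ w : InfinitePlace K, (mult w : ℝ) ≠ 0 := fun w => by
    exact_mod_cast (mult_pos (w := w)).ne'
  -- all of the standard basis vectors have vanishing coordinates
  have h1 : ∀ w : {w : InfinitePlace K // w ≠ w₀},
      (BU K).repr (Pi.single w (1 : ℝ)) i = 0 := by
    intro w
    have h2 : (Pi.single w (1 : ℝ) : logSpace K) =
        ((mult w.val : ℝ))⁻¹ • (vec w.val - ((mult w.val : ℝ) / (mult (w₀ : InfinitePlace K) : ℝ)) •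
          vec (w₀ : InfinitePlace K)) := by
      funext w'
      simp only [Pi.smul_apply, Pi.sub_apply, smul_eq_mul, vec]
      rw [if_neg w'.2]
      by_cases h : w' = w
      · subst h
        rw [Pi.single_eq_same, if_pos rfl]
        have := hmw w'.val
        have := hmw (w₀ : InfinitePlace K)
        field_simp
        ring
      · rw [Pi.single_eq_of_ne h, if_neg (fun h' => h (Subtype.ext h'))]
        have := hmw w.val
        have := hmw (w₀ : InfinitePlace K)
        field_simp
        ring
    rw [h2, map_smul, map_sub, map_smul]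
    simp only [Finsupp.coe_smul, Finsupp.coe_sub, Pi.smul_apply, Pi.sub_apply, smul_eq_mul]
    rw [hcon, hcon]
    ring
  have h3 : ∀ x : logSpace K, (BU K).repr x i = 0 := by
    intro x
    have h4 : x = ∑ w, x w • (Pi.single w (1 : ℝ) : logSpace K) := by
      funext w'
      rw [Finset.sum_apply, Finset.sum_eq_single w']
      · simp
      · intro b _ hb
        simp [Pi.single_eq_of_ne (Ne.symm hb)]
      · intro h
        exact absurd (Finset.mem_univ _) h
    rw [h4, map_sum, Finsupp.coe_finsetSum, Finset.sum_apply]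
    refine Finset.sum_eq_zero fun w _ => ?_
    rw [map_smul]
    simp only [Finsupp.coe_smul, Pi.smul_apply, smul_eq_mul]
    rw [h1, mul_zero]
  have h5 := h3 (BU K i)
  rw [Basis.repr_self, Finsupp.single_eq_same] at h5
  exact one_ne_zero h5

/-- the vector which is `exp s` at one place and `1` at the others -/
noncomputable def sw (w : InfinitePlace K) (s : ℝ) : realSpace K := fun w' =>
  if w' = w then Real.exp s else 1

theorem sw_pos (w : InfinitePlace K) (s : ℝ) (w' : InfinitePlace K) : 0 < sw w s w' := by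
  unfold sw
  split_ifs
  · exact Real.exp_pos s
  · exact one_pos

theorem sw_mul (w : InfinitePlace K) (s : ℝ) :
    (mixedSpaceOfRealSpace (sw w s) : mixedSpace K) * mixedSpaceOfRealSpace (sw w (-s)) = 1 := by
  have h : ∀ w' : InfinitePlace K, sw w s w' * sw w (-s) w' = 1 := by
    intro w'
    unfold sw
    split_ifs
    · rw [← Real.exp_add, add_neg_cancel, Real.exp_zero]
    · exact one_mul 1
  refine Prod.ext ?_ ?_
  · funext w'
    exact h w'.1
  · funext w'
    show ((sw w s w'.1 : ℝ) : ℂ) * ((sw w (-s) w'.1 : ℝ) : ℂ) = 1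
    rw [← Complex.ofReal_mul, h, Complex.ofReal_one]

theorem norm_sw (w : InfinitePlace K) (s : ℝ) :
    mixedEmbedding.norm (mixedSpaceOfRealSpace (sw w s)) = Real.exp s ^ (mult w) := by
  rw [mixedEmbedding.norm_apply, Finset.prod_eq_single w]
  · rw [normAtPlace_mixedSpaceOfRealSpace (sw_pos w s w).le]
    unfold sw
    rw [if_pos rfl]
  · intro w' _ hw'
    rw [normAtPlace_mixedSpaceOfRealSpace (sw_pos w s w').le]
    unfold sw
    rw [if_neg hw', one_pow]
  · intro h
    exact absurd (Finset.mem_univ _) h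

theorem logMap_sw (w : InfinitePlace K) (s : ℝ) :
    logMap (mixedSpaceOfRealSpace (sw w s)) = s • vec w := by
  funext w'
  rw [logMap_apply, normAtPlace_mixedSpaceOfRealSpace (sw_pos w s _).le, norm_sw, Real.log_pow,
    Real.log_exp]
  simp only [Pi.smul_apply, smul_eq_mul, vec, sw]
  split_ifs
  · rw [Real.log_exp]
    ring
  · rw [Real.log_one]
    ring

/-- scaling at one place -/
noncomputable def scalw (w : InfinitePlace K) (s : ℝ) :
    (mixedSpace K × mixedSpace K) ≃ₗ[ℝ] (mixedSpace K × mixedSpace K) where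
  toFun e := (mixedSpaceOfRealSpace (sw w s) * e.1, mixedSpaceOfRealSpace (sw w s) * e.2)
  invFun e := (mixedSpaceOfRealSpace (sw w (-s)) * e.1, mixedSpaceOfRealSpace (sw w (-s)) * e.2)
  map_add' e e' := by
    ext1
    · exact mul_add _ _ _
    · exact mul_add _ _ _
  map_smul' c e := by
    ext1
    · exact mul_smul_comm _ _ _
    · exact mul_smul_comm _ _ _
  left_inv e := by
    ext1
    · show mixedSpaceOfRealSpace (sw w (-s)) * (mixedSpaceOfRealSpace (sw w s) * e.1) = e.1
      rw [← mul_assoc, mul_comm (mixedSpaceOfRealSpace (sw w (-s))), sw_mul, one_mul]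
    · show mixedSpaceOfRealSpace (sw w (-s)) * (mixedSpaceOfRealSpace (sw w s) * e.2) = e.2
      rw [← mul_assoc, mul_comm (mixedSpaceOfRealSpace (sw w (-s))), sw_mul, one_mul]
  right_inv e := by
    ext1
    · show mixedSpaceOfRealSpace (sw w s) * (mixedSpaceOfRealSpace (sw w (-s)) * e.1) = e.1
      rw [← mul_assoc, sw_mul, one_mul]
    · show mixedSpaceOfRealSpace (sw w s) * (mixedSpaceOfRealSpace (sw w (-s)) * e.2) = e.2
      rw [← mul_assoc, sw_mul, one_mul]

theorem scalw_apply (w : InfinitePlace K) (s : ℝ) (e : mixedSpace K × mixedSpace K) :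
    scalw w s e =
      (mixedSpaceOfRealSpace (sw w s) * e.1, mixedSpaceOfRealSpace (sw w s) * e.2) := rfl

theorem crd_scalw (i : Fin (rank K)) (w : InfinitePlace K) (s : ℝ)
    {e : mixedSpace K × mixedSpace K} (he : HH e ≠ 0) :
    crd i (scalw w s e) = crd i e + s * (BU K).repr (vec w) i := by
  unfold crd
  rw [scalw_apply, mu_mul_real (fun w' => (sw_pos w s w').le), logMap_mul ?_ he, logMap_sw,
    map_add, map_smul]
  · simp only [Finsupp.coe_add, Finsupp.coe_smul, Pi.add_apply, Pi.smul_apply, smul_eq_mul]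
    ring
  · rw [norm_sw]
    exact pow_ne_zero _ (Real.exp_pos s).ne'

theorem null_face (ν : Measure (mixedSpace K × mixedSpace K)) [ν.IsAddHaarMeasure]
    {q : ℕ} (hq : 0 < q) (α : Fin q → K × K) (i : Fin (rank K)) (c : ℝ) :
    ν {e : mixedSpace K × mixedSpace K | NN α e ≠ 0 ∧ crd i e = c} = 0 := by
  obtain ⟨w, hw⟩ := exists_vec (K := K) i
  refine null_of_orbits ν (fun s => scalw w s) ?_ ?_ ?_
  · refine Continuous.measurable ?_
    have h1 : Continuous fun s : ℝ => (mixedSpaceOfRealSpace (sw w s) : mixedSpace K) := by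
      refine mixedSpaceOfRealSpace.continuous.comp (continuous_pi fun w' => ?_)
      unfold sw
      split_ifs
      · exact Real.continuous_exp
      · exact continuous_const
    exact ((h1.comp continuous_fst).mul (continuous_fst.comp continuous_snd)).prodMk
      ((h1.comp continuous_fst).mul (continuous_snd.comp continuous_snd))
  · exact (measurableSet_eq_fun (continuous_NN α).measurable measurable_const).compl.inter
      (measurableSet_eq_fun (measurable_crd i) measurable_const)
  · intro e
    refine Set.Subsingleton.measure_zero ?_ _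
    intro s hs s' hs'
    obtain ⟨h1, h2⟩ := hs
    obtain ⟨_, h2'⟩ := hs'
    have h0 : NN α e ≠ 0 := by
      intro h
      apply h1
      rw [scalw_apply, NN_mul, h, mul_zero]
    have h3 := HH_ne_zero hq h0
    rw [crd_scalw i w s h3] at h2
    rw [crd_scalw i w s' h3] at h2'
    have h4 : s * (BU K).repr (vec w) i = s' * (BU K).repr (vec w) i := by linarith
    exact mul_right_cancel₀ hw h4

/-- the region -/
def Reg {q : ℕ} (α : Fin q → K × K) (Ψ : mixedSpace K × mixedSpace K → ℝ) (t : ℝ) :
    Set (mixedSpace K × mixedSpace K) :=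
  {e | mu e ∈ fundamentalCone K ∧ NN α e ≠ 0 ∧ Ψ e ≤ t}

/-- the size -/
noncomputable def FF {q : ℕ} (α : Fin q → K × K) (e : mixedSpace K × mixedSpace K) : ℝ :=
  NN α e ^ (2 / (q : ℝ))

/-- the assumptions on the function at the infinite places -/
structure Adm {q : ℕ} (α : Fin q → K × K) (Ψ : mixedSpace K × mixedSpace K → ℝ) : Prop where
  meas : Measurable Ψ
  cont : ∀ e, NN α e ≠ 0 → ContinuousAt Ψ e
  homog : ∀ (e : mixedSpace K × mixedSpace K) (s : mixedSpace K), NN α e ≠ 0 →
    mixedEmbedding.norm s ≠ 0 → Ψ (s * e.1, s * e.2) = Ψ e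
  close : ∃ C : ℝ, ∀ e, NN α e ≠ 0 → |Ψ e - (q * Real.log (HH e) - Real.log (NN α e))| ≤ C

theorem Adm.smul {q : ℕ} {α : Fin q → K × K} {Ψ : mixedSpace K × mixedSpace K → ℝ}
    (h : Adm α Ψ) {c : ℝ} (hc : c ≠ 0) {e : mixedSpace K × mixedSpace K} (he : NN α e ≠ 0) :
    Ψ (c • e) = Ψ e := by
  have : c • e = ((c • (1 : mixedSpace K)) * e.1, (c • (1 : mixedSpace K)) * e.2) := by
    ext1
    · exact smul_eq_mul' c e.1
    · exact smul_eq_mul' c e.2
  rw [this, h.homog _ _ he]
  rw [norm_smul_one]
  exact pow_ne_zero _ (abs_ne_zero.mpr hc)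

theorem Reg_smul {q : ℕ} {α : Fin q → K × K} {Ψ : mixedSpace K × mixedSpace K → ℝ}
    (h : Adm α Ψ) (t : ℝ) ⦃e : mixedSpace K × mixedSpace K⦄ ⦃r : ℝ⦄ (he : e ∈ Reg α Ψ t)
    (hr : 0 < r) : r • e ∈ Reg α Ψ t := by
  obtain ⟨h1, h2, h3⟩ := he
  refine ⟨?_, ?_, ?_⟩
  · have h4 : mu (r • e) = r • mu e := by
      have h5 := mu_mul_real (K := K) (s := fun _ => r) (fun _ => hr.le) e
      have h6 : (mixedSpaceOfRealSpace (fun _ => r) : mixedSpace K) = r • (1 : mixedSpace K) := by
        refine Prod.ext ?_ ?_
        · funext w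
          show r = r * 1
          rw [mul_one]
        · funext w
          show (r : ℂ) = r • (1 : ℂ)
          simp
      rw [h6, ← smul_eq_mul', ← smul_eq_mul', ← smul_eq_mul'] at h5
      exact h5
    rw [h4]
    exact fundamentalCone.smul_mem_of_mem h1 hr.ne'
  · rw [NN_smul]
    exact mul_ne_zero (pow_ne_zero _ (pow_ne_zero _ (abs_ne_zero.mpr hr.ne'))) h2
  · rw [h.smul hr.ne' h2]
    exact h3

theorem FF_smul {q : ℕ} (hq : 0 < q) (α : Fin q → K × K) (e : mixedSpace K × mixedSpace K) ⦃r : ℝ⦄
    (hr : 0 ≤ r) : FF α (r • e) = r ^ (2 * finrank ℚ K) * FF α e := by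
  unfold FF
  rw [NN_smul, abs_of_nonneg hr, Real.mul_rpow (by positivity) (NN_nonneg α e)]
  congr 1
  rw [← pow_mul, ← Real.rpow_natCast, ← Real.rpow_mul hr, ← Real.rpow_natCast]
  congr 1
  push_cast
  field_simp

theorem FF_le_one_iff {q : ℕ} (hq : 0 < q) (α : Fin q → K × K)
    (e : mixedSpace K × mixedSpace K) : FF α e ≤ 1 ↔ NN α e ≤ 1 := by
  unfold FF
  have hq' : (0 : ℝ) < 2 / q := by positivity
  constructor
  · intro h
    by_contra hcon
    rw [not_le] at hcon
    exact absurd h (not_le.mpr (Real.one_lt_rpow hcon hq'))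
  · intro h
    exact Real.rpow_le_one (NN_nonneg α e) h hq'.le

theorem FF_le_iff {q : ℕ} (hq : 0 < q) (α : Fin q → K × K)
    (e : mixedSpace K × mixedSpace K) {y : ℝ} (hy : 0 ≤ y) :
    FF α e ≤ y ^ (2 / (q : ℝ)) ↔ NN α e ≤ y := by
  unfold FF
  have hq' : (0 : ℝ) < 2 / q := by positivity
  exact Real.rpow_le_rpow_iff (NN_nonneg α e) hy hq'

theorem continuous_FF {q : ℕ} (α : Fin q → K × K) : Continuous (FF α) := by
  unfold FF
  exact (continuous_NN α).rpow_const fun _ => Or.inr (by positivity)

theorem Reg_meas {q : ℕ} {α : Fin q → K × K} {Ψ : mixedSpace K × mixedSpace K → ℝ}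
    (h : Adm α Ψ) (t : ℝ) : MeasurableSet (Reg α Ψ t) := by
  refine MeasurableSet.inter ?_ (MeasurableSet.inter ?_ ?_)
  · exact continuous_mu.measurable (measurableSet_fundamentalCone K)
  · exact (measurableSet_eq_fun (continuous_NN α).measurable measurable_const).compl
  · exact measurableSet_le h.meas measurable_const

theorem region_meas {q : ℕ} {α : Fin q → K × K} {Ψ : mixedSpace K × mixedSpace K → ℝ}
    (h : Adm α Ψ) (t : ℝ) : MeasurableSet {e ∈ Reg α Ψ t | FF α e ≤ 1} :=
  (Reg_meas h t).inter (measurableSet_le (continuous_FF α).measurable measurable_const)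

theorem region_frontier (ν : Measure (mixedSpace K × mixedSpace K)) [ν.IsAddHaarMeasure]
    {q : ℕ} (hq : 0 < q) {α : Fin q → K × K} (hα : ∀ l, α l ≠ 0)
    {Ψ : mixedSpace K × mixedSpace K → ℝ} (h : Adm α Ψ) {t : ℝ}
    (ht : ν {e | Ψ e = t} = 0) : ν (frontier {e | e ∈ Reg α Ψ t ∧ FF α e ≤ 1}) = 0 := by
  have hsub : frontier {e | e ∈ Reg α Ψ t ∧ FF α e ≤ 1} ⊆
      ({e | NN α e = 0} ∪ {e | NN α e = 1}) ∪ ({e | Ψ e = t} ∪
        ⋃ i : Fin (rank K), ({e | NN α e ≠ 0 ∧ crd i e = 0} ∪ {e | NN α e ≠ 0 ∧ crd i e = 1})) := by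
    intro e he
    by_contra hcon
    simp only [Set.mem_union, Set.mem_iUnion, Set.mem_ofPred_eq, not_or, not_exists, not_and] at hcon
    obtain ⟨⟨h1, h2⟩, h3, h4⟩ := hcon
    refine notMem_frontier_of_eventually ?_ he
    have hH := HH_ne_zero hq h1
    have e1 : ∀ᶠ e' in 𝓝 e, NN α e' ≠ 0 :=
      (continuous_NN α).continuousAt.eventually_ne h1
    have e2 := eventually_le_iff (c := 1) (continuous_NN α).continuousAt h2
    have e3 := eventually_le_iff (h.cont e h1) h3
    have e4 : ∀ᶠ e' in 𝓝 e, ∀ i : Fin (rank K),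
        ((crd i e' < 0 ↔ crd i e < 0) ∧ (crd i e' < 1 ↔ crd i e < 1)) := by
      rw [eventually_all]
      intro i
      obtain ⟨h5, h6⟩ := h4 i
      exact (eventually_lt_iff (continuousAt_crd i hH) (h5 h1)).and
        (eventually_lt_iff (continuousAt_crd i hH) (h6 h1))
    filter_upwards [e1, e2, e3, e4] with e' g1 g2 g3 g4
    have hH' := HH_ne_zero hq g1
    simp only [Set.mem_ofPred_eq, Reg, FF_le_one_iff hq]
    rw [g2, g3, mem_cone_iff, mem_cone_iff]
    have g5 : ∀ i, (BU K).repr (logMap (mu e')) i ∈ Set.Ico (0 : ℝ) 1 ↔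
        (BU K).repr (logMap (mu e)) i ∈ Set.Ico (0 : ℝ) 1 := by
      intro i
      obtain ⟨g6, g7⟩ := g4 i
      simp only [Set.mem_Ico, ← not_lt (b := (0 : ℝ))]
      exact and_congr (not_congr g6) g7
    simp only [g5]
    have g8 : mixedEmbedding.norm (mu e') ≠ 0 := hH'
    have g9 : mixedEmbedding.norm (mu e) ≠ 0 := hH
    tauto
  refine measure_mono_null hsub ?_
  refine measure_union_null (measure_union_null (null_NN ν hα) (null_NN_one ν hq α)) ?_
  refine measure_union_null ht ?_
  exact measure_iUnion_null fun i => measure_union_null (null_face ν hq α i 0) (null_face ν hq α i 1)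

end Pool.Agent.K6.H14.ABC
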