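import Mathlib
import Pool.Agent.K6.H14.ABC.Geo2

set_option autoImplicit false
set_option linter.unusedSectionVars false

/-!
# The region in the square of the mixed space is bounded
-/

namespace Pool.Agent.K6.H14.ABC

open MeasureTheory Filter Topology Module NumberField NumberField.InfinitePlace
open NumberField.mixedEmbedding NumberField.Units NumberField.Units.dirichletUnitTheorem
open scoped Classical

variable {K : Type*} [Field K] [NumberField K]

theorem norm_le_mu (e : mixedSpace K × mixedSpace K) : ‖e‖ ≤ ‖mu e‖ := by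
  rw [Prod.norm_def, max_le_iff]
  constructor
  · rw [norm_eq_sup'_normAtPlace, norm_eq_sup'_normAtPlace]
    refine Finset.sup'_le _ _ fun w hw => ?_
    refine le_trans ?_ (Finset.le_sup' (fun w => normAtPlace w (mu e)) hw)
    rw [normAtPlace_mu]
    exact le_max_left _ _
  · rw [norm_eq_sup'_normAtPlace, norm_eq_sup'_normAtPlace]
    refine Finset.sup'_le _ _ fun w hw => ?_
    refine le_trans ?_ (Finset.le_sup' (fun w => normAtPlace w (mu e)) hw)
    rw [normAtPlace_mu]
    exact le_max_right _ _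

theorem region_bounded {q : ℕ} (hq : 0 < q) {α : Fin q → K × K}
    {Ψ : mixedSpace K × mixedSpace K → ℝ} (h : Adm α Ψ) (t : ℝ) :
    Bornology.IsBounded {e | e ∈ Reg α Ψ t ∧ FF α e ≤ 1} := by
  obtain ⟨C, hC⟩ := h.close
  obtain ⟨R, hR⟩ := (fundamentalCone.isBounded_normLeOne K).exists_norm_le
  set d := finrank ℚ K with hd
  have hd0 : 0 < d := finrank_pos
  have hdR : (0 : ℝ) < d := by exact_mod_cast hd0
  have hqR : (0 : ℝ) < q := by exact_mod_cast hq
  set c : ℝ := Real.exp ((t + C) / q / d) with hc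
  have hc0 : 0 < c := Real.exp_pos _
  refine isBounded_iff_forall_norm_le.mpr ⟨c * R, fun e he => ?_⟩
  obtain ⟨⟨h1, h2, h3⟩, h4⟩ := he
  rw [FF_le_one_iff hq] at h4
  have hN : 0 < NN α e := lt_of_le_of_ne (NN_nonneg α e) (Ne.symm h2)
  have hH : 0 < HH e := lt_of_le_of_ne (HH_nonneg e) (Ne.symm (HH_ne_zero hq h2))
  have h5 := (abs_le.mp (hC e h2)).1
  have h6 : Real.log (NN α e) ≤ 0 := Real.log_nonpos hN.le h4
  have h7 : Real.log (HH e) ≤ (t + C) / q := by
    rw [le_div_iff₀ hqR]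
    nlinarith
  have h8 : HH e ≤ c ^ d := by
    rw [hc, ← Real.exp_nat_mul, mul_div_cancel₀ _ hdR.ne', ← Real.log_le_iff_le_exp hH]
    exact h7
  have h9 : c⁻¹ • mu e ∈ fundamentalCone.normLeOne K := by
    rw [fundamentalCone.mem_normLeOne]
    refine ⟨fundamentalCone.smul_mem_of_mem h1 (inv_ne_zero hc0.ne'), ?_⟩
    rw [mixedEmbedding.norm_smul, abs_of_pos (inv_pos.mpr hc0), inv_pow,
      inv_mul_le_iff₀ (pow_pos hc0 _), mul_one]
    exact h8
  have h10 := hR _ h9
  refine (norm_le_mu e).trans ?_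
  have h11 : ‖mu e‖ = c * ‖c⁻¹ • mu e‖ := by
    rw [_root_.norm_smul, Real.norm_of_nonneg (inv_pos.mpr hc0).le, ← mul_assoc,
      mul_inv_cancel₀ hc0.ne', one_mul]
  rw [h11]
  exact mul_le_mul_of_nonneg_left h10 hc0.le

end Pool.Agent.K6.H14.ABC
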