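import Mathlib

set_option autoImplicit false
set_option linter.unusedSectionVars false

/-!
# Counting the points of a lattice in a cone
-/

namespace Pool.Agent.K6.H14.ABC

open MeasureTheory Filter Topology Module

section General

variable {E : Type*} [NormedAddCommGroup E] [NormedSpace ℝ E] [FiniteDimensional ℝ E]
  [MeasurableSpace E] [BorelSpace E]

theorem frontier_image {ι : Type*} [Finite ι] (b : Basis ι ℝ E) (s : Set E) :
    frontier (b.equivFun '' s) = b.equivFun '' (frontier s) := by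
  rw [LinearEquiv.image_eq_preimage_symm, LinearEquiv.image_eq_preimage_symm]
  exact (Homeomorph.preimage_frontier b.equivFunL.toHomeomorph.symm s).symm

theorem null_image {ι : Type*} [Fintype ι] (b : Basis ι ℝ E) {s : Set E}
    (hs : (Measure.addHaar : Measure E) s = 0) : volume (b.equivFun '' s) = 0 := by
  have h1 : volume (b.equivFun '' s) ≤
      (Measure.map b.equivFun.symm (volume : Measure (ι → ℝ))) s := by
    rw [LinearEquiv.image_eq_preimage_symm]
    refine Measure.le_map_apply ?_ s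
    exact (b.equivFun.symm.toLinearMap.continuous_of_finiteDimensional).measurable.aemeasurable
  have h2 : (Measure.map b.equivFun.symm (volume : Measure (ι → ℝ))) ≪ Measure.addHaar := by
    have h3 : (Measure.map b.equivFunL.symm (volume : Measure (ι → ℝ))).IsAddHaarMeasure :=
      ContinuousLinearEquiv.isAddHaarMeasure_map b.equivFunL.symm volume
    have h4 : (Measure.map b.equivFun.symm (volume : Measure (ι → ℝ))).IsAddHaarMeasure := h3
    exact Measure.absolutelyContinuous_isAddHaarMeasure _ _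
  exact le_antisymm (h1.trans (h2 hs).le) bot_le

theorem card_lattice (L : Submodule ℤ E) [DiscreteTopology L] [IsZLattice ℝ L] [Nontrivial E]
    {X : Set E} (hX : ∀ ⦃x⦄ ⦃r : ℝ⦄, x ∈ X → 0 < r → r • x ∈ X) {F : E → ℝ}
    (h₁ : ∀ x ⦃r : ℝ⦄, 0 ≤ r → F (r • x) = r ^ (finrank ℝ E) * (F x))
    (h₂ : Bornology.IsBounded {x ∈ X | F x ≤ 1}) (h₃ : MeasurableSet {x ∈ X | F x ≤ 1})
    (h₄ : (Measure.addHaar : Measure E) (frontier {x | x ∈ X ∧ F x ≤ 1}) = 0) :
    ∃ κ : ℝ, Tendsto (fun c : ℝ => (Nat.card ({x ∈ X | F x ≤ c} ∩ L : Set E) : ℝ) / c)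
      atTop (𝓝 κ) := by
  have hfree : Module.Free ℤ L := ZLattice.module_free ℝ L
  have hfin : Module.Finite ℤ L := ZLattice.module_finite ℝ L
  let b := Module.Free.chooseBasis ℤ L
  have hcard : Fintype.card (Module.Free.ChooseBasisIndex ℤ L) = finrank ℝ E := by
    rw [← ZLattice.rank ℝ L, finrank_eq_card_chooseBasisIndex]
  have hne : Nonempty (Module.Free.ChooseBasisIndex ℤ L) := by
    rw [← Fintype.card_pos_iff, hcard]
    exact finrank_pos
  refine ⟨_, ZLattice.covolume.tendsto_card_le_div'' b hX ?_ h₂ h₃ ?_⟩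
  · rw [hcard]
    exact h₁
  · rw [frontier_image]
    exact null_image _ h₄

end General

section Concrete

open NumberField NumberField.mixedEmbedding
open scoped Classical

variable {K : Type*} [Field K] [NumberField K]

variable (K) in
/-- the embedding of the pairs of integers -/
noncomputable def jE : (𝓞 K × 𝓞 K) →+ (mixedSpace K × mixedSpace K) where
  toFun v := (mixedEmbedding K v.1, mixedEmbedding K v.2)
  map_zero' := by simp
  map_add' v v' := by simp

theorem jE_apply (v : 𝓞 K × 𝓞 K) : jE K v = (mixedEmbedding K v.1, mixedEmbedding K v.2) := rfl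

theorem jE_injective : Function.Injective (jE K) := by
  intro v v' h
  rw [jE_apply, jE_apply, Prod.mk.injEq] at h
  have h1 := mixedEmbedding_injective K h.1
  have h2 := mixedEmbedding_injective K h.2
  exact Prod.ext (RingOfIntegers.ext h1) (RingOfIntegers.ext h2)

/-- subgroups of finite index -/
def IsLat (L : AddSubgroup (𝓞 K × 𝓞 K)) : Prop := ∃ n : ℕ, n ≠ 0 ∧ ∀ v : 𝓞 K × 𝓞 K, n • v ∈ L

/-- the image of a subgroup -/
noncomputable def imL (L : AddSubgroup (𝓞 K × 𝓞 K)) : Submodule ℤ (mixedSpace K × mixedSpace K) :=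
  AddSubgroup.toIntSubmodule (L.map (jE K))

theorem mem_imL {L : AddSubgroup (𝓞 K × 𝓞 K)} {e : mixedSpace K × mixedSpace K} :
    e ∈ imL L ↔ ∃ v ∈ L, jE K v = e := Iff.rfl

variable (K) in
/-- the standard basis -/
noncomputable def BB := (latticeBasis K).prod (latticeBasis K)

theorem jE_mem_span (v : 𝓞 K × 𝓞 K) : jE K v ∈ Submodule.span ℤ (Set.range (BB K)) := by
  have h : ∀ x : 𝓞 K, (mixedEmbedding K x) ∈ Submodule.span ℤ (Set.range (latticeBasis K)) := by
    intro x
    rw [mem_span_latticeBasis]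
    exact ⟨x, rfl⟩
  have h1 : (jE K v) = LinearMap.inl ℤ (mixedSpace K) (mixedSpace K) (mixedEmbedding K v.1) +
      LinearMap.inr ℤ (mixedSpace K) (mixedSpace K) (mixedEmbedding K v.2) := by
    rw [jE_apply]
    simp
  rw [h1]
  refine Submodule.add_mem _ ?_ ?_
  · have h2 := Submodule.mem_map_of_mem (f := LinearMap.inl ℤ (mixedSpace K) (mixedSpace K)) (h v.1)
    rw [Submodule.map_span] at h2
    refine Submodule.span_mono ?_ h2
    rintro _ ⟨_, ⟨i, rfl⟩, rfl⟩
    exact ⟨Sum.inl i, by simp [BB]⟩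
  · have h2 := Submodule.mem_map_of_mem (f := LinearMap.inr ℤ (mixedSpace K) (mixedSpace K)) (h v.2)
    rw [Submodule.map_span] at h2
    refine Submodule.span_mono ?_ h2
    rintro _ ⟨_, ⟨i, rfl⟩, rfl⟩
    exact ⟨Sum.inr i, by simp [BB]⟩

instance discrete_imL (L : AddSubgroup (𝓞 K × 𝓞 K)) : DiscreteTopology (imL L) := by
  have h : DiscreteTopology (Submodule.span ℤ (Set.range (BB K))) := inferInstance
  refine DiscreteTopology.of_subset (s := (Submodule.span ℤ (Set.range (BB K)) : Set _)) h ?_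
  rintro e he
  obtain ⟨v, _, rfl⟩ := mem_imL.mp he
  exact jE_mem_span v

theorem zlattice_imL {L : AddSubgroup (𝓞 K × 𝓞 K)} (hL : IsLat L) : IsZLattice ℝ (imL L) := by
  obtain ⟨n, hn, h⟩ := hL
  constructor
  rw [eq_top_iff, ← (BB K).span_eq, Submodule.span_le]
  have key : ∀ v : 𝓞 K × 𝓞 K, jE K v ∈ Submodule.span ℝ (imL L : Set (mixedSpace K × mixedSpace K)) := by
    intro v
    have h1 : (n : ℝ)⁻¹ • jE K (n • v) ∈
        Submodule.span ℝ (imL L : Set (mixedSpace K × mixedSpace K)) :=
      Submodule.smul_mem _ _ (Submodule.subset_span (mem_imL.mpr ⟨_, h v, rfl⟩))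
    have h2 : (n : ℝ)⁻¹ • jE K (n • v) = jE K v := by
      rw [map_nsmul, ← Nat.cast_smul_eq_nsmul ℝ, smul_smul,
        inv_mul_cancel₀ (by exact_mod_cast hn), one_smul]
    rwa [h2] at h1
  rintro _ ⟨i, rfl⟩
  rcases i with i | i
  · have h3 : BB K (Sum.inl i) = jE K (RingOfIntegers.basis K i, 0) := by
      rw [jE_apply]
      simp [BB]
    rw [h3]
    exact key _
  · have h3 : BB K (Sum.inr i) = jE K (0, RingOfIntegers.basis K i) := by
      rw [jE_apply]
      simp [BB]
    rw [h3]
    exact key _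

end Concrete

end Pool.Agent.K6.H14.ABC
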