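import Mathlib
import Pool.Agent.K6.H14.ABC.Lat
import Pool.Agent.K6.H14.ABC.Geo3

set_option autoImplicit false
set_option linter.unusedSectionVars false

/-!
# Sums of functions over the integral points of the region
-/

namespace Pool.Agent.K6.H14.ABC

open MeasureTheory Filter Topology Module NumberField NumberField.InfinitePlace
open NumberField.mixedEmbedding
open scoped Classical

variable {K : Type*} [Field K] [NumberField K]

/-- the indicator function of a subgroup -/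
noncomputable def ind (L : AddSubgroup (𝓞 K × 𝓞 K)) : 𝓞 K × 𝓞 K → ℝ :=
  Set.indicator (L : Set (𝓞 K × 𝓞 K)) (fun _ => (1 : ℝ))

/-- linear combinations of indicator functions of subgroups of finite index -/
def LatFun (f : 𝓞 K × 𝓞 K → ℝ) : Prop :=
  f ∈ Submodule.span ℝ {g : 𝓞 K × 𝓞 K → ℝ | ∃ L : AddSubgroup (𝓞 K × 𝓞 K), IsLat L ∧ g = ind L}

theorem LatFun.ind {L : AddSubgroup (𝓞 K × 𝓞 K)} (hL : IsLat L) : LatFun (ind L) :=
  Submodule.subset_span ⟨L, hL, rfl⟩

theorem LatFun.add {f g : 𝓞 K × 𝓞 K → ℝ} (hf : LatFun f) (hg : LatFun g) : LatFun (f + g) :=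
  Submodule.add_mem _ hf hg

theorem LatFun.sub {f g : 𝓞 K × 𝓞 K → ℝ} (hf : LatFun f) (hg : LatFun g) : LatFun (f - g) :=
  Submodule.sub_mem _ hf hg

theorem LatFun.smul {f : 𝓞 K × 𝓞 K → ℝ} (c : ℝ) (hf : LatFun f) : LatFun (c • f) :=
  Submodule.smul_mem _ _ hf

theorem LatFun.zero : LatFun (0 : 𝓞 K × 𝓞 K → ℝ) := Submodule.zero_mem _

theorem LatFun.one : LatFun (1 : 𝓞 K × 𝓞 K → ℝ) := by
  have h : IsLat (⊤ : AddSubgroup (𝓞 K × 𝓞 K)) := ⟨1, one_ne_zero, fun _ => trivial⟩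
  have h1 := LatFun.ind h
  have h2 : ABC.ind (⊤ : AddSubgroup (𝓞 K × 𝓞 K)) = 1 := by
    funext v
    simp [ABC.ind]
  rwa [h2] at h1

theorem IsLat.inf {L L' : AddSubgroup (𝓞 K × 𝓞 K)} (hL : IsLat L) (hL' : IsLat L') :
    IsLat (L ⊓ L') := by
  obtain ⟨n, hn, h⟩ := hL
  obtain ⟨m, hm, h'⟩ := hL'
  refine ⟨n * m, Nat.mul_ne_zero hn hm, fun v => ⟨?_, ?_⟩⟩
  · rw [mul_smul]
    exact h _
  · rw [mul_comm, mul_smul]
    exact h' _

theorem ind_mul (L L' : AddSubgroup (𝓞 K × 𝓞 K)) : ind L * ind L' = ind (L ⊓ L') := by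
  funext v
  simp only [ind, Pi.mul_apply, Set.indicator, AddSubgroup.coe_inf, Set.mem_inter_iff,
    SetLike.mem_coe]
  split_ifs <;> simp_all

theorem LatFun.mul {f g : 𝓞 K × 𝓞 K → ℝ} (hf : LatFun f) (hg : LatFun g) : LatFun (f * g) := by
  unfold LatFun at hf hg
  induction hf using Submodule.span_induction with
  | mem f hf =>
    obtain ⟨L, hL, rfl⟩ := hf
    induction hg using Submodule.span_induction with
    | mem g hg =>
      obtain ⟨L', hL', rfl⟩ := hg
      rw [ind_mul]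
      exact LatFun.ind (hL.inf hL')
    | zero =>
      rw [mul_zero]
      exact LatFun.zero
    | add x y _ _ hx hy =>
      rw [mul_add]
      exact hx.add hy
    | smul c x _ hx =>
      rw [mul_smul_comm]
      exact hx.smul c
  | zero =>
    rw [zero_mul]
    exact LatFun.zero
  | add x y _ _ hx hy =>
    rw [add_mul]
    exact hx.add hy
  | smul c x _ hx =>
    rw [smul_mul_assoc]
    exact hx.smul c

theorem LatFun.prod {ι : Type*} (s : Finset ι) {f : ι → 𝓞 K × 𝓞 K → ℝ}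
    (hf : ∀ i ∈ s, LatFun (f i)) : LatFun (∏ i ∈ s, f i) := by
  induction s using Finset.induction_on with
  | empty =>
    rw [Finset.prod_empty]
    exact LatFun.one
  | insert a s ha ih =>
    rw [Finset.prod_insert ha]
    exact (hf a (Finset.mem_insert_self a s)).mul
      (ih fun i hi => hf i (Finset.mem_insert_of_mem hi))

theorem LatFun.sum {ι : Type*} (s : Finset ι) {f : ι → 𝓞 K × 𝓞 K → ℝ}
    (hf : ∀ i ∈ s, LatFun (f i)) : LatFun (∑ i ∈ s, f i) := by
  induction s using Finset.induction_on with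
  | empty =>
    rw [Finset.sum_empty]
    exact LatFun.zero
  | insert a s ha ih =>
    rw [Finset.sum_insert ha]
    exact (hf a (Finset.mem_insert_self a s)).add
      (ih fun i hi => hf i (Finset.mem_insert_of_mem hi))

/-- the integral points of the region -/
def SS {q : ℕ} (α : Fin q → K × K) (Ψ : mixedSpace K × mixedSpace K → ℝ) (t y : ℝ) :
    Set (𝓞 K × 𝓞 K) :=
  {v | jE K v ∈ Reg α Ψ t ∧ FF α (jE K v) ≤ y}

theorem SS_finite {q : ℕ} (hq : 0 < q) {α : Fin q → K × K}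
    {Ψ : mixedSpace K × mixedSpace K → ℝ} (h : Adm α Ψ) (t y : ℝ) : (SS α Ψ t y).Finite := by
  obtain ⟨R, hR⟩ := (region_bounded hq h t).exists_norm_le
  set y' := max y 1 with hy'
  have hy1 : 0 < y' := lt_max_of_lt_right one_pos
  set d := finrank ℚ K with hd
  have hd0 : 0 < d := finrank_pos
  have hdR : (0 : ℝ) < d := by exact_mod_cast hd0
  set r : ℝ := y' ^ (-(1 / (2 * d : ℝ))) with hr
  have hr0 : 0 < r := Real.rpow_pos_of_pos hy1 _
  have hrd : r ^ (2 * d) = y'⁻¹ := by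
    rw [hr, ← Real.rpow_natCast, ← Real.rpow_mul hy1.le, ← Real.rpow_neg_one]
    congr 1
    push_cast
    field_simp
  have hb : Bornology.IsBounded {e | e ∈ Reg α Ψ t ∧ FF α e ≤ y'} := by
    refine isBounded_iff_forall_norm_le.mpr ⟨r⁻¹ * R, fun e he => ?_⟩
    obtain ⟨h1, h2⟩ := he
    have h3 : r • e ∈ {e | e ∈ Reg α Ψ t ∧ FF α e ≤ 1} := by
      refine ⟨Reg_smul h t h1 hr0, ?_⟩
      rw [FF_smul hq α e hr0.le, hrd, inv_mul_le_iff₀ hy1, mul_one]
      exact h2
    have h4 := hR _ h3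
    rw [_root_.norm_smul, Real.norm_of_nonneg hr0.le] at h4
    rw [inv_mul_eq_div, le_div_iff₀ hr0, mul_comm]
    exact h4
  have hfin := ZSpan.setFinite_inter (BB K) hb
  refine Set.Finite.subset (hfin.preimage (f := jE K) jE_injective.injOn) ?_
  intro v hv
  refine ⟨⟨hv.1, hv.2.trans (le_max_left _ _)⟩, jE_mem_span v⟩

theorem count_ind {q : ℕ} (hq : 0 < q) {α : Fin q → K × K} (hα : ∀ l, α l ≠ 0)
    {Ψ : mixedSpace K × mixedSpace K → ℝ} (h : Adm α Ψ) {t : ℝ}
    (ht : (Measure.addHaar : Measure (mixedSpace K × mixedSpace K)) {e | Ψ e = t} = 0)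
    {L : AddSubgroup (𝓞 K × 𝓞 K)} (hL : IsLat L) :
    ∃ κ : ℝ, Tendsto (fun y : ℝ => (∑ v ∈ (SS_finite hq h t y).toFinset, ind L v) / y)
      atTop (𝓝 κ) := by
  have hz := zlattice_imL hL
  have hfr : finrank ℝ (mixedSpace K × mixedSpace K) = 2 * finrank ℚ K := by
    rw [Module.finrank_prod, mixedEmbedding.finrank, two_mul]
  obtain ⟨κ, hκ⟩ := card_lattice (imL L) (X := Reg α Ψ t) (F := FF α)
    (fun e r he hr => Reg_smul h t he hr)
    (fun e r hr => by rw [hfr]; exact FF_smul hq α e hr)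
    (region_bounded hq h t) (region_meas h t)
    (region_frontier Measure.addHaar hq hα h ht)
  refine ⟨κ, hκ.congr fun y => ?_⟩
  congr 1
  have h1 : (∑ v ∈ (SS_finite hq h t y).toFinset, ind L v) =
      (((SS_finite hq h t y).toFinset.filter (fun v => v ∈ L)).card : ℝ) := by
    rw [Finset.card_filter]
    push_cast
    refine Finset.sum_congr rfl fun v _ => ?_
    unfold ind
    rw [Set.indicator_apply]
    rfl
  rw [h1]
  have h2 : ({x | x ∈ Reg α Ψ t ∧ FF α x ≤ y} ∩ (imL L : Set (mixedSpace K × mixedSpace K))) =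
      jE K '' (((SS_finite hq h t y).toFinset.filter (fun v => v ∈ L) :
        Finset (𝓞 K × 𝓞 K)) : Set (𝓞 K × 𝓞 K)) := by
    ext e
    constructor
    · rintro ⟨h3, h4⟩
      obtain ⟨v, hv, rfl⟩ := mem_imL.mp h4
      refine ⟨v, ?_, rfl⟩
      rw [Finset.mem_coe, Finset.mem_filter, Set.Finite.mem_toFinset]
      exact ⟨h3, hv⟩
    · rintro ⟨v, hv, rfl⟩
      rw [Finset.mem_coe, Finset.mem_filter, Set.Finite.mem_toFinset] at hv
      exact ⟨hv.1, mem_imL.mpr ⟨v, hv.2, rfl⟩⟩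
  have h3 : Nat.card ↑({x | x ∈ Reg α Ψ t ∧ FF α x ≤ y} ∩
      (imL L : Set (mixedSpace K × mixedSpace K))) =
      ({x | x ∈ Reg α Ψ t ∧ FF α x ≤ y} ∩
      (imL L : Set (mixedSpace K × mixedSpace K))).ncard := rfl
  rw [h3, h2, Set.ncard_image_of_injective _ jE_injective, Set.ncard_coe_finset]

/-- the sums over the integral points of the region have a limit -/
theorem count_fun {q : ℕ} (hq : 0 < q) {α : Fin q → K × K} (hα : ∀ l, α l ≠ 0)
    {Ψ : mixedSpace K × mixedSpace K → ℝ} (h : Adm α Ψ) {t : ℝ}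
    (ht : (Measure.addHaar : Measure (mixedSpace K × mixedSpace K)) {e | Ψ e = t} = 0)
    {f : 𝓞 K × 𝓞 K → ℝ} (hf : LatFun f) :
    ∃ κ : ℝ, Tendsto (fun y : ℝ => (∑ v ∈ (SS_finite hq h t y).toFinset, f v) / y)
      atTop (𝓝 κ) := by
  unfold LatFun at hf
  induction hf using Submodule.span_induction with
  | mem f hf =>
    obtain ⟨L, hL, rfl⟩ := hf
    exact count_ind hq hα h ht hL
  | zero =>
    refine ⟨0, ?_⟩
    simp
  | add x y _ _ hx hy =>
    obtain ⟨κ₁, h₁⟩ := hx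
    obtain ⟨κ₂, h₂⟩ := hy
    refine ⟨κ₁ + κ₂, (h₁.add h₂).congr fun z => ?_⟩
    simp only [Pi.add_apply]
    rw [Finset.sum_add_distrib, add_div]
  | smul c x _ hx =>
    obtain ⟨κ₁, h₁⟩ := hx
    refine ⟨c * κ₁, (h₁.const_mul c).congr fun z => ?_⟩
    simp only [Pi.smul_apply, smul_eq_mul]
    rw [← Finset.mul_sum, mul_div_assoc]

end Pool.Agent.K6.H14.ABC
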