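import Mathlib
import Pool.Agent.H691R3.Rep
import Pool.Agent.H691R3.Data2
import Pool.Agent.K6.H14.ABC.LatF

set_option autoImplicit false
set_option linter.unusedSectionVars false

/-!
# The content of a pair of integers
-/

namespace Pool.Agent.K6.H14.ABC

open Filter Topology Module NumberField NumberField.InfinitePlace IsDedekindDomain
open NumberField.mixedEmbedding Pool.Agent.H691R3

variable {K : Type*} [Field K] [NumberField K]

/-- the absolute value of an ideal -/
noncomputable def ro (v : HeightOneSpectrum (𝓞 K)) (I : Ideal (𝓞 K)) : ℝ :=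
  (Nv v) ^ (-(multiplicity v.asIdeal I : ℤ))

theorem one_lt_Nv (v : HeightOneSpectrum (𝓞 K)) : 1 < Nv v := by linarith [two_le_Nv v]

theorem ro_pos (v : HeightOneSpectrum (𝓞 K)) (I : Ideal (𝓞 K)) : 0 < ro v I := by
  have := one_lt_Nv v
  unfold ro
  positivity

theorem finmult (v : HeightOneSpectrum (𝓞 K)) {I : Ideal (𝓞 K)} (hI : I ≠ ⊥) :
    FiniteMultiplicity v.asIdeal I :=
  FiniteMultiplicity.of_prime_left v.prime hI

theorem fv_le_ro (v : HeightOneSpectrum (𝓞 K)) {I : Ideal (𝓞 K)} {x : 𝓞 K} (hx : x ∈ I) :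
    fv v (x : K) ≤ ro v I := by
  unfold ro
  rw [fv_le_pow_iff]
  exact Ideal.le_of_dvd (pow_multiplicity_dvd v.asIdeal I) hx

theorem fv_lt_pow (v : HeightOneSpectrum (𝓞 K)) {x : 𝓞 K} {m : ℕ}
    (h : fv v (x : K) < (Nv v) ^ (-(m : ℤ))) : x ∈ v.asIdeal ^ (m + 1) := by
  by_cases hx : x = 0
  · rw [hx]
    exact Submodule.zero_mem _
  rw [← fv_le_pow_iff]
  rw [fv_int_count v hx] at h ⊢
  rw [zpow_lt_zpow_iff_right₀ (one_lt_Nv v)] at h
  rw [zpow_le_zpow_iff_right₀ (one_lt_Nv v)]
  push_cast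
  omega

theorem max_fv_span (v : HeightOneSpectrum (𝓞 K)) {a b : 𝓞 K}
    (h : Ideal.span {a, b} ≠ ⊥) :
    max (fv v (a : K)) (fv v (b : K)) = ro v (Ideal.span {a, b}) := by
  refine le_antisymm ?_ ?_
  · refine max_le (fv_le_ro v ?_) (fv_le_ro v ?_)
    · exact Ideal.subset_span (Set.mem_insert _ _)
    · exact Ideal.subset_span (Set.mem_insert_of_mem _ rfl)
  · by_contra hcon
    rw [not_le, max_lt_iff] at hcon
    have h1 := fv_lt_pow v hcon.1
    have h2 := fv_lt_pow v hcon.2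
    have h3 : Ideal.span {a, b} ≤ v.asIdeal ^ (multiplicity v.asIdeal (Ideal.span {a, b}) + 1) := by
      rw [Ideal.span_le]
      rintro x (rfl | rfl)
      · exact h1
      · exact h2
    have h4 := Ideal.dvd_iff_le.mpr h3
    rw [(finmult v h).pow_dvd_iff_le_multiplicity] at h4
    omega

theorem ro_mul (v : HeightOneSpectrum (𝓞 K)) {I J : Ideal (𝓞 K)} (hI : I ≠ ⊥) (hJ : J ≠ ⊥) :
    ro v (I * J) = ro v I * ro v J := by
  have hIJ : I * J ≠ ⊥ := mul_ne_zero hI hJ
  unfold ro
  rw [multiplicity_mul v.prime (finmult v hIJ)]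
  rw [← zpow_add₀ (by linarith [one_lt_Nv v])]
  congr 1
  push_cast
  ring

theorem ro_eq_one (v : HeightOneSpectrum (𝓞 K)) {I : Ideal (𝓞 K)} (h : ¬ v.asIdeal ∣ I) :
    ro v I = 1 := by
  unfold ro
  rw [multiplicity_eq_zero.mpr h]
  simp

theorem ro_lt_one (v : HeightOneSpectrum (𝓞 K)) {I : Ideal (𝓞 K)} (hI : I ≠ ⊥)
    (h : v.asIdeal ∣ I) : ro v I < 1 := by
  unfold ro
  have h1 : 1 ≤ multiplicity v.asIdeal I := by
    rw [← (finmult v hI).pow_dvd_iff_le_multiplicity, pow_one]
    exact h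
  have h2 : (Nv v) ^ (-(multiplicity v.asIdeal I : ℤ)) < (Nv v) ^ (0 : ℤ) := by
    rw [zpow_lt_zpow_iff_right₀ (one_lt_Nv v)]
    omega
  simpa using h2

theorem log_ro (v : HeightOneSpectrum (𝓞 K)) (I : Ideal (𝓞 K)) :
    Real.log (ro v I) = -((multiplicity v.asIdeal I : ℝ) * Real.log (Nv v)) := by
  unfold ro
  rw [Real.log_zpow]
  push_cast
  ring

theorem ro_support_finite {I : Ideal (𝓞 K)} (hI : I ≠ ⊥) :
    (Function.support fun v : HeightOneSpectrum (𝓞 K) => Real.log (ro v I)).Finite := by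
  refine (Ideal.finite_factors hI).subset ?_
  intro v hv
  by_contra h
  rw [Function.mem_support] at hv
  apply hv
  rw [ro_eq_one v h, Real.log_one]

theorem sum_log_ro {I : Ideal (𝓞 K)} (hI : I ≠ ⊥) :
    ∑ᶠ v : HeightOneSpectrum (𝓞 K), Real.log (ro v I) = -Real.log (Ideal.absNorm I) := by
  classical
  have hfin : {v : HeightOneSpectrum (𝓞 K) | v.asIdeal ∣ I}.Finite := Ideal.finite_factors hI
  have h1 := Ideal.finprod_heightOneSpectrum_pow_multiplicity hI
  rw [finprod_eq_prod_of_mulSupport_subset (s := hfin.toFinset)] at h1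
  · have h2 : (Ideal.absNorm I : ℝ) =
        ∏ v ∈ hfin.toFinset, (Nv v) ^ (multiplicity v.asIdeal I) := by
      conv_lhs => rw [← h1]
      rw [map_prod]
      push_cast
      refine Finset.prod_congr rfl fun v _ => ?_
      rw [map_pow]
      push_cast
      rfl
    rw [h2, Real.log_prod]
    · rw [finsum_eq_sum_of_support_subset (s := hfin.toFinset), ← Finset.sum_neg_distrib]
      · refine Finset.sum_congr rfl fun v _ => ?_
        rw [log_ro, Real.log_pow]
      · intro v hv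
        rw [Function.mem_support] at hv
        rw [Set.Finite.coe_toFinset]
        by_contra h
        apply hv
        rw [ro_eq_one v h, Real.log_one]
    · intro v _
      exact pow_ne_zero _ (by linarith [one_lt_Nv v])
  · intro v hv
    rw [Function.mem_mulSupport] at hv
    rw [Set.Finite.coe_toFinset]
    by_contra h
    apply hv
    rw [multiplicity_eq_zero.mpr h, pow_zero]

/-- a pair of integers as a pair of elements of the field -/
noncomputable def pK (x : 𝓞 K × 𝓞 K) : K × K := ((x.1 : K), (x.2 : K))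

theorem pK_ne_zero {x : 𝓞 K × 𝓞 K} (hx : x ≠ 0) : pK x ≠ 0 := by
  intro h
  apply hx
  have h1 : (x.1 : K) = 0 := congrArg Prod.fst h
  have h2 : (x.2 : K) = 0 := congrArg Prod.snd h
  exact Prod.ext (RingOfIntegers.coe_eq_zero_iff.mp h1) (RingOfIntegers.coe_eq_zero_iff.mp h2)

/-- the ideal generated by a pair -/
def ctt (x : 𝓞 K × 𝓞 K) : Ideal (𝓞 K) := Ideal.span {x.1, x.2}

theorem ctt_ne_bot {x : 𝓞 K × 𝓞 K} (hx : x ≠ 0) : ctt x ≠ ⊥ := by
  intro h
  apply hx
  have h1 : x.1 ∈ ctt x := Ideal.subset_span (Set.mem_insert _ _)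
  have h2 : x.2 ∈ ctt x := Ideal.subset_span (Set.mem_insert_of_mem _ rfl)
  rw [h, Ideal.mem_bot] at h1 h2
  exact Prod.ext h1 h2

/-- a pair of elements of the field in the square of the mixed space -/
noncomputable def jK (p : K × K) : mixedSpace K × mixedSpace K :=
  (mixedEmbedding K p.1, mixedEmbedding K p.2)

theorem jE_eq_jK (x : 𝓞 K × 𝓞 K) : jE K x = jK (pK x) := rfl

theorem Lf_jK (a p : K × K) : Lf a (jK p) = mixedEmbedding K (wg p a) := by
  unfold Lf jK wg
  rw [map_sub, map_mul, map_mul]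

theorem norm_mixed (x : K) : mixedEmbedding.norm (mixedEmbedding K x) =
    ∏ w : InfinitePlace K, (w x) ^ (mult w) := by
  rw [mixedEmbedding.norm_apply]
  simp_rw [normAtPlace_apply]

theorem log_norm_mixed {x : K} (hx : x ≠ 0) :
    Real.log (mixedEmbedding.norm (mixedEmbedding K x)) =
      ∑ w : InfinitePlace K, (w.mult : ℝ) * Real.log (w x) := by
  rw [norm_mixed, Real.log_prod]
  · refine Finset.sum_congr rfl fun w _ => ?_
    rw [Real.log_pow]
  · intro w _
    exact pow_ne_zero _ (InfinitePlace.pos_iff.mpr hx).ne'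

theorem norm_mixed_ne {x : K} (hx : x ≠ 0) :
    mixedEmbedding.norm (mixedEmbedding K x) ≠ 0 := by
  rw [norm_mixed]
  exact Finset.prod_ne_zero_iff.mpr fun w _ => pow_ne_zero _ (InfinitePlace.pos_iff.mpr hx).ne'

theorem log_NN {q : ℕ} {α : Fin q → K × K} {p : K × K} (hp : ∀ l, wg p (α l) ≠ 0) :
    Real.log (NN α (jK p)) =
      ∑ l, ∑ w : InfinitePlace K, (w.mult : ℝ) * Real.log (w (wg p (α l))) := by
  unfold NN
  simp_rw [Lf_jK]
  rw [Real.log_prod]
  · exact Finset.sum_congr rfl fun l _ => log_norm_mixed (hp l)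
  · intro l _
    exact norm_mixed_ne (hp l)

theorem NN_jK_ne {q : ℕ} {α : Fin q → K × K} {p : K × K} :
    NN α (jK p) ≠ 0 ↔ ∀ l, wg p (α l) ≠ 0 := by
  constructor
  · intro h l hl
    apply h
    unfold NN
    refine Finset.prod_eq_zero (Finset.mem_univ l) ?_
    rw [Lf_jK, hl, map_zero, map_zero]
  · intro h
    unfold NN
    refine Finset.prod_ne_zero_iff.mpr fun l _ => ?_
    rw [Lf_jK]
    exact norm_mixed_ne (h l)

theorem log_HH {p : K × K} (hp : p ≠ 0) : Real.log (HH (jK p)) =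
    ∑ w : InfinitePlace K, (w.mult : ℝ) * Real.log (max (w p.1) (w p.2)) := by
  rw [HH_eq]
  unfold jK
  simp only [normAtPlace_apply]
  rw [Real.log_prod]
  · refine Finset.sum_congr rfl fun w _ => ?_
    rw [Real.log_pow]
  · intro w _
    exact pow_ne_zero _ (max_pos w.1 hp).ne'

/-- the height in terms of the content -/
theorem hr_eq {x : 𝓞 K × 𝓞 K} (hx : x ≠ 0) :
    hr (pK x) = Real.log (HH (jE K x)) - Real.log (Ideal.absNorm (ctt x)) := by
  unfold hr
  rw [jE_eq_jK, log_HH (pK_ne_zero hx), sub_eq_add_neg, ← sum_log_ro (ctt_ne_bot hx)]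
  congr 1
  refine finsum_congr fun v => ?_
  congr 1
  exact max_fv_span v (ctt_ne_bot hx)

/-- the counting function with multiplicities, at all primes -/
noncomputable def Nall {q : ℕ} (α : Fin q → K × K) (p : K × K) : ℝ :=
  ∑ l, ∑ᶠ v : HeightOneSpectrum (𝓞 K), lamA (fv v) p (α l)

/-- the constant of the forms -/
noncomputable def cα {q : ℕ} (α : Fin q → K × K) : ℝ :=
  ∑ l, ∑ᶠ v : HeightOneSpectrum (𝓞 K), Real.log (max (fv v (α l).1) (fv v (α l).2))

theorem Nall_eq {q : ℕ} {α : Fin q → K × K} (hα : ∀ l, α l ≠ 0) {x : 𝓞 K × 𝓞 K} (hx : x ≠ 0)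
    (hp : ∀ l, wg (pK x) (α l) ≠ 0) :
    Nall α (pK x) =
      Real.log (NN α (jE K x)) - q * Real.log (Ideal.absNorm (ctt x)) + cα α := by
  have hpx := pK_ne_zero hx
  have h1 : ∀ l, ∑ᶠ v : HeightOneSpectrum (𝓞 K), lamA (fv v) (pK x) (α l) =
      -Real.log (Ideal.absNorm (ctt x)) +
      ∑ᶠ v : HeightOneSpectrum (𝓞 K), Real.log (max (fv v (α l).1) (fv v (α l).2)) +
      ∑ w : InfinitePlace K, (w.mult : ℝ) * Real.log (w (wg (pK x) (α l))) := by
    intro l
    have h2 := log_product_formula (K := K) (hp l)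
    have h3 : ∑ w : InfinitePlace K, (w.mult : ℝ) * Real.log (w (wg (pK x) (α l))) =
        -∑ᶠ v : HeightOneSpectrum (𝓞 K), Real.log (fv v (wg (pK x) (α l))) := by linarith
    rw [h3, ← sub_eq_add_neg, ← sum_log_ro (ctt_ne_bot hx)]
    have h4 : ∀ v : HeightOneSpectrum (𝓞 K), Real.log (ro v (ctt x)) =
        Real.log (max (fv v (pK x).1) (fv v (pK x).2)) := fun v => by
      congr 1
      exact (max_fv_span v (ctt_ne_bot hx)).symm
    simp_rw [h4]
    rw [← finsum_add_distrib (log_max_support_finite hpx) (log_max_support_finite (hα l)),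
      ← finsum_sub_distrib _ (log_fv_support_finite (hp l))]
    · exact finsum_congr fun v => lamA_eq (fv v) hpx (hα l) (hp l)
    · exact ((log_max_support_finite hpx).union (log_max_support_finite (hα l))).subset
        (Function.support_add _ _)
  unfold Nall
  simp_rw [h1]
  rw [Finset.sum_add_distrib, Finset.sum_add_distrib, Finset.sum_const, Finset.card_univ,
    Fintype.card_fin, nsmul_eq_mul, jE_eq_jK, log_NN hp]
  unfold cα
  ring

end Pool.Agent.K6.H14.ABC
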