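import Mathlib
import Pool.Agent.K6.H14.ABC.Cont

set_option autoImplicit false
set_option linter.unusedSectionVars false

/-!
# Local conditions as combinations of lattices
-/

namespace Pool.Agent.K6.H14.ABC

open Filter Topology Module NumberField NumberField.InfinitePlace IsDedekindDomain
open NumberField.mixedEmbedding Pool.Agent.H691R3

variable {K : Type*} [Field K] [NumberField K]

theorem wg_add (x y : 𝓞 K × 𝓞 K) (a : K × K) :
    wg (pK (x + y)) a = wg (pK x) a + wg (pK y) a := by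
  unfold wg pK
  simp only [Prod.fst_add, Prod.snd_add, map_add]
  ring

theorem wg_zero (a : K × K) : wg (pK (0 : 𝓞 K × 𝓞 K)) a = 0 := by
  unfold wg pK
  simp

theorem wg_neg (x : 𝓞 K × 𝓞 K) (a : K × K) : wg (pK (-x)) a = -wg (pK x) a := by
  unfold wg pK
  simp only [Prod.fst_neg, Prod.snd_neg, map_neg]
  ring

theorem wg_nsmul (n : ℕ) (x : 𝓞 K × 𝓞 K) (a : K × K) :
    wg (pK (n • x)) a = (n : K) * wg (pK x) a := by
  show ((n • x.1 : 𝓞 K) : K) * a.2 - ((n • x.2 : 𝓞 K) : K) * a.1 =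
    (n : K) * ((x.1 : K) * a.2 - (x.2 : K) * a.1)
  have h : ∀ y : 𝓞 K, ((n • y : 𝓞 K) : K) = (n : K) * (y : K) := by
    intro y
    rw [nsmul_eq_mul]
    simp
  rw [h, h]
  ring

/-- the pairs at which a form is small -/
def Lle (v : HeightOneSpectrum (𝓞 K)) (a : K × K) {r : ℝ} (hr : 0 ≤ r) :
    AddSubgroup (𝓞 K × 𝓞 K) where
  carrier := {x | fv v (wg (pK x) a) ≤ r}
  add_mem' := by
    intro x y hx hy
    simp only [Set.mem_ofPred_eq] at hx hy ⊢
    rw [wg_add]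
    exact (fv_na v _ _).trans (max_le hx hy)
  zero_mem' := by
    simp only [Set.mem_ofPred_eq]
    rw [wg_zero, map_zero]
    exact hr
  neg_mem' := by
    intro x hx
    simp only [Set.mem_ofPred_eq] at hx ⊢
    rw [wg_neg, map_neg_eq_map]
    exact hx

/-- the pairs at which a form is smaller -/
def Llt (v : HeightOneSpectrum (𝓞 K)) (a : K × K) {r : ℝ} (hr : 0 < r) :
    AddSubgroup (𝓞 K × 𝓞 K) where
  carrier := {x | fv v (wg (pK x) a) < r}
  add_mem' := by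
    intro x y hx hy
    simp only [Set.mem_ofPred_eq] at hx hy ⊢
    rw [wg_add]
    exact (fv_na v _ _).trans_lt (max_lt hx hy)
  zero_mem' := by
    simp only [Set.mem_ofPred_eq]
    rw [wg_zero, map_zero]
    exact hr
  neg_mem' := by
    intro x hx
    simp only [Set.mem_ofPred_eq] at hx ⊢
    rw [wg_neg, map_neg_eq_map]
    exact hx

theorem mem_Lle {v : HeightOneSpectrum (𝓞 K)} {a : K × K} {r : ℝ} {hr : 0 ≤ r}
    {x : 𝓞 K × 𝓞 K} : x ∈ Lle v a hr ↔ fv v (wg (pK x) a) ≤ r := Iff.rfl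

theorem mem_Llt {v : HeightOneSpectrum (𝓞 K)} {a : K × K} {r : ℝ} {hr : 0 < r}
    {x : 𝓞 K × 𝓞 K} : x ∈ Llt v a hr ↔ fv v (wg (pK x) a) < r := Iff.rfl

theorem exists_small (v : HeightOneSpectrum (𝓞 K)) {ε : ℝ} (hε : 0 < ε) :
    ∃ n : ℕ, n ≠ 0 ∧ fv v (n : K) < ε := by
  set N := Ideal.absNorm v.asIdeal with hN
  have hN0 : N ≠ 0 := by
    rw [hN, Ne, Ideal.absNorm_eq_zero_iff]
    exact v.ne_bot
  have h1 : fv v ((N : 𝓞 K) : K) < 1 := by
    rw [fv_lt_one_iff]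
    exact Ideal.absNorm_mem v.asIdeal
  obtain ⟨j, hj⟩ := exists_pow_lt_of_lt_one hε h1
  refine ⟨N ^ j, pow_ne_zero _ hN0, ?_⟩
  have h2 : ((N ^ j : ℕ) : K) = ((N : 𝓞 K) : K) ^ j := by
    push_cast
    simp
  rw [h2, map_pow]
  exact hj

theorem fv_wg_le (v : HeightOneSpectrum (𝓞 K)) (x : 𝓞 K × 𝓞 K) (a : K × K) :
    fv v (wg (pK x) a) ≤ max (fv v a.1) (fv v a.2) := by
  unfold wg
  rw [sub_eq_add_neg]
  refine (fv_na v _ _).trans (max_le ?_ ?_)
  · rw [map_mul]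
    refine (mul_le_mul_of_nonneg_right (fv_int_le_one v x.1) ((fv v).nonneg _)).trans ?_
    rw [one_mul]
    exact le_max_right _ _
  · rw [map_neg_eq_map, map_mul]
    refine (mul_le_mul_of_nonneg_right (fv_int_le_one v x.2) ((fv v).nonneg _)).trans ?_
    rw [one_mul]
    exact le_max_left _ _

theorem isLat_Llt (v : HeightOneSpectrum (𝓞 K)) (a : K × K) {r : ℝ} (hr : 0 < r) :
    IsLat (Llt v a hr) := by
  set M := max (fv v a.1) (fv v a.2) + 1 with hM
  have hM0 : 0 < M := by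
    have : 0 ≤ max (fv v a.1) (fv v a.2) := le_max_of_le_left ((fv v).nonneg _)
    linarith
  obtain ⟨n, hn, h⟩ := exists_small v (div_pos hr hM0)
  refine ⟨n, hn, fun x => ?_⟩
  rw [mem_Llt, wg_nsmul, map_mul]
  have h1 := fv_wg_le v x a
  have h2 : fv v (wg (pK x) a) ≤ M := by linarith
  rw [lt_div_iff₀ hM0] at h
  exact (mul_le_mul_of_nonneg_left h2 ((fv v).nonneg _)).trans_lt h

theorem isLat_mono {L L' : AddSubgroup (𝓞 K × 𝓞 K)} (hL : IsLat L) (h : L ≤ L') : IsLat L' := by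
  obtain ⟨n, hn, h'⟩ := hL
  exact ⟨n, hn, fun v => h (h' v)⟩

theorem isLat_Lle (v : HeightOneSpectrum (𝓞 K)) (a : K × K) {r : ℝ} (hr : 0 < r) :
    IsLat (Lle v a hr.le) :=
  isLat_mono (isLat_Llt v a hr) fun _ hx => le_of_lt (mem_Llt.mp hx)

/-- the pairs with coordinates in an ideal -/
def LJ (J : Ideal (𝓞 K)) : AddSubgroup (𝓞 K × 𝓞 K) where
  carrier := {x | x.1 ∈ J ∧ x.2 ∈ J}
  add_mem' := fun hx hy => ⟨J.add_mem hx.1 hy.1, J.add_mem hx.2 hy.2⟩
  zero_mem' := ⟨J.zero_mem, J.zero_mem⟩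
  neg_mem' := fun hx => ⟨J.neg_mem hx.1, J.neg_mem hx.2⟩

theorem mem_LJ {J : Ideal (𝓞 K)} {x : 𝓞 K × 𝓞 K} : x ∈ LJ J ↔ x.1 ∈ J ∧ x.2 ∈ J := Iff.rfl

theorem isLat_LJ {J : Ideal (𝓞 K)} (hJ : J ≠ ⊥) : IsLat (LJ J) := by
  refine ⟨Ideal.absNorm J, by rwa [Ne, Ideal.absNorm_eq_zero_iff], fun x => ?_⟩
  rw [mem_LJ]
  show Ideal.absNorm J • x.1 ∈ J ∧ Ideal.absNorm J • x.2 ∈ J
  rw [nsmul_eq_mul, nsmul_eq_mul]
  exact ⟨J.mul_mem_right _ (Ideal.absNorm_mem J), J.mul_mem_right _ (Ideal.absNorm_mem J)⟩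

open scoped Classical in
theorem ind_apply (L : AddSubgroup (𝓞 K × 𝓞 K)) (x : 𝓞 K × 𝓞 K) :
    ind L x = if x ∈ L then 1 else 0 := by
  unfold ind
  rw [Set.indicator_apply]
  rfl

/-- the indicator function of the pairs at which a form has a given absolute value -/
noncomputable def typeF (v : HeightOneSpectrum (𝓞 K)) (a : K × K) {r : ℝ} (hr : 0 < r) :
    𝓞 K × 𝓞 K → ℝ := ind (Lle v a hr.le) - ind (Llt v a hr)

theorem latFun_typeF (v : HeightOneSpectrum (𝓞 K)) (a : K × K) {r : ℝ} (hr : 0 < r) :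
    LatFun (typeF v a hr) := (LatFun.ind (isLat_Lle v a hr)).sub (LatFun.ind (isLat_Llt v a hr))

open scoped Classical in
theorem typeF_apply (v : HeightOneSpectrum (𝓞 K)) (a : K × K) {r : ℝ} (hr : 0 < r)
    (x : 𝓞 K × 𝓞 K) : typeF v a hr x = if fv v (wg (pK x) a) = r then 1 else 0 := by
  unfold typeF
  rw [Pi.sub_apply, ind_apply, ind_apply]
  simp only [mem_Lle, mem_Llt]
  rcases lt_trichotomy (fv v (wg (pK x) a)) r with h | h | h
  · rw [if_pos h.le, if_pos h, if_neg h.ne, sub_self]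
  · rw [if_pos h.le, if_neg (by rw [h]; exact lt_irrefl r), if_pos h, sub_zero]
  · rw [if_neg (not_le.mpr h), if_neg (not_lt.mpr h.le), if_neg h.ne', sub_self]

/-- the indicator function of the primitive pairs -/
noncomputable def primF (v : HeightOneSpectrum (𝓞 K)) {r : ℝ} (hr : 0 < r) :
    𝓞 K × 𝓞 K → ℝ := 1 - ind (Llt v (0, 1) hr ⊓ Llt v (1, 0) hr)

theorem latFun_primF (v : HeightOneSpectrum (𝓞 K)) {r : ℝ} (hr : 0 < r) :
    LatFun (primF v hr) :=
  LatFun.one.sub (LatFun.ind ((isLat_Llt v _ hr).inf (isLat_Llt v _ hr)))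

open scoped Classical in
theorem primF_apply (v : HeightOneSpectrum (𝓞 K)) {r : ℝ} (hr : 0 < r)
    (x : 𝓞 K × 𝓞 K) :
    primF v hr x = if r ≤ max (fv v (x.1 : K)) (fv v (x.2 : K)) then 1 else 0 := by
  unfold primF
  rw [Pi.sub_apply, ind_apply, Pi.one_apply, AddSubgroup.mem_inf, mem_Llt, mem_Llt]
  have h1 : wg (pK x) (0, 1) = (x.1 : K) := by
    unfold wg pK
    simp
  have h2 : fv v (wg (pK x) (1, 0)) = fv v (x.2 : K) := by
    have : wg (pK x) (1, 0) = -(x.2 : K) := by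
      unfold wg pK
      simp
    rw [this, map_neg_eq_map]
  rw [h1, h2]
  by_cases h : r ≤ max (fv v (x.1 : K)) (fv v (x.2 : K))
  · rw [if_pos h, if_neg, sub_zero]
    rintro ⟨h3, h4⟩
    exact absurd h (not_le.mpr (max_lt h3 h4))
  · rw [if_neg h, if_pos, sub_self]
    rw [not_le, max_lt_iff] at h
    exact h

/-- the excess at a prime -/
noncomputable def sv (T : Set (HeightOneSpectrum (𝓞 K))) {q : ℕ} (α : Fin q → K × K)
    (v : HeightOneSpectrum (𝓞 K)) (p : K × K) : ℝ := by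
  classical
  exact ∑ l, (lamA (fv v) p (α l) -
    if v ∈ T then 0 else min (lamA (fv v) p (α l)) (Real.log (Nv v)))

/-- the excess of a type at a prime -/
noncomputable def sτ (T : Set (HeightOneSpectrum (𝓞 K))) {q : ℕ}
    (v : HeightOneSpectrum (𝓞 K)) (k : Fin q → ℕ) : ℝ := by
  classical
  exact ∑ l, ((k l : ℝ) * Real.log (Nv v) -
    if v ∈ T then 0 else min ((k l : ℝ) * Real.log (Nv v)) (Real.log (Nv v)))

theorem sv_eq_sτ (T : Set (HeightOneSpectrum (𝓞 K))) {q : ℕ} (α : Fin q → K × K)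
    (v : HeightOneSpectrum (𝓞 K)) (p : K × K) (k : Fin q → ℕ)
    (h : ∀ l, lamA (fv v) p (α l) = (k l : ℝ) * Real.log (Nv v)) : sv T α v p = sτ T v k := by
  unfold sv sτ
  simp only [h]

theorem sv_term_nonneg (T : Set (HeightOneSpectrum (𝓞 K))) {q : ℕ} (α : Fin q → K × K)
    (hα : ∀ l, α l ≠ 0) (v : HeightOneSpectrum (𝓞 K)) {p : K × K} (hp0 : p ≠ 0)
    (hp : ∀ l, wg p (α l) ≠ 0) (l : Fin q) [Decidable (v ∈ T)] :
    lamA (fv v) p (α l) - Real.log (Nv v) ≤ (lamA (fv v) p (α l) -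
      if v ∈ T then 0 else min (lamA (fv v) p (α l)) (Real.log (Nv v))) ∧
    0 ≤ (lamA (fv v) p (α l) -
      if v ∈ T then 0 else min (lamA (fv v) p (α l)) (Real.log (Nv v))) := by
  have h1 : 0 ≤ lamA (fv v) p (α l) :=
    lamA_nonneg (fv v) (fv_na v) hp0 (hα l) (hp l)
  have h2 := log_Nv_pos v
  split_ifs
  · constructor <;> linarith
  · have h3 := min_le_left (lamA (fv v) p (α l)) (Real.log (Nv v))
    have h4 := min_le_right (lamA (fv v) p (α l)) (Real.log (Nv v))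
    constructor <;> linarith

theorem sv_nonneg (T : Set (HeightOneSpectrum (𝓞 K))) {q : ℕ} {α : Fin q → K × K}
    (hα : ∀ l, α l ≠ 0) (v : HeightOneSpectrum (𝓞 K)) {p : K × K} (hp0 : p ≠ 0)
    (hp : ∀ l, wg p (α l) ≠ 0) : 0 ≤ sv T α v p := by
  classical
  unfold sv
  exact Finset.sum_nonneg fun l _ => (sv_term_nonneg T α hα v hp0 hp l).2

theorem lam_le_sv (T : Set (HeightOneSpectrum (𝓞 K))) {q : ℕ} {α : Fin q → K × K}
    (hα : ∀ l, α l ≠ 0) (v : HeightOneSpectrum (𝓞 K)) {p : K × K} (hp0 : p ≠ 0)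
    (hp : ∀ l, wg p (α l) ≠ 0) (l : Fin q) :
    lamA (fv v) p (α l) - Real.log (Nv v) ≤ sv T α v p := by
  classical
  unfold sv
  refine (sv_term_nonneg T α hα v hp0 hp l).1.trans ?_
  exact Finset.single_le_sum (f := fun l => (lamA (fv v) p (α l) -
    if v ∈ T then 0 else min (lamA (fv v) p (α l)) (Real.log (Nv v))))
    (fun l _ => (sv_term_nonneg T α hα v hp0 hp l).2) (Finset.mem_univ l)

end Pool.Agent.K6.H14.ABC
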