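import Mathlib
import Pool.Agent.K6.H14.ABC.Loc

set_option autoImplicit false
set_option linter.unusedSectionVars false

/-!
# The integral points of the region with local conditions
-/

namespace Pool.Agent.K6.H14.ABC

open MeasureTheory Filter Topology Module NumberField NumberField.InfinitePlace IsDedekindDomain
open NumberField.mixedEmbedding Pool.Agent.H691R3
open scoped Classical

variable {K : Type*} [Field K] [NumberField K]

/-- the excess at the primes of a finite set -/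
noncomputable def SZ (T : Set (HeightOneSpectrum (𝓞 K))) {q : ℕ} (α : Fin q → K × K)
    (Z : Finset (HeightOneSpectrum (𝓞 K))) (p : K × K) : ℝ := ∑ v ∈ Z, sv T α v p

/-- the pairs which are primitive at the primes of `Z` -/
def PS (T : Set (HeightOneSpectrum (𝓞 K))) {q : ℕ} (α : Fin q → K × K)
    (Ψ : mixedSpace K × mixedSpace K → ℝ) (J : Ideal (𝓞 K))
    (Z : Finset (HeightOneSpectrum (𝓞 K))) (t Λ : ℝ) : Set (𝓞 K × 𝓞 K) :=
  {x | (x.1 ∈ J ∧ x.2 ∈ J) ∧ (∀ v ∈ Z, max (fv v (x.1 : K)) (fv v (x.2 : K)) = ro v J) ∧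
    mu (jE K x) ∈ fundamentalCone K ∧ NN α (jE K x) ≠ 0 ∧
    Ψ (jE K x) + SZ T α Z (pK x) ≤ t ∧
    Real.log (NN α (jE K x)) + cα α - q * Real.log (Ideal.absNorm J) - SZ T α Z (pK x) ≤ Λ}

/-- the types -/
abbrev Ty (q : ℕ) (Z : Finset (HeightOneSpectrum (𝓞 K))) (B : ℕ) : Type _ :=
  {v // v ∈ Z} → Fin q → Fin (B + 1)

/-- the excess of a type -/
noncomputable def sTy (T : Set (HeightOneSpectrum (𝓞 K))) {q : ℕ}
    {Z : Finset (HeightOneSpectrum (𝓞 K))} {B : ℕ} (τ : Ty q Z B) : ℝ :=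
  ∑ v : {v // v ∈ Z}, sτ T v.1 (fun l => ((τ v l : Fin (B + 1)) : ℕ))

/-- the absolute value prescribed by a type -/
noncomputable def rr (J : Ideal (𝓞 K)) (a : K × K) (v : HeightOneSpectrum (𝓞 K)) (k : ℕ) : ℝ :=
  ro v J * nrm (fv v) a * (Nv v) ^ (-(k : ℤ))

theorem rr_pos (J : Ideal (𝓞 K)) {a : K × K} (ha : a ≠ 0) (v : HeightOneSpectrum (𝓞 K)) (k : ℕ) :
    0 < rr J a v k := by
  unfold rr
  have h1 := ro_pos v J
  have h2 := nrm_pos (fv v) ha
  have h3 := one_lt_Nv v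
  positivity

theorem rr_inj {J : Ideal (𝓞 K)} {a : K × K} (ha : a ≠ 0) {v : HeightOneSpectrum (𝓞 K)}
    {k k' : ℕ} (h : rr J a v k = rr J a v k') : k = k' := by
  unfold rr at h
  have h1 := (ro_pos v J).ne'
  have h2 := (nrm_pos (fv v) ha).ne'
  have h3 := mul_left_cancel₀ (mul_ne_zero h1 h2) h
  have h4 := zpow_right_injective₀ (by linarith [one_lt_Nv v]) (one_lt_Nv v).ne' h3
  omega

theorem lamA_iff {J : Ideal (𝓞 K)} {a : K × K} (ha : a ≠ 0) {v : HeightOneSpectrum (𝓞 K)}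
    {x : 𝓞 K × 𝓞 K} (hx : x ≠ 0) (hw : wg (pK x) a ≠ 0)
    (hp : max (fv v (x.1 : K)) (fv v (x.2 : K)) = ro v J) (k : ℕ) :
    lamA (fv v) (pK x) a = (k : ℝ) * Real.log (Nv v) ↔ fv v (wg (pK x) a) = rr J a v k := by
  have h1 : 0 < fv v (wg (pK x) a) := (fv v).pos hw
  have h2 := rr_pos J ha v k
  have h3 : lamA (fv v) (pK x) a = Real.log (ro v J) + Real.log (nrm (fv v) a) -
      Real.log (fv v (wg (pK x) a)) := by
    rw [lamA_eq (fv v) (pK_ne_zero hx) ha hw]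
    have : max (fv v (pK x).1) (fv v (pK x).2) = ro v J := hp
    rw [this]
    rfl
  have h4 : Real.log (rr J a v k) = Real.log (ro v J) + Real.log (nrm (fv v) a) -
      (k : ℝ) * Real.log (Nv v) := by
    unfold rr
    have g1 := (ro_pos v J).ne'
    have g2 := (nrm_pos (fv v) ha).ne'
    have g3 : Nv v ≠ 0 := by linarith [one_lt_Nv v]
    rw [Real.log_mul (mul_ne_zero g1 g2) (zpow_ne_zero _ g3), Real.log_mul g1 g2, Real.log_zpow]
    push_cast
    ring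
  constructor
  · intro h
    refine Real.log_injOn_pos h1 h2 ?_
    linarith
  · intro h
    rw [h3, h, h4]
    ring

/-- the condition defining a type -/
def cond {q : ℕ} (α : Fin q → K × K) (J : Ideal (𝓞 K)) {Z : Finset (HeightOneSpectrum (𝓞 K))}
    {B : ℕ} (τ : Ty q Z B) (x : 𝓞 K × 𝓞 K) : Prop :=
  x ∈ LJ J ∧ (∀ v : {v // v ∈ Z}, ro v.1 J ≤ max (fv v.1 (x.1 : K)) (fv v.1 (x.2 : K))) ∧
    ∀ v : {v // v ∈ Z}, ∀ l, fv v.1 (wg (pK x) (α l)) = rr J (α l) v.1 (τ v l)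

/-- the indicator function of a type -/
noncomputable def GF {q : ℕ} {α : Fin q → K × K} (hα : ∀ l, α l ≠ 0) (J : Ideal (𝓞 K))
    {Z : Finset (HeightOneSpectrum (𝓞 K))} {B : ℕ} (τ : Ty q Z B) : 𝓞 K × 𝓞 K → ℝ :=
  ind (LJ J) * ((∏ v : {v // v ∈ Z}, primF v.1 (ro_pos v.1 J)) *
    ∏ v : {v // v ∈ Z}, ∏ l, typeF v.1 (α l) (rr_pos J (hα l) v.1 (τ v l)))

theorem latFun_GF {q : ℕ} {α : Fin q → K × K} (hα : ∀ l, α l ≠ 0) {J : Ideal (𝓞 K)} (hJ : J ≠ ⊥)
    {Z : Finset (HeightOneSpectrum (𝓞 K))} {B : ℕ} (τ : Ty q Z B) : LatFun (GF hα J τ) := by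
  refine (LatFun.ind (isLat_LJ hJ)).mul (LatFun.mul ?_ ?_)
  · exact LatFun.prod _ fun v _ => latFun_primF v.1 _
  · exact LatFun.prod _ fun v _ => LatFun.prod _ fun l _ => latFun_typeF v.1 _ _

theorem GF_apply {q : ℕ} {α : Fin q → K × K} (hα : ∀ l, α l ≠ 0) (J : Ideal (𝓞 K))
    {Z : Finset (HeightOneSpectrum (𝓞 K))} {B : ℕ} (τ : Ty q Z B) (x : 𝓞 K × 𝓞 K) :
    GF hα J τ x = if cond α J τ x then 1 else 0 := by
  unfold GF
  simp only [Pi.mul_apply, Finset.prod_apply, ind_apply, primF_apply, typeF_apply]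
  by_cases h : cond α J τ x
  · rw [if_pos h]
    obtain ⟨h1, h2, h3⟩ := h
    rw [if_pos h1, Finset.prod_eq_one fun v _ => if_pos (h2 v),
      Finset.prod_eq_one fun v _ => Finset.prod_eq_one fun l _ => if_pos (h3 v l)]
    norm_num
  · rw [if_neg h]
    unfold cond at h
    by_cases h1 : x ∈ LJ J
    · by_cases h2 : ∀ v : {v // v ∈ Z}, ro v.1 J ≤ max (fv v.1 (x.1 : K)) (fv v.1 (x.2 : K))
      · have h3 : ¬ ∀ v : {v // v ∈ Z}, ∀ l, fv v.1 (wg (pK x) (α l)) = rr J (α l) v.1 (τ v l) :=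
          fun h3 => h ⟨h1, h2, h3⟩
        push Not at h3
        obtain ⟨v, l, hvl⟩ := h3
        have h4 : (∏ v : {v // v ∈ Z}, ∏ l, (if fv v.1 (wg (pK x) (α l)) =
            rr J (α l) v.1 (τ v l) then (1 : ℝ) else 0)) = 0 := by
          refine Finset.prod_eq_zero (Finset.mem_univ v) ?_
          refine Finset.prod_eq_zero (Finset.mem_univ l) ?_
          rw [if_neg hvl]
        rw [h4]
        ring
      · push Not at h2
        obtain ⟨v, hv⟩ := h2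
        have h4 : (∏ v : {v // v ∈ Z}, (if ro v.1 J ≤ max (fv v.1 (x.1 : K)) (fv v.1 (x.2 : K))
            then (1 : ℝ) else 0)) = 0 := by
          refine Finset.prod_eq_zero (Finset.mem_univ v) ?_
          rw [if_neg (not_le.mpr hv)]
        rw [h4]
        ring
    · rw [if_neg h1, zero_mul]

/-- a lower bound for the proximity function -/
theorem exists_lower {q : ℕ} (α : Fin q → K × K) : ∃ C : ℝ, ∀ e : mixedSpace K × mixedSpace K,
    NN α e ≠ 0 → -C ≤ q * Real.log (HH e) - Real.log (NN α e) := by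
  have h1 : ∀ a : K × K, ∃ c : ℝ, 0 < c ∧ ∀ e : mixedSpace K × mixedSpace K,
      mixedEmbedding.norm (Lf a e) ≤ c * HH e := by
    intro a
    refine ⟨∏ w : InfinitePlace K, (w a.2 + w a.1 + 1) ^ (mult w), ?_, fun e => ?_⟩
    · refine Finset.prod_pos fun w _ => pow_pos ?_ _
      have h2 : 0 ≤ w a.2 := apply_nonneg _ _
      have h3 : 0 ≤ w a.1 := apply_nonneg _ _
      linarith
    · rw [mixedEmbedding.norm_apply, HH_eq, ← Finset.prod_mul_distrib]
      refine Finset.prod_le_prod (fun w _ => pow_nonneg (normAtPlace_nonneg w _) _) fun w _ => ?_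
      rw [← mul_pow]
      refine pow_le_pow_left₀ (normAtPlace_nonneg w _) ?_ _
      unfold Lf
      rw [sub_eq_add_neg]
      refine (normAtPlace_add_le w _ _).trans ?_
      rw [normAtPlace_neg, map_mul, map_mul, normAtPlace_apply, normAtPlace_apply]
      have g1 := le_max_left (normAtPlace w e.1) (normAtPlace w e.2)
      have g2 := le_max_right (normAtPlace w e.1) (normAtPlace w e.2)
      have g3 : 0 ≤ w a.2 := apply_nonneg _ _
      have g4 : 0 ≤ w a.1 := apply_nonneg _ _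
      have g5 := normAtPlace_nonneg w e.1
      have g6 : 0 ≤ max (normAtPlace w e.1) (normAtPlace w e.2) := g5.trans g1
      nlinarith [mul_le_mul_of_nonneg_right g1 g3, mul_le_mul_of_nonneg_right g2 g4]
  choose c hc0 hc using h1
  refine ⟨Real.log (∏ l, c (α l)), fun e he => ?_⟩
  have hN : 0 < NN α e := lt_of_le_of_ne (NN_nonneg α e) (Ne.symm he)
  rcases Nat.eq_zero_or_pos q with hq | hq
  · subst hq
    unfold NN
    simp
  have hH : 0 < HH e := lt_of_le_of_ne (HH_nonneg e) (Ne.symm (HH_ne_zero hq he))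
  have h2 : NN α e ≤ (∏ l, c (α l)) * HH e ^ q := by
    unfold NN
    refine (Finset.prod_le_prod (fun l _ => mixedEmbedding.norm_nonneg _)
      fun l _ => hc (α l) e).trans ?_
    rw [Finset.prod_mul_distrib, Finset.prod_const, Finset.card_univ, Fintype.card_fin]
  have h3 := Real.log_le_log hN h2
  have hcp : 0 < ∏ l, c (α l) := Finset.prod_pos fun l _ => hc0 _
  rw [Real.log_mul hcp.ne' (pow_pos hH q).ne', Real.log_pow] at h3
  linarith

theorem Adm.lower {q : ℕ} {α : Fin q → K × K} {Ψ : mixedSpace K × mixedSpace K → ℝ}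
    (h : Adm α Ψ) : ∃ C : ℝ, 0 ≤ C ∧ ∀ e, NN α e ≠ 0 → -C ≤ Ψ e := by
  obtain ⟨C, hC⟩ := h.close
  obtain ⟨C', hC'⟩ := exists_lower α
  refine ⟨|C + C'|, abs_nonneg _, fun e he => ?_⟩
  have h1 := (abs_le.mp (hC e he)).1
  have h2 := hC' e he
  have h3 := le_abs_self (C + C')
  linarith

theorem x_ne_zero {q : ℕ} (hq : 0 < q) {α : Fin q → K × K} {x : 𝓞 K × 𝓞 K}
    (h : NN α (jE K x) ≠ 0) : x ≠ 0 := by
  rintro rfl
  apply HH_ne_zero hq h
  rw [map_zero, HH_eq]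
  obtain ⟨w⟩ := (inferInstance : Nonempty (InfinitePlace K))
  refine Finset.prod_eq_zero (Finset.mem_univ w) ?_
  simp only [Prod.fst_zero, Prod.snd_zero, map_zero, max_self]
  exact zero_pow (mult_pos (w := w)).ne'

/-- the size of the region of a type -/
noncomputable def YY {q : ℕ} (α : Fin q → K × K) (J : Ideal (𝓞 K)) (s Λ : ℝ) : ℝ :=
  Real.exp (2 / q * (Λ + s + q * Real.log (Ideal.absNorm J) - cα α))

theorem FF_le_YY {q : ℕ} (hq : 0 < q) (α : Fin q → K × K) (J : Ideal (𝓞 K)) (s Λ : ℝ)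
    {e : mixedSpace K × mixedSpace K} (he : NN α e ≠ 0) :
    FF α e ≤ YY α J s Λ ↔
      Real.log (NN α e) + cα α - q * Real.log (Ideal.absNorm J) - s ≤ Λ := by
  have hN : 0 < NN α e := lt_of_le_of_ne (NN_nonneg α e) (Ne.symm he)
  have h1 : YY α J s Λ = Real.exp (Λ + s + q * Real.log (Ideal.absNorm J) - cα α) ^
      (2 / (q : ℝ)) := by
    unfold YY
    rw [← Real.exp_mul]
    congr 1
    ring
  rw [h1, FF_le_iff hq α e (Real.exp_pos _).le, ← Real.log_le_iff_le_exp hN]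
  constructor <;> intro h <;> linarith

/-- the integral points of a type -/
noncomputable def FS (T : Set (HeightOneSpectrum (𝓞 K))) {q : ℕ} (hq : 0 < q) {α : Fin q → K × K}
    {Ψ : mixedSpace K × mixedSpace K → ℝ} (h : Adm α Ψ) (J : Ideal (𝓞 K))
    {Z : Finset (HeightOneSpectrum (𝓞 K))} {B : ℕ} (t Λ : ℝ) (τ : Ty q Z B) :
    Finset (𝓞 K × 𝓞 K) :=
  (SS_finite hq h (t - sTy T τ) (YY α J (sTy T τ) Λ)).toFinset.filter (fun x => cond α J τ x)

theorem SZ_eq_sTy (T : Set (HeightOneSpectrum (𝓞 K))) {q : ℕ} {α : Fin q → K × K}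
    {Z : Finset (HeightOneSpectrum (𝓞 K))} {B : ℕ} (τ : Ty q Z B) {p : K × K}
    (h : ∀ v : {v // v ∈ Z}, ∀ l, lamA (fv v.1) p (α l) = (τ v l : ℕ) * Real.log (Nv v.1)) :
    SZ T α Z p = sTy T τ := by
  unfold SZ sTy
  rw [← Finset.sum_coe_sort]
  exact Finset.sum_congr rfl fun v _ => sv_eq_sτ T α v.1 p _ (h v)

theorem PS_eq (T : Set (HeightOneSpectrum (𝓞 K))) {q : ℕ} (hq : 0 < q) {α : Fin q → K × K}
    (hα : ∀ l, α l ≠ 0) {Ψ : mixedSpace K × mixedSpace K → ℝ} (h : Adm α Ψ) (J : Ideal (𝓞 K))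
    (Z : Finset (HeightOneSpectrum (𝓞 K))) (t : ℝ) :
    ∃ B : ℕ, ∀ Λ : ℝ, PS T α Ψ J Z t Λ =
      (((Finset.univ : Finset (Ty q Z B)).biUnion (FS T hq h J t Λ) :
        Finset (𝓞 K × 𝓞 K)) : Set (𝓞 K × 𝓞 K)) := by
  obtain ⟨C, hC0, hC⟩ := h.lower
  obtain ⟨B, hB⟩ := exists_nat_ge (1 + (t + C) / Real.log 2)
  refine ⟨B, fun Λ => ?_⟩
  ext x
  rw [Finset.mem_coe, Finset.mem_biUnion]
  constructor
  · rintro ⟨h1, h2, h3, h4, h5, h6⟩
    have hx := x_ne_zero hq h4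
    have hpx := pK_ne_zero hx
    have hw : ∀ l, wg (pK x) (α l) ≠ 0 := NN_jK_ne.mp h4
    have hdisc : ∀ v : HeightOneSpectrum (𝓞 K), ∀ l, ∃ k : ℕ,
        lamA (fv v) (pK x) (α l) = (k : ℝ) * Real.log (Nv v) := fun v l =>
      lamF_discrete v hpx (hα l) (hw l)
    choose k hk using hdisc
    have hbound : ∀ v ∈ Z, ∀ l, k v l ≤ B := by
      intro v hv l
      have g1 : sv T α v (pK x) ≤ SZ T α Z (pK x) := by
        unfold SZ
        exact Finset.single_le_sum (f := fun v => sv T α v (pK x))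
          (fun v _ => sv_nonneg T hα v hpx hw) hv
      have g2 := lam_le_sv T hα v hpx hw l
      rw [hk v l] at g2
      have g3 := hC _ h4
      have g4 : ((k v l : ℝ) - 1) * Real.log (Nv v) ≤ t + C := by linarith
      by_contra hcon
      rw [not_le] at hcon
      have g5 : (B : ℝ) < k v l := by exact_mod_cast hcon
      have g6 : (0 : ℝ) < Real.log 2 := Real.log_pos one_lt_two
      have g7 := log_two_le_log_Nv v
      have g8 : (t + C) / Real.log 2 < k v l - 1 := by linarith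
      rw [div_lt_iff₀ g6] at g8
      have g9 : (1 : ℝ) ≤ k v l := by
        have : 1 ≤ k v l := by omega
        exact_mod_cast this
      nlinarith
    let τ : Ty q Z B := fun v l => ⟨k v.1 l, Nat.lt_succ_of_le (hbound v.1 v.2 l)⟩
    have hτ : ∀ v : {v // v ∈ Z}, ∀ l,
        lamA (fv v.1) (pK x) (α l) = (τ v l : ℕ) * Real.log (Nv v.1) := fun v l => hk v.1 l
    have hs := SZ_eq_sTy T τ hτ
    refine ⟨τ, Finset.mem_univ _, ?_⟩
    unfold FS
    rw [Finset.mem_filter, Set.Finite.mem_toFinset]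
    refine ⟨⟨⟨h3, h4, ?_⟩, ?_⟩, h1, fun v => (h2 v.1 v.2).ge, fun v l => ?_⟩
    · rw [← hs]
      linarith
    · rw [FF_le_YY hq α J _ _ h4, ← hs]
      exact h6
    · exact (lamA_iff (hα l) hx (hw l) (h2 v.1 v.2) _).mp (hτ v l)
  · rintro ⟨τ, _, hx⟩
    unfold FS at hx
    rw [Finset.mem_filter, Set.Finite.mem_toFinset] at hx
    obtain ⟨⟨⟨h3, h4, h5⟩, h6⟩, h1, h2, h7⟩ := hx
    have hx := x_ne_zero hq h4
    have hw : ∀ l, wg (pK x) (α l) ≠ 0 := NN_jK_ne.mp h4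
    have hmax : ∀ v : {v // v ∈ Z}, max (fv v.1 (x.1 : K)) (fv v.1 (x.2 : K)) = ro v.1 J := by
      intro v
      exact le_antisymm (max_le (fv_le_ro v.1 h1.1) (fv_le_ro v.1 h1.2)) (h2 v)
    have hτ : ∀ v : {v // v ∈ Z}, ∀ l,
        lamA (fv v.1) (pK x) (α l) = (τ v l : ℕ) * Real.log (Nv v.1) := fun v l =>
      (lamA_iff (hα l) hx (hw l) (hmax v) _).mpr (h7 v l)
    have hs := SZ_eq_sTy T τ hτ
    refine ⟨h1, fun v hv => hmax ⟨v, hv⟩, h3, h4, ?_, ?_⟩
    · rw [hs]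
      linarith
    · rw [hs]
      exact (FF_le_YY hq α J _ _ h4).mp h6

theorem FS_disjoint (T : Set (HeightOneSpectrum (𝓞 K))) {q : ℕ} (hq : 0 < q) {α : Fin q → K × K}
    (hα : ∀ l, α l ≠ 0) {Ψ : mixedSpace K × mixedSpace K → ℝ} (h : Adm α Ψ) (J : Ideal (𝓞 K))
    {Z : Finset (HeightOneSpectrum (𝓞 K))} {B : ℕ} (t Λ : ℝ) {τ τ' : Ty q Z B} (hne : τ ≠ τ') :
    Disjoint (FS T hq h J t Λ τ) (FS T hq h J t Λ τ') := by
  rw [Finset.disjoint_left]
  intro x hx hx'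
  unfold FS at hx hx'
  rw [Finset.mem_filter] at hx hx'
  apply hne
  funext v l
  have h1 := hx.2.2.2 v l
  have h2 := hx'.2.2.2 v l
  exact Fin.ext (rr_inj (hα l) (h1.symm.trans h2))

theorem sum_GF (T : Set (HeightOneSpectrum (𝓞 K))) {q : ℕ} (hq : 0 < q) {α : Fin q → K × K}
    (hα : ∀ l, α l ≠ 0) {Ψ : mixedSpace K × mixedSpace K → ℝ} (h : Adm α Ψ) (J : Ideal (𝓞 K))
    {Z : Finset (HeightOneSpectrum (𝓞 K))} {B : ℕ} (t Λ : ℝ) (τ : Ty q Z B) :
    ((FS T hq h J t Λ τ).card : ℝ) =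
      ∑ x ∈ (SS_finite hq h (t - sTy T τ) (YY α J (sTy T τ) Λ)).toFinset, GF hα J τ x := by
  simp_rw [GF_apply]
  unfold FS
  rw [Finset.card_filter]
  push_cast
  rfl

theorem PS_finite (T : Set (HeightOneSpectrum (𝓞 K))) {q : ℕ} (hq : 0 < q) {α : Fin q → K × K}
    (hα : ∀ l, α l ≠ 0) {Ψ : mixedSpace K × mixedSpace K → ℝ} (h : Adm α Ψ) (J : Ideal (𝓞 K))
    (Z : Finset (HeightOneSpectrum (𝓞 K))) (t Λ : ℝ) : (PS T α Ψ J Z t Λ).Finite := by
  obtain ⟨B, hB⟩ := PS_eq T hq hα h J Z t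
  rw [hB]
  exact Finset.finite_toSet _

/-- the asymptotic number of pairs -/
theorem PS_limit (T : Set (HeightOneSpectrum (𝓞 K))) {q : ℕ} (hq : 0 < q) {α : Fin q → K × K}
    (hα : ∀ l, α l ≠ 0) {Ψ : mixedSpace K × mixedSpace K → ℝ} (h : Adm α Ψ) {J : Ideal (𝓞 K)}
    (hJ : J ≠ ⊥) (Z : Finset (HeightOneSpectrum (𝓞 K))) (t : ℝ)
    (ht : ∀ (B : ℕ) (τ : Ty q Z B),
      (Measure.addHaar : Measure (mixedSpace K × mixedSpace K)) {e | Ψ e = t - sTy T τ} = 0) :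
    ∃ κ : ℝ, Tendsto (fun Λ : ℝ => ((PS T α Ψ J Z t Λ).ncard : ℝ) / Real.exp (2 / q * Λ))
      atTop (𝓝 κ) := by
  obtain ⟨B, hB⟩ := PS_eq T hq hα h J Z t
  have h1 : ∀ τ : Ty q Z B, ∃ κ : ℝ, Tendsto (fun Λ : ℝ =>
      ((FS T hq h J t Λ τ).card : ℝ) / Real.exp (2 / q * Λ)) atTop (𝓝 κ) := by
    intro τ
    obtain ⟨κ, hκ⟩ := count_fun hq hα h (ht B τ) (latFun_GF hα hJ τ)
    set c := Real.exp (2 / q * (sTy T τ + q * Real.log (Ideal.absNorm J) - cα α)) with hc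
    have hc0 : 0 < c := Real.exp_pos _
    have hY : ∀ Λ, YY α J (sTy T τ) Λ = c * Real.exp (2 / q * Λ) := by
      intro Λ
      unfold YY
      rw [hc, ← Real.exp_add]
      congr 1
      ring
    have hlim : Tendsto (fun Λ : ℝ => YY α J (sTy T τ) Λ) atTop atTop := by
      simp_rw [hY]
      refine Tendsto.const_mul_atTop hc0 (Real.tendsto_exp_atTop.comp ?_)
      refine Tendsto.const_mul_atTop ?_ tendsto_id
      positivity
    refine ⟨c * κ, ((hκ.comp hlim).const_mul c).congr fun Λ => ?_⟩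
    simp only [Function.comp_apply]
    rw [sum_GF T hq hα h J t Λ τ, hY]
    have := Real.exp_pos (2 / q * Λ)
    field_simp
  choose κ hκ using h1
  refine ⟨∑ τ, κ τ, (tendsto_finset_sum _ fun τ _ => hκ τ).congr fun Λ => ?_⟩
  rw [← Finset.sum_div]
  congr 1
  rw [hB Λ, Set.ncard_coe_finset, Finset.card_biUnion]
  · push_cast
    rfl
  · intro τ _ τ' _ hne
    exact FS_disjoint T hq hα h J t Λ hne

end Pool.Agent.K6.H14.ABC
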