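import Mathlib
import Pool.Agent.K6.H14.ABC.PSet

set_option autoImplicit false
set_option linter.unusedSectionVars false

/-!
# The pairs over a point
-/

namespace Pool.Agent.K6.H14.ABC

open MeasureTheory Filter Topology Module NumberField NumberField.InfinitePlace IsDedekindDomain
open NumberField.mixedEmbedding NumberField.Units Pool.Agent.H691R3
open scoped Classical nonZeroDivisors

variable {K : Type*} [Field K] [NumberField K]

/-- representatives of the points of the line -/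
noncomputable def rep : Option K → K × K
  | none => (1, 0)
  | some y => (y, 1)

/-- the point given by a pair -/
noncomputable def pt (x : 𝓞 K × 𝓞 K) : Option K :=
  if x.2 = 0 then none else some ((x.1 : K) / (x.2 : K))

theorem coe_ne {x : 𝓞 K} (hx : x ≠ 0) : (x : K) ≠ 0 := RingOfIntegers.coe_ne_zero_iff.mpr hx

theorem rep_ne_zero (o : Option K) : rep o ≠ 0 := by
  cases o with
  | none =>
    intro h
    exact one_ne_zero (congrArg Prod.fst h)
  | some y =>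
    intro h
    exact one_ne_zero (congrArg Prod.snd h)

theorem pK_eq_rep {x : 𝓞 K × 𝓞 K} (hx : x ≠ 0) : ∃ c : K, c ≠ 0 ∧
    pK x = (c * (rep (pt x)).1, c * (rep (pt x)).2) := by
  by_cases h : x.2 = 0
  · have h1 : x.1 ≠ 0 := fun h1 => hx (Prod.ext h1 h)
    refine ⟨(x.1 : K), coe_ne h1, ?_⟩
    unfold pt
    rw [if_pos h]
    unfold pK rep
    rw [h]
    simp
  · refine ⟨(x.2 : K), coe_ne h, ?_⟩
    unfold pt
    rw [if_neg h]
    unfold pK rep
    simp only [mul_one, Prod.mk.injEq, and_true]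
    rw [mul_div_cancel₀ _ (coe_ne h)]

theorem cross {x y : 𝓞 K × 𝓞 K} (hx : x ≠ 0) (hy : y ≠ 0) (h : pt x = pt y) :
    ∃ s t : 𝓞 K, s ≠ 0 ∧ t ≠ 0 ∧ s * x.1 = t * y.1 ∧ s * x.2 = t * y.2 := by
  unfold pt at h
  by_cases h1 : x.2 = 0
  · rw [if_pos h1] at h
    have h2 : y.2 = 0 := by
      by_contra h2
      rw [if_neg h2] at h
      exact absurd h (by simp)
    refine ⟨y.1, x.1, fun h3 => hy (Prod.ext h3 h2), fun h3 => hx (Prod.ext h3 h1), mul_comm _ _, ?_⟩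
    rw [h1, h2, mul_zero, mul_zero]
  · rw [if_neg h1] at h
    have h2 : y.2 ≠ 0 := by
      intro h2
      rw [if_pos h2] at h
      exact absurd h (by simp)
    rw [if_neg h2, Option.some.injEq, div_eq_div_iff (coe_ne h1) (coe_ne h2)] at h
    refine ⟨y.2, x.2, h2, h1, ?_, mul_comm _ _⟩
    apply RingOfIntegers.ext
    push_cast
    linear_combination h

theorem pt_eq_of_mul {x y : 𝓞 K × 𝓞 K} {s t : 𝓞 K} (hs : s ≠ 0) (ht : t ≠ 0)
    (h1 : s * x.1 = t * y.1) (h2 : s * x.2 = t * y.2) : pt x = pt y := by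
  unfold pt
  have h3 : x.2 = 0 ↔ y.2 = 0 := by
    constructor
    · intro h
      rw [h, mul_zero] at h2
      exact (mul_eq_zero.mp h2.symm).resolve_left ht
    · intro h
      rw [h, mul_zero] at h2
      exact (mul_eq_zero.mp h2).resolve_left hs
  by_cases h : x.2 = 0
  · rw [if_pos h, if_pos (h3.mp h)]
  · have h' : y.2 ≠ 0 := fun h' => h (h3.mpr h')
    rw [if_neg h, if_neg h', Option.some.injEq, div_eq_div_iff (coe_ne h) (coe_ne h')]
    have h4 : (s : K) * (x.1 : K) = (t : K) * (y.1 : K) := by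
      have := congrArg (fun z : 𝓞 K => (z : K)) h1
      simpa using this
    have h5 : (s : K) * (x.2 : K) = (t : K) * (y.2 : K) := by
      have := congrArg (fun z : 𝓞 K => (z : K)) h2
      simpa using this
    have h6 : (s : K) ≠ 0 := coe_ne hs
    have h7 : (t : K) ≠ 0 := coe_ne ht
    have h8 : ((s : K) * (t : K)) * ((x.1 : K) * (y.2 : K)) =
        ((s : K) * (t : K)) * ((y.1 : K) * (x.2 : K)) := by
      linear_combination (t : K) * (y.2 : K) * h4 - (t : K) * (y.1 : K) * h5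
    exact mul_left_cancel₀ (mul_ne_zero h6 h7) h8

/-- multiplication of a pair by an integer -/
def mulV (s : 𝓞 K) (x : 𝓞 K × 𝓞 K) : 𝓞 K × 𝓞 K := (s * x.1, s * x.2)

theorem mulV_ne_zero {s : 𝓞 K} (hs : s ≠ 0) {x : 𝓞 K × 𝓞 K} (hx : x ≠ 0) : mulV s x ≠ 0 := by
  intro h
  apply hx
  have h1 : s * x.1 = 0 := congrArg Prod.fst h
  have h2 : s * x.2 = 0 := congrArg Prod.snd h
  exact Prod.ext ((mul_eq_zero.mp h1).resolve_left hs) ((mul_eq_zero.mp h2).resolve_left hs)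

theorem ctt_mulV (s : 𝓞 K) (x : 𝓞 K × 𝓞 K) : ctt (mulV s x) = Ideal.span {s} * ctt x := by
  apply le_antisymm
  · unfold ctt
    rw [Ideal.span_le]
    rintro z (rfl | rfl)
    · exact Ideal.mul_mem_mul (Ideal.mem_span_singleton_self s)
        (Ideal.subset_span (Set.mem_insert _ _))
    · exact Ideal.mul_mem_mul (Ideal.mem_span_singleton_self s)
        (Ideal.subset_span (Set.mem_insert_of_mem _ rfl))
  · intro z hz
    obtain ⟨y, hy, rfl⟩ := Ideal.mem_span_singleton_mul.mp hz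
    obtain ⟨u, v, rfl⟩ := Ideal.mem_span_pair.mp hy
    refine Ideal.mem_span_pair.mpr ⟨u, v, ?_⟩
    show u * (s * x.1) + v * (s * x.2) = s * (u * x.1 + v * x.2)
    ring

theorem mulV_of_cross {x y : 𝓞 K × 𝓞 K} {s t : 𝓞 K}
    (h1 : s * x.1 = t * y.1) (h2 : s * x.2 = t * y.2) : mulV s x = mulV t y :=
  Prod.ext h1 h2

variable (K) in
/-- representatives of the ideal classes -/
noncomputable def JJ (c : ClassGroup (𝓞 K)) : (Ideal (𝓞 K))⁰ :=
  (ClassGroup.mk0_surjective c).choose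

theorem mk0_JJ (c : ClassGroup (𝓞 K)) : ClassGroup.mk0 (JJ K c) = c :=
  (ClassGroup.mk0_surjective c).choose_spec

theorem JJ_ne_bot (c : ClassGroup (𝓞 K)) : (JJ K c : Ideal (𝓞 K)) ≠ ⊥ :=
  nonZeroDivisors.ne_zero (JJ K c).2

theorem mem_nzd {I : Ideal (𝓞 K)} (hI : I ≠ ⊥) : I ∈ (Ideal (𝓞 K))⁰ :=
  mem_nonZeroDivisors_of_ne_zero hI

/-- some pair over a point -/
theorem exists_pair (o : Option K) : ∃ x : 𝓞 K × 𝓞 K, x ≠ 0 ∧ pt x = o := by
  cases o with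
  | none =>
    refine ⟨(1, 0), fun h => one_ne_zero (congrArg Prod.fst h), ?_⟩
    unfold pt
    rw [if_pos rfl]
  | some y =>
    obtain ⟨a, b, hb, rfl⟩ := IsFractionRing.div_surjective (𝓞 K) y
    have hb0 : b ≠ 0 := nonZeroDivisors.ne_zero hb
    refine ⟨(a, b), fun h => hb0 (congrArg Prod.snd h), ?_⟩
    unfold pt
    rw [if_neg hb0]

theorem mu_mulV_unit (u : (𝓞 K)ˣ) (x : 𝓞 K × 𝓞 K) (w : InfinitePlace K) :
    normAtPlace w (mu (jE K (mulV (u : 𝓞 K) x))) = normAtPlace w (u • mu (jE K x)) := by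
  rw [normAtPlace_mu, unitSMul_smul, map_mul, normAtPlace_mu, normAtPlace_apply]
  rw [mul_max_of_nonneg _ _ (apply_nonneg _ _)]
  unfold mulV
  rw [jE_apply, jE_apply]
  simp only [normAtPlace_apply, map_mul]

theorem HH_jE_ne {x : 𝓞 K × 𝓞 K} (hx : x ≠ 0) : HH (jE K x) ≠ 0 := by
  rw [HH_eq]
  refine Finset.prod_ne_zero_iff.mpr fun w _ => pow_ne_zero _ ?_
  rw [jE_apply]
  simp only [normAtPlace_apply]
  exact (max_pos w.1 (pK_ne_zero hx)).ne'

/-- a pair over a point with a given content -/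
theorem exists_fib (o : Option K) {𝔡 : Ideal (𝓞 K)} (h𝔡 : 𝔡 ≠ ⊥) :
    ∃ (c : ClassGroup (𝓞 K)) (x : 𝓞 K × 𝓞 K), x ≠ 0 ∧ pt x = o ∧
      ctt x = (JJ K c : Ideal (𝓞 K)) * 𝔡 ∧ mu (jE K x) ∈ fundamentalCone K := by
  obtain ⟨x₀, hx₀, hpt⟩ := exists_pair o
  have hI := ctt_ne_bot hx₀
  set c : ClassGroup (𝓞 K) :=
    ClassGroup.mk0 ⟨ctt x₀, mem_nzd hI⟩ * (ClassGroup.mk0 ⟨𝔡, mem_nzd h𝔡⟩)⁻¹ with hc
  have h1 : ClassGroup.mk0 (JJ K c * ⟨𝔡, mem_nzd h𝔡⟩) = ClassGroup.mk0 ⟨ctt x₀, mem_nzd hI⟩ := by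
    rw [map_mul, mk0_JJ, hc, inv_mul_cancel_right]
  rw [ClassGroup.mk0_eq_mk0_iff] at h1
  obtain ⟨s, t, hs, ht, h2⟩ := h1
  have h2' : Ideal.span {s} * ((JJ K c : Ideal (𝓞 K)) * 𝔡) = Ideal.span {t} * ctt x₀ := h2
  have key : ∀ a ∈ ctt x₀, ∃ a' ∈ (JJ K c : Ideal (𝓞 K)) * 𝔡, s * a' = t * a := by
    intro a ha
    have h3 : t * a ∈ Ideal.span {t} * ctt x₀ :=
      Ideal.mul_mem_mul (Ideal.mem_span_singleton_self t) ha
    rw [← h2'] at h3
    exact Ideal.mem_span_singleton_mul.mp h3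
  obtain ⟨a', _, ha'⟩ := key x₀.1 (Ideal.subset_span (Set.mem_insert _ _))
  obtain ⟨b', _, hb'⟩ := key x₀.2 (Ideal.subset_span (Set.mem_insert_of_mem _ rfl))
  have h4 : mulV s (a', b') = mulV t x₀ := mulV_of_cross ha' hb'
  have hx₁ : ((a', b') : 𝓞 K × 𝓞 K) ≠ 0 := by
    intro h
    have h5 := mulV_ne_zero ht hx₀
    rw [← h4, h] at h5
    apply h5
    unfold mulV
    simp
  have h5 : ctt ((a', b') : 𝓞 K × 𝓞 K) = (JJ K c : Ideal (𝓞 K)) * 𝔡 := by
    have h6 : Ideal.span {s} * ctt ((a', b') : 𝓞 K × 𝓞 K) =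
        Ideal.span {s} * ((JJ K c : Ideal (𝓞 K)) * 𝔡) := by
      rw [← ctt_mulV, h4, ctt_mulV, h2']
    exact (Ideal.span_singleton_mul_right_inj hs).mp h6
  obtain ⟨u, hu⟩ := fundamentalCone.exists_unit_smul_mem (x := mu (jE K (a', b'))) (HH_jE_ne hx₁)
  refine ⟨c, mulV (u : 𝓞 K) (a', b'), mulV_ne_zero u.ne_zero hx₁, ?_, ?_, ?_⟩
  · rw [← hpt]
    refine pt_eq_of_mul (s := s) (t := u * t) hs (mul_ne_zero u.ne_zero ht) ?_ ?_
    · show s * (u * a') = u * t * x₀.1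
      linear_combination (u : 𝓞 K) * ha'
    · show s * (u * b') = u * t * x₀.2
      linear_combination (u : 𝓞 K) * hb'
  · rw [ctt_mulV, h5, Ideal.span_singleton_eq_top.mpr u.isUnit, Ideal.top_mul]
  · exact fundamentalCone.mem_of_normAtPlace_eq hu fun w => mu_mulV_unit u _ w

/-- the pairs over a point with a given content -/
def FB (o : Option K) (𝔡 : Ideal (𝓞 K)) : Set (ClassGroup (𝓞 K) × (𝓞 K × 𝓞 K)) :=
  {z | z.2 ≠ 0 ∧ pt z.2 = o ∧ ctt z.2 = (JJ K z.1 : Ideal (𝓞 K)) * 𝔡 ∧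
    mu (jE K z.2) ∈ fundamentalCone K}

theorem mulV_inj {x : 𝓞 K × 𝓞 K} (hx : x ≠ 0) {s t : 𝓞 K} (h : mulV s x = mulV t x) : s = t := by
  have h1 : s * x.1 = t * x.1 := congrArg Prod.fst h
  have h2 : s * x.2 = t * x.2 := congrArg Prod.snd h
  by_cases h3 : x.1 = 0
  · have h4 : x.2 ≠ 0 := fun h4 => hx (Prod.ext h3 h4)
    exact mul_right_cancel₀ h4 h2
  · exact mul_right_cancel₀ h3 h1

theorem mulV_left_inj {x y : 𝓞 K × 𝓞 K} {s : 𝓞 K} (hs : s ≠ 0) (h : mulV s x = mulV s y) :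
    x = y :=
  Prod.ext (mul_left_cancel₀ hs (congrArg Prod.fst h)) (mul_left_cancel₀ hs (congrArg Prod.snd h))

theorem mulV_mulV (s t : 𝓞 K) (x : 𝓞 K × 𝓞 K) : mulV s (mulV t x) = mulV (s * t) x := by
  unfold mulV
  simp only [mul_assoc]

theorem card_FB (o : Option K) {𝔡 : Ideal (𝓞 K)} (h𝔡 : 𝔡 ≠ ⊥) :
    (FB o 𝔡).ncard = torsionOrder K := by
  obtain ⟨c, x, hx, hpt, hct, hmu⟩ := exists_fib o h𝔡
  have h1 : FB o 𝔡 = Set.range (fun u : torsion K => (c, mulV ((u : (𝓞 K)ˣ) : 𝓞 K) x)) := by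
    ext ⟨c', y⟩
    constructor
    · rintro ⟨hy, hpt', hct', hmu'⟩
      simp only at hy hpt' hct' hmu'
      obtain ⟨s, t, hs, ht, h2, h3⟩ := cross hy hx (hpt'.trans hpt.symm)
      have h4 : mulV s y = mulV t x := mulV_of_cross h2 h3
      have h5 : Ideal.span {s} * ((JJ K c' : Ideal (𝓞 K)) * 𝔡) =
          Ideal.span {t} * ((JJ K c : Ideal (𝓞 K)) * 𝔡) := by
        rw [← hct', ← hct, ← ctt_mulV, ← ctt_mulV, h4]
      have h6 : ClassGroup.mk0 (JJ K c' * ⟨𝔡, mem_nzd h𝔡⟩) =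
          ClassGroup.mk0 (JJ K c * ⟨𝔡, mem_nzd h𝔡⟩) := by
        rw [ClassGroup.mk0_eq_mk0_iff]
        exact ⟨s, t, hs, ht, h5⟩
      rw [map_mul, map_mul, mk0_JJ, mk0_JJ] at h6
      have h7 : c' = c := mul_right_cancel h6
      subst h7
      have h8 : (JJ K c' : Ideal (𝓞 K)) * 𝔡 ≠ ⊥ := mul_ne_zero (JJ_ne_bot c') h𝔡
      have h9 : Ideal.span {s} = Ideal.span {t} := mul_right_cancel₀ h8 h5
      rw [Ideal.span_singleton_eq_span_singleton] at h9
      obtain ⟨u, hu⟩ := h9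
      have h10 : y = mulV (u : 𝓞 K) x := by
        refine mulV_left_inj hs ?_
        rw [h4, mulV_mulV, hu]
      have h11 : u • mu (jE K x) ∈ fundamentalCone K := by
        rw [h10] at hmu'
        exact fundamentalCone.mem_of_normAtPlace_eq hmu' fun w => (mu_mulV_unit u x w).symm
      have h12 := (fundamentalCone.unit_smul_mem_iff_mem_torsion hmu u).mp h11
      exact ⟨⟨u, h12⟩, by rw [h10]⟩
    · rintro ⟨u, hu⟩
      simp only [Prod.mk.injEq] at hu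
      obtain ⟨rfl, rfl⟩ := hu
      refine ⟨mulV_ne_zero (u : (𝓞 K)ˣ).ne_zero hx, ?_, ?_, ?_⟩
      · rw [← hpt]
        refine pt_eq_of_mul (s := 1) (t := ((u : (𝓞 K)ˣ) : 𝓞 K)) one_ne_zero
          (u : (𝓞 K)ˣ).ne_zero ?_ ?_
        · rw [one_mul]
          rfl
        · rw [one_mul]
          rfl
      · show ctt (mulV _ x) = _
        rw [ctt_mulV, Ideal.span_singleton_eq_top.mpr (u : (𝓞 K)ˣ).isUnit, Ideal.top_mul, hct]
      · refine fundamentalCone.mem_of_normAtPlace_eq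
          ((fundamentalCone.unit_smul_mem_iff_mem_torsion hmu u).mpr u.2) fun w => ?_
        exact mu_mulV_unit (u : (𝓞 K)ˣ) x w
  rw [h1, ← Set.image_univ, Set.ncard_image_of_injective, Set.ncard_univ]
  · rfl
  · intro u u' h
    have h2 : mulV ((u : (𝓞 K)ˣ) : 𝓞 K) x = mulV ((u' : (𝓞 K)ˣ) : 𝓞 K) x :=
      congrArg Prod.snd h
    exact Subtype.ext (Units.ext (mulV_inj hx h2))

end Pool.Agent.K6.H14.ABC
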