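import Mathlib
import Pool.Agent.K6.H14.ABC.Fib

set_option autoImplicit false
set_option linter.unusedSectionVars false

/-!
# From pairs to points
-/

namespace Pool.Agent.K6.H14.ABC

open MeasureTheory Filter Topology Module NumberField NumberField.InfinitePlace IsDedekindDomain
open NumberField.mixedEmbedding NumberField.Units Pool.Agent.H691R3
open scoped Classical nonZeroDivisors

variable {K : Type*} [Field K] [NumberField K]

theorem wg_scale (c : K) (p a : K × K) : wg (c * p.1, c * p.2) a = c * wg p a := by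
  unfold wg
  ring

theorem lamA_scale (v : HeightOneSpectrum (𝓞 K)) {c : K} (hc : c ≠ 0) (p a : K × K) :
    lamA (fv v) (c * p.1, c * p.2) a = lamA (fv v) p a := by
  unfold lamA
  have h0 : fv v c ≠ 0 := ((fv v).pos hc).ne'
  have h1 : max (fv v (c * p.1)) (fv v (c * p.2)) = fv v c * max (fv v p.1) (fv v p.2) :=
    max_mul_max (fv v) (p := p) c
  have h2 : c * p.1 * a.2 - c * p.2 * a.1 = c * (p.1 * a.2 - p.2 * a.1) := by ring
  simp only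
  rw [h1, h2, map_mul, mul_assoc, mul_div_mul_left _ _ h0]

theorem SZ_scale (T : Set (HeightOneSpectrum (𝓞 K))) {q : ℕ} (α : Fin q → K × K)
    (Z : Finset (HeightOneSpectrum (𝓞 K))) {c : K} (hc : c ≠ 0) (p : K × K) :
    SZ T α Z (c * p.1, c * p.2) = SZ T α Z p := by
  unfold SZ sv
  simp only [lamA_scale _ hc]

theorem Nall_scale {q : ℕ} (α : Fin q → K × K) {c : K} (hc : c ≠ 0) (p : K × K) :
    Nall α (c * p.1, c * p.2) = Nall α p := by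
  unfold Nall
  simp only [lamA_scale _ hc]

theorem Psi_scale {q : ℕ} {α : Fin q → K × K} {Ψ : mixedSpace K × mixedSpace K → ℝ}
    (h : Adm α Ψ) {c : K} (hc : c ≠ 0) {p : K × K} (hp : ∀ l, wg p (α l) ≠ 0) :
    Ψ (jK (c * p.1, c * p.2)) = Ψ (jK p) := by
  have h1 := h.homog (jK p) (mixedEmbedding K c) (NN_jK_ne.mpr hp) (norm_mixed_ne hc)
  rw [← h1]
  congr 1
  unfold jK
  simp only [map_mul]

/-- the pairs of a point and a content -/
def QS (T : Set (HeightOneSpectrum (𝓞 K))) {q : ℕ} (α : Fin q → K × K)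
    (Ψ : mixedSpace K × mixedSpace K → ℝ)
    (Z : Finset (HeightOneSpectrum (𝓞 K))) (t Λ : ℝ) : Set (Option K × Ideal (𝓞 K)) :=
  {z | z.2 ≠ ⊥ ∧ (∀ v ∈ Z, ¬ v.asIdeal ∣ z.2) ∧ (∀ l, wg (rep z.1) (α l) ≠ 0) ∧
    Ψ (jK (rep z.1)) + SZ T α Z (rep z.1) ≤ t ∧
    Nall α (rep z.1) + q * Real.log (Ideal.absNorm z.2) - SZ T α Z (rep z.1) ≤ Λ}

theorem ctt_le {x : 𝓞 K × 𝓞 K} {J : Ideal (𝓞 K)} : ctt x ≤ J ↔ x.1 ∈ J ∧ x.2 ∈ J := by
  unfold ctt
  rw [Ideal.span_le]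
  constructor
  · intro h
    exact ⟨h (Set.mem_insert _ _), h (Set.mem_insert_of_mem _ rfl)⟩
  · rintro ⟨h1, h2⟩ y (rfl | rfl)
    · exact h1
    · exact h2

theorem mem_PS_iff (T : Set (HeightOneSpectrum (𝓞 K))) {q : ℕ} (hq : 0 < q) {α : Fin q → K × K}
    (hα : ∀ l, α l ≠ 0) {Ψ : mixedSpace K × mixedSpace K → ℝ} (h : Adm α Ψ)
    (Z : Finset (HeightOneSpectrum (𝓞 K))) (t Λ : ℝ) (c : ClassGroup (𝓞 K)) (x : 𝓞 K × 𝓞 K) :
    x ∈ PS T α Ψ (JJ K c : Ideal (𝓞 K)) Z t Λ ↔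
      ∃ z ∈ QS T α Ψ Z t Λ, (c, x) ∈ FB z.1 z.2 := by
  -- the common part
  have key : ∀ 𝔡 : Ideal (𝓞 K), 𝔡 ≠ ⊥ → x ≠ 0 → ctt x = (JJ K c : Ideal (𝓞 K)) * 𝔡 →
      ((∀ v ∈ Z, max (fv v (x.1 : K)) (fv v (x.2 : K)) = ro v (JJ K c : Ideal (𝓞 K))) ↔
        ∀ v ∈ Z, ¬ v.asIdeal ∣ 𝔡) ∧
      (NN α (jE K x) ≠ 0 ↔ ∀ l, wg (rep (pt x)) (α l) ≠ 0) ∧
      (NN α (jE K x) ≠ 0 → Ψ (jE K x) = Ψ (jK (rep (pt x)))) ∧
      SZ T α Z (pK x) = SZ T α Z (rep (pt x)) ∧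
      (NN α (jE K x) ≠ 0 → Real.log (NN α (jE K x)) + cα α -
        q * Real.log (Ideal.absNorm (JJ K c : Ideal (𝓞 K))) =
        Nall α (rep (pt x)) + q * Real.log (Ideal.absNorm 𝔡)) := by
    intro 𝔡 h𝔡 hx hct
    obtain ⟨b, hb, hbx⟩ := pK_eq_rep hx
    have hJ := JJ_ne_bot c
    refine ⟨?_, ?_, ?_, ?_, ?_⟩
    · refine forall₂_congr fun v _ => ?_
      have h1 : max (fv v (x.1 : K)) (fv v (x.2 : K)) = ro v (ctt x) :=
        max_fv_span v (ctt_ne_bot hx)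
      rw [h1, hct, ro_mul v hJ h𝔡]
      constructor
      · intro h2 h3
        have h4 := ro_lt_one v h𝔡 h3
        have h5 := ro_pos v (JJ K c : Ideal (𝓞 K))
        nlinarith
      · intro h2
        rw [ro_eq_one v h2, mul_one]
    · rw [jE_eq_jK, NN_jK_ne]
      refine forall_congr' fun l => ?_
      rw [hbx, wg_scale]
      constructor
      · exact fun h1 h2 => h1 (by rw [h2, mul_zero])
      · exact fun h1 => mul_ne_zero hb h1
    · intro hN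
      have hN2 := hN
      rw [jE_eq_jK, NN_jK_ne] at hN2
      have hN' : ∀ l, wg (rep (pt x)) (α l) ≠ 0 := fun l hl =>
        hN2 l (by rw [hbx, wg_scale, hl, mul_zero])
      rw [jE_eq_jK, hbx, Psi_scale h hb hN']
    · rw [hbx, SZ_scale T α Z hb]
    · intro hN
      have h1 := Nall_eq hα hx (NN_jK_ne.mp hN)
      rw [hct, map_mul] at h1
      push_cast at h1
      have h2 : (Ideal.absNorm (JJ K c : Ideal (𝓞 K)) : ℝ) ≠ 0 := by
        rw [Ne, Nat.cast_eq_zero, Ideal.absNorm_eq_zero_iff]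
        exact hJ
      have h3 : (Ideal.absNorm 𝔡 : ℝ) ≠ 0 := by
        rw [Ne, Nat.cast_eq_zero, Ideal.absNorm_eq_zero_iff]
        exact h𝔡
      rw [Real.log_mul h2 h3, hbx, Nall_scale α hb] at h1
      linarith
  constructor
  · rintro ⟨h1, h2, h3, h4, h5, h6⟩
    have hx := x_ne_zero hq h4
    obtain ⟨𝔡, h𝔡⟩ := Ideal.dvd_iff_le.mpr (ctt_le.mpr h1)
    have h𝔡0 : 𝔡 ≠ ⊥ := by
      rintro rfl
      apply ctt_ne_bot hx
      rw [h𝔡, Ideal.mul_bot]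
    obtain ⟨k1, k2, k3, k4, k5⟩ := key 𝔡 h𝔡0 hx h𝔡
    refine ⟨(pt x, 𝔡), ⟨h𝔡0, k1.mp h2, k2.mp h4, ?_, ?_⟩, hx, rfl, h𝔡, h3⟩
    · rw [← k3 h4, ← k4]
      exact h5
    · rw [← k4]
      have := k5 h4
      simp only
      linarith
  · rintro ⟨⟨o, 𝔡⟩, ⟨h1, h2, h3, h4, h5⟩, hx, rfl, h𝔡, h6⟩
    simp only at h1 h2 h3 h4 h5 hx h𝔡 h6
    obtain ⟨k1, k2, k3, k4, k5⟩ := key 𝔡 h1 hx h𝔡
    refine ⟨ctt_le.mp ?_, k1.mpr h2, h6, k2.mpr h3, ?_, ?_⟩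
    · rw [h𝔡]
      exact Ideal.mul_le_left
    · rw [k3 (k2.mpr h3), k4]
      exact h4
    · rw [k4]
      have := k5 (k2.mpr h3)
      linarith

theorem FB_disjoint {z z' : Option K × Ideal (𝓞 K)} {y : ClassGroup (𝓞 K) × (𝓞 K × 𝓞 K)}
    (h : y ∈ FB z.1 z.2) (h' : y ∈ FB z'.1 z'.2) : z = z' := by
  obtain ⟨_, h1, h2, _⟩ := h
  obtain ⟨_, h1', h2', _⟩ := h'
  refine Prod.ext (h1.symm.trans h1') ?_
  exact mul_left_cancel₀ (JJ_ne_bot y.1) (h2.symm.trans h2')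

/-- all of the pairs -/
noncomputable def PP (T : Set (HeightOneSpectrum (𝓞 K))) {q : ℕ} (hq : 0 < q) {α : Fin q → K × K}
    (hα : ∀ l, α l ≠ 0) {Ψ : mixedSpace K × mixedSpace K → ℝ} (h : Adm α Ψ)
    (Z : Finset (HeightOneSpectrum (𝓞 K))) (t Λ : ℝ) :
    Finset (ClassGroup (𝓞 K) × (𝓞 K × 𝓞 K)) :=
  (Finset.univ : Finset (ClassGroup (𝓞 K))).biUnion fun c =>
    (PS_finite T hq hα h (JJ K c : Ideal (𝓞 K)) Z t Λ).toFinset.image (fun x => (c, x))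

theorem mem_PP (T : Set (HeightOneSpectrum (𝓞 K))) {q : ℕ} (hq : 0 < q) {α : Fin q → K × K}
    (hα : ∀ l, α l ≠ 0) {Ψ : mixedSpace K × mixedSpace K → ℝ} (h : Adm α Ψ)
    (Z : Finset (HeightOneSpectrum (𝓞 K))) (t Λ : ℝ) (y : ClassGroup (𝓞 K) × (𝓞 K × 𝓞 K)) :
    y ∈ PP T hq hα h Z t Λ ↔ y.2 ∈ PS T α Ψ (JJ K y.1 : Ideal (𝓞 K)) Z t Λ := by
  unfold PP
  simp only [Finset.mem_biUnion, Finset.mem_univ, true_and, Finset.mem_image,
    Set.Finite.mem_toFinset]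
  constructor
  · rintro ⟨c, x, hx, rfl⟩
    exact hx
  · intro hy
    exact ⟨y.1, y.2, hy, rfl⟩

theorem card_PP (T : Set (HeightOneSpectrum (𝓞 K))) {q : ℕ} (hq : 0 < q) {α : Fin q → K × K}
    (hα : ∀ l, α l ≠ 0) {Ψ : mixedSpace K × mixedSpace K → ℝ} (h : Adm α Ψ)
    (Z : Finset (HeightOneSpectrum (𝓞 K))) (t Λ : ℝ) :
    (PP T hq hα h Z t Λ).card =
      ∑ c : ClassGroup (𝓞 K), (PS T α Ψ (JJ K c : Ideal (𝓞 K)) Z t Λ).ncard := by
  unfold PP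
  rw [Finset.card_biUnion]
  · refine Finset.sum_congr rfl fun c _ => ?_
    rw [Finset.card_image_of_injective, Set.ncard_eq_toFinset_card _
      (PS_finite T hq hα h (JJ K c : Ideal (𝓞 K)) Z t Λ)]
    intro x y hxy
    exact congrArg Prod.snd hxy
  · intro c _ c' _ hne
    rw [Function.onFun, Finset.disjoint_left]
    intro y hy hy'
    rw [Finset.mem_image] at hy hy'
    obtain ⟨x, _, rfl⟩ := hy
    obtain ⟨x', _, h2⟩ := hy'
    exact hne (congrArg Prod.fst h2).symm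

theorem QS_finite (T : Set (HeightOneSpectrum (𝓞 K))) {q : ℕ} (hq : 0 < q) {α : Fin q → K × K}
    (hα : ∀ l, α l ≠ 0) {Ψ : mixedSpace K × mixedSpace K → ℝ} (h : Adm α Ψ)
    (Z : Finset (HeightOneSpectrum (𝓞 K))) (t Λ : ℝ) : (QS T α Ψ Z t Λ).Finite := by
  have h1 : ∀ z : Option K × Ideal (𝓞 K), ∃ y : ClassGroup (𝓞 K) × (𝓞 K × 𝓞 K),
      z.2 ≠ ⊥ → y ∈ FB z.1 z.2 := by
    intro z
    by_cases hz : z.2 = ⊥
    · exact ⟨(1, 0), fun h' => absurd hz h'⟩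
    · obtain ⟨c, x, hx⟩ := exists_fib z.1 hz
      exact ⟨(c, x), fun _ => hx⟩
  choose g hg using h1
  refine Set.Finite.of_injOn (f := g) (t := (PP T hq hα h Z t Λ : Set _)) ?_ ?_
    (Finset.finite_toSet _)
  · intro z hz
    rw [Finset.mem_coe, mem_PP, mem_PS_iff T hq hα h]
    exact ⟨z, hz, hg z hz.1⟩
  · intro z hz z' hz' heq
    have h2 := hg z hz.1
    have h3 := hg z' hz'.1
    rw [← heq] at h3
    exact FB_disjoint h2 h3

theorem FB_finite (o : Option K) {𝔡 : Ideal (𝓞 K)} (h𝔡 : 𝔡 ≠ ⊥) : (FB o 𝔡).Finite :=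
  Set.finite_of_ncard_ne_zero (by rw [card_FB o h𝔡]; exact torsionOrder_ne_zero K)

/-- every pair of a point and a content corresponds to `torsionOrder K` pairs of integers -/
theorem card_QS (T : Set (HeightOneSpectrum (𝓞 K))) {q : ℕ} (hq : 0 < q) {α : Fin q → K × K}
    (hα : ∀ l, α l ≠ 0) {Ψ : mixedSpace K × mixedSpace K → ℝ} (h : Adm α Ψ)
    (Z : Finset (HeightOneSpectrum (𝓞 K))) (t Λ : ℝ) :
    ∑ c : ClassGroup (𝓞 K), (PS T α Ψ (JJ K c : Ideal (𝓞 K)) Z t Λ).ncard =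
      torsionOrder K * (QS T α Ψ Z t Λ).ncard := by
  rw [← card_PP T hq hα h]
  set Q := (QS_finite T hq hα h Z t Λ).toFinset with hQ
  have hmQ : ∀ z, z ∈ Q ↔ z ∈ QS T α Ψ Z t Λ := fun z => by
    rw [hQ, Set.Finite.mem_toFinset]
  have hbot : ∀ z : {z // z ∈ Q}, z.1.2 ≠ ⊥ := fun z => ((hmQ z.1).mp z.2).1
  have h1 : PP T hq hα h Z t Λ =
      Q.attach.biUnion fun z => (FB_finite z.1.1 (hbot z)).toFinset := by
    ext y
    rw [mem_PP, mem_PS_iff T hq hα h]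
    simp only [Finset.mem_biUnion, Finset.mem_attach, true_and, Set.Finite.mem_toFinset,
      Subtype.exists]
    constructor
    · rintro ⟨z, hz, hy⟩
      exact ⟨z, (hmQ z).mpr hz, hy⟩
    · rintro ⟨z, hz, hy⟩
      exact ⟨z, (hmQ z).mp hz, hy⟩
  rw [h1, Finset.card_biUnion]
  · have h2 : ∀ z ∈ Q.attach, (FB_finite z.1.1 (hbot z)).toFinset.card = torsionOrder K := by
      intro z _
      rw [← Set.ncard_eq_toFinset_card _ (FB_finite z.1.1 (hbot z)), card_FB _ (hbot z)]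
    rw [Finset.sum_congr rfl h2, Finset.sum_const, Finset.card_attach, smul_eq_mul, mul_comm,
      Set.ncard_eq_toFinset_card _ (QS_finite T hq hα h Z t Λ)]
  · intro z _ z' _ hne
    rw [Function.onFun, Finset.disjoint_left]
    intro y hy hy'
    rw [Set.Finite.mem_toFinset] at hy hy'
    exact hne (Subtype.ext (FB_disjoint hy hy'))

/-- the asymptotic number of pairs of a point and a content -/
theorem QS_limit (T : Set (HeightOneSpectrum (𝓞 K))) {q : ℕ} (hq : 0 < q) {α : Fin q → K × K}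
    (hα : ∀ l, α l ≠ 0) {Ψ : mixedSpace K × mixedSpace K → ℝ} (h : Adm α Ψ)
    (Z : Finset (HeightOneSpectrum (𝓞 K))) (t : ℝ)
    (ht : ∀ (B : ℕ) (τ : Ty q Z B),
      (Measure.addHaar : Measure (mixedSpace K × mixedSpace K)) {e | Ψ e = t - sTy T τ} = 0) :
    ∃ κ : ℝ, Tendsto (fun Λ : ℝ => ((QS T α Ψ Z t Λ).ncard : ℝ) / Real.exp (2 / q * Λ))
      atTop (𝓝 κ) := by
  have h1 : ∀ c : ClassGroup (𝓞 K), ∃ κ : ℝ, Tendsto (fun Λ : ℝ =>
      ((PS T α Ψ (JJ K c : Ideal (𝓞 K)) Z t Λ).ncard : ℝ) / Real.exp (2 / q * Λ)) atTop (𝓝 κ) :=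
    fun c => PS_limit T hq hα h (JJ_ne_bot c) Z t ht
  choose κ hκ using h1
  have hω : (torsionOrder K : ℝ) ≠ 0 := by exact_mod_cast torsionOrder_ne_zero K
  refine ⟨(torsionOrder K : ℝ)⁻¹ * ∑ c, κ c,
    ((tendsto_finsetSum _ fun c _ => hκ c).const_mul _).congr fun Λ => ?_⟩
  rw [← Finset.sum_div]
  have h2 := card_QS T hq hα h Z t Λ
  have h3 : (∑ c : ClassGroup (𝓞 K), ((PS T α Ψ (JJ K c : Ideal (𝓞 K)) Z t Λ).ncard : ℝ)) =
      torsionOrder K * ((QS T α Ψ Z t Λ).ncard : ℝ) := by exact_mod_cast h2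
  rw [h3]
  field_simp

end Pool.Agent.K6.H14.ABC
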