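import Mathlib

set_option autoImplicit false
set_option linter.unusedSectionVars false

/-!
# The sum of the inverse squares of the norms of ideals, and a criterion for limits
-/

namespace Pool.Agent.K6.H14.ABC

open Filter Topology Ideal NumberField

section

variable (K : Type*) [Field K] [NumberField K]

/-- the number of ideals of a given norm -/
noncomputable def aid (n : ℕ) : ℕ := Nat.card {I : Ideal (𝓞 K) // absNorm I = n}

theorem aid_tendsto : Tendsto (fun n : ℕ => (∑ k ∈ Finset.Icc 1 n, (aid K k : ℝ)) / n) atTop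
    (𝓝 (dedekindZeta_residue K)) := by
  refine ((Ideal.tendsto_norm_le_div_atTop₀ K).comp tendsto_natCast_atTop_atTop).congr fun n ↦ ?_
  simp only [Function.comp_apply, Nat.cast_le, ← Nat.cast_sum, aid]
  congr
  rw [← add_left_inj 1, ← card_norm_le_eq_card_norm_le_add_one,
    show Finset.Icc 1 n = Finset.Ioc 0 n from Finset.Icc_succ_left_eq_Ioc _ _,
    show 1 = Nat.card {I : Ideal (𝓞 K) // absNorm I = 0} by simp [Ideal.absNorm_eq_zero_iff],
    Finset.sum_Ioc_add_eq_sum_Icc (n.zero_le),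
    ← Finset.card_preimage_eq_sum_card_image_eq (fun k _ ↦ finite_setOfPred_absNorm_eq k)]
  simp [Set.coe_eq_subtype]

theorem aid_summable : Summable fun n : ℕ => (aid K n : ℝ) * ((n : ℝ) ^ 2)⁻¹ := by
  have hO : (fun n => ∑ k ∈ Finset.Icc 1 n, (aid K k : ℝ)) =O[atTop]
      fun n : ℕ => (n : ℝ) ^ (1 : ℝ) := by
    simp_rw [Real.rpow_one]
    refine Asymptotics.isBigO_of_div_tendsto_nhds ?_ (dedekindZeta_residue K) (aid_tendsto K)
    filter_upwards [eventually_gt_atTop 0] with n hn h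
    exfalso
    have : (n : ℝ) ≠ 0 := by exact_mod_cast hn.ne'
    exact this h
  have h1 := LSeriesSummable_of_sum_norm_bigO_and_nonneg (s := 2) hO
    (fun n => Nat.cast_nonneg _) zero_le_one (by norm_num)
  have h2 := h1.norm
  refine h2.congr fun n => ?_
  rcases Nat.eq_zero_or_pos n with rfl | hn
  · simp
  · rw [LSeries.norm_term_eq, if_neg hn.ne']
    simp only [Complex.re_ofNat, Real.rpow_two]
    rw [Complex.norm_real, Real.norm_of_nonneg (Nat.cast_nonneg _), div_eq_mul_inv]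

theorem ideal_tail {ε : ℝ} (hε : 0 < ε) : ∃ z₀ : ℝ, ∀ F : Finset (Ideal (𝓞 K)),
    (∀ I ∈ F, z₀ < (absNorm I : ℝ)) → ∑ I ∈ F, ((absNorm I : ℝ) ^ 2)⁻¹ < ε := by
  classical
  obtain ⟨s, hs⟩ := summable_iff_vanishing_norm.mp (aid_summable K) ε hε
  obtain ⟨n₀, hn₀⟩ := s.bddAbove
  refine ⟨n₀, fun F hF => ?_⟩
  have h1 : ∑ I ∈ F, ((absNorm I : ℝ) ^ 2)⁻¹ =
      ∑ n ∈ F.image absNorm, ∑ I ∈ F with absNorm I = n, ((absNorm I : ℝ) ^ 2)⁻¹ :=
    (Finset.sum_fiberwise_of_maps_to (fun I hI => Finset.mem_image_of_mem _ hI) _).symm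
  have h2 : ∀ n ∈ F.image absNorm, ∑ I ∈ F with absNorm I = n, ((absNorm I : ℝ) ^ 2)⁻¹ ≤
      (aid K n : ℝ) * ((n : ℝ) ^ 2)⁻¹ := by
    intro n _
    have h3 : ∀ I ∈ F.filter (fun I => absNorm I = n), ((absNorm I : ℝ) ^ 2)⁻¹ =
        ((n : ℝ) ^ 2)⁻¹ := by
      intro I hI
      rw [(Finset.mem_filter.mp hI).2]
    rw [Finset.sum_congr rfl h3, Finset.sum_const, nsmul_eq_mul]
    refine mul_le_mul_of_nonneg_right ?_ (by positivity)
    have hfin : {I : Ideal (𝓞 K) | absNorm I = n}.Finite := finite_setOfPred_absNorm_eq n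
    have h4 : ((F.filter (fun I => absNorm I = n) : Finset (Ideal (𝓞 K))) :
        Set (Ideal (𝓞 K))).ncard ≤ {I : Ideal (𝓞 K) | absNorm I = n}.ncard := by
      refine Set.ncard_le_ncard ?_ hfin
      intro I hI
      exact (Finset.mem_filter.mp (Finset.mem_coe.mp hI)).2
    rw [Set.ncard_coe_finset] at h4
    exact_mod_cast h4
  have h3 := hs (F.image absNorm) (by
    rw [Finset.disjoint_left]
    intro n hn hn'
    obtain ⟨I, hI, rfl⟩ := Finset.mem_image.mp hn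
    have h4 := hF I hI
    have h5 : (absNorm I : ℝ) ≤ n₀ := by exact_mod_cast hn₀ hn'
    linarith)
  rw [Real.norm_of_nonneg (Finset.sum_nonneg fun n _ => by positivity)] at h3
  rw [h1]
  exact (Finset.sum_le_sum h2).trans_lt h3

end

/-- a criterion for the existence of a limit -/
theorem conv_of_sandwich {u : ℝ → ℝ}
    (h : ∀ ε : ℝ, 0 < ε → ∃ (w : ℝ → ℝ) (κ : ℝ), Tendsto w atTop (𝓝 κ) ∧
      ∀ᶠ x in atTop, |u x - w x| ≤ ε) : ∃ κ : ℝ, Tendsto u atTop (𝓝 κ) := by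
  have hc : Cauchy (map u atTop) := by
    rw [Metric.cauchy_iff]
    refine ⟨inferInstance, fun ε hε => ?_⟩
    obtain ⟨w, κ, hw, hu⟩ := h (ε / 8) (by positivity)
    have h1 : ∀ᶠ x in atTop, |w x - κ| < ε / 8 := by
      have := Metric.tendsto_nhds.mp hw (ε / 8) (by positivity)
      simpa [Real.dist_eq] using this
    refine ⟨u '' {x | |w x - κ| < ε / 8 ∧ |u x - w x| ≤ ε / 8}, image_mem_map (h1.and hu), ?_⟩
    rintro _ ⟨x, ⟨h2, h3⟩, rfl⟩ _ ⟨y, ⟨h4, h5⟩, rfl⟩
    rw [Real.dist_eq]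
    rw [abs_lt] at h2 h4 ⊢
    rw [abs_le] at h3 h5
    constructor <;> linarith
  obtain ⟨κ, hκ⟩ := cauchy_iff_exists_le_nhds.mp hc
  exact ⟨κ, hκ⟩

end Pool.Agent.K6.H14.ABC
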