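import Mathlib
import Pool.Agent.K6.H14.ABC.PSet

set_option autoImplicit false
set_option linter.unusedSectionVars false

/-!
# The level sets of the proximity functions are null sets
-/

namespace Pool.Agent.K6.H14.ABC

open MeasureTheory Filter Topology Module NumberField NumberField.InfinitePlace
open NumberField.mixedEmbedding Pool.Agent.H691R3
open scoped Classical

variable {K : Type*} [Field K] [NumberField K]

/-- the largest value of a family of forms at a place -/
noncomputable def mM {r : ℕ} (M : Fin (r + 1) → K × K) (w : InfinitePlace K)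
    (e : mixedSpace K × mixedSpace K) : ℝ :=
  Finset.univ.sup' Finset.univ_nonempty (fun j => normAtPlace w (Lf (M j) e))

/-- the product of the largest values -/
noncomputable def HM {r : ℕ} (M : Fin (r + 1) → K × K) (e : mixedSpace K × mixedSpace K) : ℝ :=
  ∏ w : InfinitePlace K, mM M w e ^ mult w

/-- the proximity function at the infinite places -/
noncomputable def ΨM {q r : ℕ} (α : Fin q → K × K) (M : Fin (r + 1) → K × K)
    (e : mixedSpace K × mixedSpace K) : ℝ := q * Real.log (HM M e) - Real.log (NN α e)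

theorem mM_le_iff {r : ℕ} (M : Fin (r + 1) → K × K) (w : InfinitePlace K)
    (e : mixedSpace K × mixedSpace K) (c : ℝ) :
    mM M w e ≤ c ↔ ∀ j, normAtPlace w (Lf (M j) e) ≤ c := by
  unfold mM
  rw [Finset.sup'_le_iff]
  simp

theorem le_mM {r : ℕ} (M : Fin (r + 1) → K × K) (w : InfinitePlace K)
    (e : mixedSpace K × mixedSpace K) (j : Fin (r + 1)) :
    normAtPlace w (Lf (M j) e) ≤ mM M w e :=
  (mM_le_iff M w e _).mp le_rfl j

theorem mM_nonneg {r : ℕ} (M : Fin (r + 1) → K × K) (w : InfinitePlace K)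
    (e : mixedSpace K × mixedSpace K) : 0 ≤ mM M w e :=
  (normAtPlace_nonneg w _).trans (le_mM M w e 0)

theorem exists_mM {r : ℕ} (M : Fin (r + 1) → K × K) (w : InfinitePlace K)
    (e : mixedSpace K × mixedSpace K) : ∃ j, mM M w e = normAtPlace w (Lf (M j) e) := by
  obtain ⟨j, _, hj⟩ := Finset.exists_mem_eq_sup' Finset.univ_nonempty
    (fun j : Fin (r + 1) => normAtPlace w (Lf (M j) e))
  exact ⟨j, hj⟩

theorem Lf_01 (e : mixedSpace K × mixedSpace K) : Lf (0, 1) e = e.1 := by
  unfold Lf
  simp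

theorem Lf_10 (e : mixedSpace K × mixedSpace K) : Lf (1, 0) e = -e.2 := by
  unfold Lf
  simp

theorem max_le_mM {r : ℕ} {M : Fin (r + 1) → K × K} (hM : (∃ j, M j = (0, 1)) ∧ ∃ j, M j = (1, 0))
    (w : InfinitePlace K) (e : mixedSpace K × mixedSpace K) :
    max (normAtPlace w e.1) (normAtPlace w e.2) ≤ mM M w e := by
  obtain ⟨⟨j, hj⟩, ⟨j', hj'⟩⟩ := hM
  refine max_le ?_ ?_
  · have := le_mM M w e j
    rwa [hj, Lf_01] at this
  · have := le_mM M w e j'
    rwa [hj', Lf_10, normAtPlace_neg] at this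

theorem mM_le_max {r : ℕ} (M : Fin (r + 1) → K × K) : ∃ C : ℝ, 0 < C ∧
    ∀ (w : InfinitePlace K) (e : mixedSpace K × mixedSpace K),
      mM M w e ≤ C * max (normAtPlace w e.1) (normAtPlace w e.2) := by
  refine ⟨∑ j, ∑ w : InfinitePlace K, (w (M j).2 + w (M j).1) + 1, ?_, fun w e => ?_⟩
  · have : 0 ≤ ∑ j, ∑ w : InfinitePlace K, (w (M j).2 + w (M j).1) :=
      Finset.sum_nonneg fun j _ => Finset.sum_nonneg fun w _ =>
        add_nonneg (apply_nonneg _ _) (apply_nonneg _ _)
    linarith
  · rw [mM_le_iff]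
    intro j
    have h1 : w (M j).2 + w (M j).1 ≤ ∑ j, ∑ w : InfinitePlace K, (w (M j).2 + w (M j).1) := by
      refine le_trans ?_ (Finset.single_le_sum
        (f := fun j => ∑ w : InfinitePlace K, (w (M j).2 + w (M j).1))
        (fun j _ => Finset.sum_nonneg fun w _ =>
          add_nonneg (apply_nonneg _ _) (apply_nonneg _ _)) (Finset.mem_univ j))
      exact Finset.single_le_sum (f := fun w : InfinitePlace K => (w (M j).2 + w (M j).1))
        (fun w _ => add_nonneg (apply_nonneg _ _) (apply_nonneg _ _)) (Finset.mem_univ w)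
    have g1 := le_max_left (normAtPlace w e.1) (normAtPlace w e.2)
    have g2 := le_max_right (normAtPlace w e.1) (normAtPlace w e.2)
    have g3 : 0 ≤ w (M j).2 := apply_nonneg _ _
    have g4 : 0 ≤ w (M j).1 := apply_nonneg _ _
    have g5 := normAtPlace_nonneg w e.1
    have g6 : 0 ≤ max (normAtPlace w e.1) (normAtPlace w e.2) := g5.trans g1
    unfold Lf
    rw [sub_eq_add_neg]
    refine (normAtPlace_add_le w _ _).trans ?_
    rw [normAtPlace_neg, map_mul, map_mul, normAtPlace_apply, normAtPlace_apply]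
    have g7 : normAtPlace w e.1 * w (M j).2 + normAtPlace w e.2 * w (M j).1 ≤
        (w (M j).2 + w (M j).1) * max (normAtPlace w e.1) (normAtPlace w e.2) := by
      nlinarith [mul_le_mul_of_nonneg_right g1 g3, mul_le_mul_of_nonneg_right g2 g4]
    refine g7.trans (mul_le_mul_of_nonneg_right (by linarith) g6)

theorem continuous_mM {r : ℕ} (M : Fin (r + 1) → K × K) (w : InfinitePlace K) :
    Continuous (mM M w) := by
  unfold mM
  exact Continuous.finset_sup'_apply _ fun j _ => (continuous_normAtPlace w).comp (continuous_Lf _)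

theorem continuous_HM {r : ℕ} (M : Fin (r + 1) → K × K) :
    Continuous (HM M : mixedSpace K × mixedSpace K → ℝ) := by
  unfold HM
  exact continuous_finsetProd _ fun w _ => (continuous_mM M w).pow _

theorem mM_mul {r : ℕ} (M : Fin (r + 1) → K × K) (w : InfinitePlace K) (s : mixedSpace K)
    (e : mixedSpace K × mixedSpace K) :
    mM M w (s * e.1, s * e.2) = normAtPlace w s * mM M w e := by
  apply le_antisymm
  · rw [mM_le_iff]
    intro j
    rw [Lf_mul, map_mul]
    exact mul_le_mul_of_nonneg_left (le_mM M w e j) (normAtPlace_nonneg w s)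
  · obtain ⟨j, hj⟩ := exists_mM M w e
    rw [hj, ← map_mul, ← Lf_mul]
    exact le_mM M w _ j

theorem HM_mul {r : ℕ} (M : Fin (r + 1) → K × K) (s : mixedSpace K)
    (e : mixedSpace K × mixedSpace K) :
    HM M (s * e.1, s * e.2) = mixedEmbedding.norm s * HM M e := by
  unfold HM
  rw [mixedEmbedding.norm_apply, ← Finset.prod_mul_distrib]
  refine Finset.prod_congr rfl fun w _ => ?_
  rw [← mul_pow, mM_mul]

theorem HH_le_HM {r : ℕ} {M : Fin (r + 1) → K × K} (hM : (∃ j, M j = (0, 1)) ∧ ∃ j, M j = (1, 0))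
    (e : mixedSpace K × mixedSpace K) : HH e ≤ HM M e := by
  rw [HH_eq]
  unfold HM
  refine Finset.prod_le_prod (fun w _ => ?_) fun w _ => ?_
  · exact pow_nonneg (le_max_of_le_left (normAtPlace_nonneg w _)) _
  · exact pow_le_pow_left₀ (le_max_of_le_left (normAtPlace_nonneg w _)) (max_le_mM hM w e) _

theorem HM_le_HH {r : ℕ} (M : Fin (r + 1) → K × K) : ∃ C : ℝ, 0 < C ∧
    ∀ e : mixedSpace K × mixedSpace K, HM M e ≤ C * HH e := by
  obtain ⟨C, hC, h⟩ := mM_le_max M
  refine ⟨∏ w : InfinitePlace K, C ^ mult w, Finset.prod_pos fun w _ => pow_pos hC _, fun e => ?_⟩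
  rw [HH_eq, ← Finset.prod_mul_distrib]
  unfold HM
  refine Finset.prod_le_prod (fun w _ => pow_nonneg (mM_nonneg M w e) _) fun w _ => ?_
  rw [← mul_pow]
  exact pow_le_pow_left₀ (mM_nonneg M w e) (h w e) _

theorem adm_ΨM {q r : ℕ} (hq : 0 < q) (α : Fin q → K × K) {M : Fin (r + 1) → K × K}
    (hM : (∃ j, M j = (0, 1)) ∧ ∃ j, M j = (1, 0)) : Adm α (ΨM α M) := by
  have hpos : ∀ e, NN α e ≠ 0 → 0 < HH e ∧ 0 < HM M e := fun e he => by
    have h1 : 0 < HH e := lt_of_le_of_ne (HH_nonneg e) (Ne.symm (HH_ne_zero hq he))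
    exact ⟨h1, h1.trans_le (HH_le_HM hM e)⟩
  refine ⟨?_, ?_, ?_, ?_⟩
  · unfold ΨM
    exact ((continuous_HM M).measurable.log.const_mul _).sub (continuous_NN α).measurable.log
  · intro e he
    unfold ΨM
    exact (continuousAt_const.mul ((continuous_HM M).continuousAt.log (hpos e he).2.ne')).sub
      ((continuous_NN α).continuousAt.log he)
  · intro e s he hs
    unfold ΨM
    rw [HM_mul, NN_mul, Real.log_mul hs (hpos e he).2.ne', Real.log_mul (pow_ne_zero _ hs) he,
      Real.log_pow]
    ring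
  · obtain ⟨C, hC, h⟩ := HM_le_HH M
    refine ⟨q * |Real.log C|, fun e he => ?_⟩
    obtain ⟨h1, h2⟩ := hpos e he
    have h3 : Real.log (HH e) ≤ Real.log (HM M e) := Real.log_le_log h1 (HH_le_HM hM e)
    have h4 : Real.log (HM M e) ≤ Real.log C + Real.log (HH e) := by
      rw [← Real.log_mul hC.ne' h1.ne']
      exact Real.log_le_log h2 (h e)
    have h5 : ΨM α M e - (q * Real.log (HH e) - Real.log (NN α e)) =
        q * (Real.log (HM M e) - Real.log (HH e)) := by
      unfold ΨM
      ring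
    rw [h5, abs_mul, abs_of_nonneg (Nat.cast_nonneg q)]
    refine mul_le_mul_of_nonneg_left ?_ (Nat.cast_nonneg q)
    rw [abs_of_nonneg (by linarith)]
    have := le_abs_self (Real.log C)
    linarith

end Pool.Agent.K6.H14.ABC
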