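import Mathlib
import Pool.Agent.K6.H14.ABC.Lev

set_option autoImplicit false
set_option linter.unusedSectionVars false

/-!
# The level sets of the proximity functions are null sets
-/

namespace Pool.Agent.K6.H14.ABC

open MeasureTheory Filter Topology Module NumberField NumberField.InfinitePlace
open NumberField.mixedEmbedding Pool.Agent.H691R3
open scoped Classical

variable {K : Type*} [Field K] [NumberField K]

/-- the scaling factor at a place -/
noncomputable def kap (w : InfinitePlace K) (s : ℝ) : mixedSpace K :=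
  mixedSpaceOfRealSpace (sw w s)

theorem kap_mul (w : InfinitePlace K) (s : ℝ) : kap w s * kap w (-s) = 1 := sw_mul w s

theorem continuous_kap (w : InfinitePlace K) : Continuous (kap w) := by
  refine mixedSpaceOfRealSpace.continuous.comp (continuous_pi fun w' => ?_)
  unfold sw
  split_ifs
  · exact Real.continuous_exp
  · exact continuous_const

theorem norm_kap_sub {w w' : InfinitePlace K} (h : w' ≠ w) (s : ℝ) :
    normAtPlace w' (kap w s - 1) = 0 := by
  rcases w'.isReal_or_isComplex with hw | hw
  · rw [normAtPlace_apply_of_isReal hw]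
    show ‖sw w s w' - 1‖ = 0
    unfold sw
    rw [if_neg h, sub_self, norm_zero]
  · rw [normAtPlace_apply_of_isComplex hw]
    show ‖((sw w s w' : ℝ) : ℂ) - 1‖ = 0
    unfold sw
    rw [if_neg h, Complex.ofReal_one, sub_self, norm_zero]

theorem norm_add_of_zero (w : InfinitePlace K) (x : mixedSpace K) {z : mixedSpace K}
    (hz : normAtPlace w z = 0) : normAtPlace w (x + z) = normAtPlace w x := by
  apply le_antisymm
  · have := normAtPlace_add_le w x z
    rwa [hz, add_zero] at this
  · have := normAtPlace_add_le w (x + z) (-z)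
    rwa [normAtPlace_neg, hz, add_zero, add_neg_cancel_right] at this

/-- the absolute value along a line is the square root of a polynomial -/
theorem quad (w : InfinitePlace K) (X Y : mixedSpace K) : ∃ P : Polynomial ℝ, ∀ s : ℝ,
    normAtPlace w (X + (kap w s - 1) * Y) ^ 2 = P.eval (Real.exp s) := by
  rcases w.isReal_or_isComplex with hw | hw
  · refine ⟨(Polynomial.C (X.1 ⟨w, hw⟩) +
      (Polynomial.X - 1) * Polynomial.C (Y.1 ⟨w, hw⟩)) ^ 2, fun s => ?_⟩
    rw [normAtPlace_apply_of_isReal hw]
    have h1 : (X + (kap w s - 1) * Y).1 ⟨w, hw⟩ =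
        X.1 ⟨w, hw⟩ + (Real.exp s - 1) * Y.1 ⟨w, hw⟩ := by
      show X.1 ⟨w, hw⟩ + (sw w s w - 1) * Y.1 ⟨w, hw⟩ = _
      unfold sw
      rw [if_pos rfl]
    rw [h1, Real.norm_eq_abs, sq_abs]
    simp
  · set a := X.2 ⟨w, hw⟩ with ha
    set b := Y.2 ⟨w, hw⟩ with hb
    refine ⟨(Polynomial.C a.re + (Polynomial.X - 1) * Polynomial.C b.re) ^ 2 +
      (Polynomial.C a.im + (Polynomial.X - 1) * Polynomial.C b.im) ^ 2, fun s => ?_⟩
    rw [normAtPlace_apply_of_isComplex hw]
    have h1 : (X + (kap w s - 1) * Y).2 ⟨w, hw⟩ = a + ((Real.exp s : ℝ) - 1 : ℂ) * b := by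
      show X.2 ⟨w, hw⟩ + (((sw w s w : ℝ) : ℂ) - 1) * Y.2 ⟨w, hw⟩ = _
      unfold sw
      rw [if_pos rfl]
    rw [h1, Complex.sq_norm, Complex.normSq_apply]
    have h2 : (a + ((Real.exp s : ℝ) - 1 : ℂ) * b).re = a.re + (Real.exp s - 1) * b.re := by
      simp [Complex.add_re, Complex.mul_re, Complex.sub_re, Complex.sub_im, Complex.exp_ofReal_re,
        Complex.exp_ofReal_im]
    have h3 : (a + ((Real.exp s : ℝ) - 1 : ℂ) * b).im = a.im + (Real.exp s - 1) * b.im := by
      simp [Complex.add_im, Complex.mul_im, Complex.sub_re, Complex.sub_im, Complex.exp_ofReal_re,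
        Complex.exp_ofReal_im]
    rw [h2, h3]
    simp
    ring

theorem Lf_line (a m : K × K) (y : mixedSpace K) (e : mixedSpace K × mixedSpace K) :
    Lf a (e.1 + y * mixedEmbedding K m.1, e.2 + y * mixedEmbedding K m.2) =
      Lf a e + y * mixedEmbedding K (wg m a) := by
  unfold Lf wg
  simp only [map_sub, map_mul]
  ring

/-- the transvection which fixes one form and scales another one -/
noncomputable def trv (w : InfinitePlace K) {m β : K × K} (hδ : wg m β ≠ 0) (s : ℝ) :
    (mixedSpace K × mixedSpace K) ≃ₗ[ℝ] (mixedSpace K × mixedSpace K) where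
  toFun e := (e.1 + (kap w s - 1) * (Lf β e * mixedEmbedding K (wg m β)⁻¹) * mixedEmbedding K m.1,
    e.2 + (kap w s - 1) * (Lf β e * mixedEmbedding K (wg m β)⁻¹) * mixedEmbedding K m.2)
  invFun e := (e.1 + (kap w (-s) - 1) * (Lf β e * mixedEmbedding K (wg m β)⁻¹) *
      mixedEmbedding K m.1,
    e.2 + (kap w (-s) - 1) * (Lf β e * mixedEmbedding K (wg m β)⁻¹) * mixedEmbedding K m.2)
  map_add' e e' := by
    rw [Lf_add]
    ext1
    · simp only [Prod.fst_add]
      ring
    · simp only [Prod.snd_add]
      ring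
  map_smul' c e := by
    rw [Lf_smul]
    ext1
    · simp only [Prod.smul_fst, RingHom.id_apply, smul_add, smul_mul_assoc, mul_smul_comm]
    · simp only [Prod.smul_snd, RingHom.id_apply, smul_add, smul_mul_assoc, mul_smul_comm]
  left_inv e := by
    have h1 : (mixedEmbedding K (wg m β)⁻¹) * (mixedEmbedding K (wg m β)) = 1 := by
      rw [← map_mul, inv_mul_cancel₀ hδ, map_one]
    have h2 := kap_mul w s
    simp only
    rw [Lf_line]
    ext1
    · simp only
      linear_combination ((kap w (-s) - 1) * (kap w s - 1) * Lf β e *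
        mixedEmbedding K (wg m β)⁻¹ * mixedEmbedding K m.1) * h1 +
        (Lf β e * mixedEmbedding K (wg m β)⁻¹ * mixedEmbedding K m.1) * h2
    · simp only
      linear_combination ((kap w (-s) - 1) * (kap w s - 1) * Lf β e *
        mixedEmbedding K (wg m β)⁻¹ * mixedEmbedding K m.2) * h1 +
        (Lf β e * mixedEmbedding K (wg m β)⁻¹ * mixedEmbedding K m.2) * h2
  right_inv e := by
    have h1 : (mixedEmbedding K (wg m β)⁻¹) * (mixedEmbedding K (wg m β)) = 1 := by
      rw [← map_mul, inv_mul_cancel₀ hδ, map_one]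
    have h2 := kap_mul w s
    simp only
    rw [Lf_line]
    ext1
    · simp only
      linear_combination ((kap w (-s) - 1) * (kap w s - 1) * Lf β e *
        mixedEmbedding K (wg m β)⁻¹ * mixedEmbedding K m.1) * h1 +
        (Lf β e * mixedEmbedding K (wg m β)⁻¹ * mixedEmbedding K m.1) * h2
    · simp only
      linear_combination ((kap w (-s) - 1) * (kap w s - 1) * Lf β e *
        mixedEmbedding K (wg m β)⁻¹ * mixedEmbedding K m.2) * h1 +
        (Lf β e * mixedEmbedding K (wg m β)⁻¹ * mixedEmbedding K m.2) * h2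

theorem trv_apply (w : InfinitePlace K) {m β : K × K} (hδ : wg m β ≠ 0) (s : ℝ)
    (e : mixedSpace K × mixedSpace K) : trv w hδ s e =
    (e.1 + (kap w s - 1) * (Lf β e * mixedEmbedding K (wg m β)⁻¹) * mixedEmbedding K m.1,
    e.2 + (kap w s - 1) * (Lf β e * mixedEmbedding K (wg m β)⁻¹) * mixedEmbedding K m.2) := rfl

theorem Lf_trv (w : InfinitePlace K) {m β : K × K} (hδ : wg m β ≠ 0) (s : ℝ) (a : K × K)
    (e : mixedSpace K × mixedSpace K) : Lf a (trv w hδ s e) =
    Lf a e + (kap w s - 1) * (Lf β e * mixedEmbedding K (wg m β)⁻¹ *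
      mixedEmbedding K (wg m a)) := by
  rw [trv_apply, Lf_line]
  ring

theorem Lf_trv_self (w : InfinitePlace K) {m β : K × K} (hδ : wg m β ≠ 0) (s : ℝ)
    (e : mixedSpace K × mixedSpace K) : Lf m (trv w hδ s e) = Lf m e := by
  have h0 : wg m m = 0 := by
    unfold wg
    ring
  rw [Lf_trv, h0, map_zero]
  ring

theorem Lf_trv_other (w : InfinitePlace K) {m β : K × K} (hδ : wg m β ≠ 0) (s : ℝ)
    (e : mixedSpace K × mixedSpace K) : Lf β (trv w hδ s e) = kap w s * Lf β e := by
  have h1 : (mixedEmbedding K (wg m β)⁻¹) * (mixedEmbedding K (wg m β)) = 1 := by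
    rw [← map_mul, inv_mul_cancel₀ hδ, map_one]
  rw [Lf_trv]
  linear_combination ((kap w s - 1) * Lf β e) * h1

theorem norm_trv {w w' : InfinitePlace K} (hw : w' ≠ w) {m β : K × K} (hδ : wg m β ≠ 0) (s : ℝ)
    (a : K × K) (e : mixedSpace K × mixedSpace K) :
    normAtPlace w' (Lf a (trv w hδ s e)) = normAtPlace w' (Lf a e) := by
  rw [Lf_trv]
  refine norm_add_of_zero w' _ ?_
  rw [map_mul, norm_kap_sub hw, zero_mul]

/-- the product of the forms at a place -/
noncomputable def rho {q : ℕ} (α : Fin q → K × K) (w : InfinitePlace K)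
    (e : mixedSpace K × mixedSpace K) : ℝ := ∏ l, normAtPlace w (Lf (α l) e)

theorem NN_rho {q : ℕ} (α : Fin q → K × K) (e : mixedSpace K × mixedSpace K) :
    NN α e = ∏ w : InfinitePlace K, rho α w e ^ mult w := by
  unfold NN rho
  simp_rw [mixedEmbedding.norm_apply, ← Finset.prod_pow]
  exact Finset.prod_comm

theorem norm_kap_self (w : InfinitePlace K) (s : ℝ) : normAtPlace w (kap w s) = Real.exp s := by
  unfold kap
  rw [normAtPlace_mixedSpaceOfRealSpace (sw_pos w s w).le]
  unfold sw
  rw [if_pos rfl]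

/-- level sets in which a given form is the largest one at a place -/
theorem null_piece {q r : ℕ} {α : Fin q → K × K} {M : Fin (r + 1) → K × K}
    (hM : (∃ j, M j = (0, 1)) ∧ ∃ j, M j = (1, 0)) (w : InfinitePlace K) (j : Fin (r + 1))
    (l' : Fin q) (hδ : wg (M j) (α l') ≠ 0)
    (ν : Measure (mixedSpace K × mixedSpace K)) [ν.IsAddHaarMeasure] (t : ℝ) :
    ν {e | NN α e ≠ 0 ∧ mM M w e = normAtPlace w (Lf (M j) e) ∧ ΨM α M e = t} = 0 := by
  have hq : 0 < q := l'.pos
  refine null_of_orbits ν (fun s => trv w hδ s) ?_ ?_ ?_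
  · refine Continuous.measurable ?_
    have h1 : Continuous fun p : ℝ × (mixedSpace K × mixedSpace K) =>
        (kap w p.1 - 1) * (Lf (α l') p.2 * mixedEmbedding K (wg (M j) (α l'))⁻¹) :=
      (((continuous_kap w).comp continuous_fst).sub continuous_const).mul
        (((continuous_Lf _).comp continuous_snd).mul continuous_const)
    exact ((continuous_fst.comp continuous_snd).add (h1.mul continuous_const)).prodMk
      ((continuous_snd.comp continuous_snd).add (h1.mul continuous_const))
  · refine MeasurableSet.inter ?_ (MeasurableSet.inter ?_ ?_)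
    · exact (measurableSet_eq_fun (continuous_NN α).measurable measurable_const).compl
    · exact measurableSet_eq_fun (continuous_mM M w).measurable
        ((continuous_normAtPlace w).comp (continuous_Lf _)).measurable
    · exact measurableSet_eq_fun (adm_ΨM hq α hM).meas measurable_const
  · intro e
    -- the polynomials
    have hP : ∀ l : Fin q, ∃ P : Polynomial ℝ, (l = l' → P.eval 0 = 0) ∧ ∀ s : ℝ,
        normAtPlace w (Lf (α l) (trv w hδ s e)) ^ 2 = P.eval (Real.exp s) := by
      intro l
      by_cases hl : l = l'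
      · subst hl
        refine ⟨Polynomial.C (normAtPlace w (Lf (α l) e) ^ 2) * Polynomial.X ^ 2,
          fun _ => by simp, fun s => ?_⟩
        rw [Lf_trv_other, map_mul, norm_kap_self]
        simp
        ring
      · obtain ⟨P, hP⟩ := quad w (Lf (α l) e)
          (Lf (α l') e * mixedEmbedding K (wg (M j) (α l'))⁻¹ *
            mixedEmbedding K (wg (M j) (α l)))
        refine ⟨P, fun h => absurd h hl, fun s => ?_⟩
        rw [Lf_trv]
        exact hP s
    choose P hP0 hP using hP
    set Q : Polynomial ℝ := ∏ l, P l with hQ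
    have hQe : ∀ s : ℝ, rho α w (trv w hδ s e) ^ 2 = Q.eval (Real.exp s) := by
      intro s
      unfold rho
      rw [← Finset.prod_pow, hQ, Polynomial.eval_prod]
      exact Finset.prod_congr rfl fun l _ => hP l s
    have hQ0 : Q.eval 0 = 0 := by
      rw [hQ, Polynomial.eval_prod]
      exact Finset.prod_eq_zero (Finset.mem_univ l') (hP0 l' rfl)
    by_cases hne : {s : ℝ | trv w hδ s e ∈ {e | NN α e ≠ 0 ∧
        mM M w e = normAtPlace w (Lf (M j) e) ∧ ΨM α M e = t}}.Nonempty
    · obtain ⟨s₀, hs₀⟩ := hne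
      have key : ∀ s : ℝ, trv w hδ s e ∈ {e | NN α e ≠ 0 ∧
          mM M w e = normAtPlace w (Lf (M j) e) ∧ ΨM α M e = t} →
          rho α w (trv w hδ s e) = rho α w (trv w hδ s₀ e) := by
        intro s hs
        obtain ⟨g1, g2, g3⟩ := hs
        obtain ⟨k1, k2, k3⟩ := hs₀
        have hHM : HM M (trv w hδ s e) = HM M (trv w hδ s₀ e) := by
          unfold HM
          refine Finset.prod_congr rfl fun w' _ => ?_
          congr 1
          by_cases hw : w' = w
          · subst hw
            rw [g2, k2, Lf_trv_self, Lf_trv_self]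
          · unfold mM
            refine Finset.sup'_congr _ rfl fun i _ => ?_
            rw [norm_trv hw, norm_trv hw]
        have hNN : NN α (trv w hδ s e) = NN α (trv w hδ s₀ e) := by
          unfold ΨM at g3 k3
          rw [hHM] at g3
          have h1 : Real.log (NN α (trv w hδ s e)) = Real.log (NN α (trv w hδ s₀ e)) := by
            linarith
          exact Real.log_injOn_pos (lt_of_le_of_ne (NN_nonneg α _) (Ne.symm g1))
            (lt_of_le_of_ne (NN_nonneg α _) (Ne.symm k1)) h1
        rw [NN_rho, NN_rho, ← Finset.mul_prod_erase _ _ (Finset.mem_univ w),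
          ← Finset.mul_prod_erase _ _ (Finset.mem_univ w)] at hNN
        have hrest : ∏ x ∈ Finset.univ.erase w, rho α x (trv w hδ s e) ^ mult x =
            ∏ x ∈ Finset.univ.erase w, rho α x (trv w hδ s₀ e) ^ mult x := by
          refine Finset.prod_congr rfl fun w' hw' => ?_
          have hw := Finset.ne_of_mem_erase hw'
          unfold rho
          simp_rw [norm_trv hw]
        have hrest0 : ∏ x ∈ Finset.univ.erase w, rho α x (trv w hδ s₀ e) ^ mult x ≠ 0 := by
          intro h0
          apply k1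
          rw [NN_rho, ← Finset.mul_prod_erase _ _ (Finset.mem_univ w), h0, mul_zero]
        rw [hrest] at hNN
        have h2 := mul_right_cancel₀ hrest0 hNN
        have hn : ∀ e', 0 ≤ rho α w e' := fun e' =>
          Finset.prod_nonneg fun l _ => normAtPlace_nonneg w _
        exact (pow_left_inj₀ (hn _) (hn _) (mult_pos (w := w)).ne').mp h2
      set c := rho α w (trv w hδ s₀ e) ^ 2 with hc
      have hc0 : c ≠ 0 := by
        rw [hc]
        refine pow_ne_zero _ fun h0 => hs₀.1 ?_
        rw [NN_rho, ← Finset.mul_prod_erase _ _ (Finset.mem_univ w), h0,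
          zero_pow (mult_pos (w := w)).ne', zero_mul]
      have hpoly : Q - Polynomial.C c ≠ 0 := by
        intro h0
        have h1 := congrArg (Polynomial.eval 0) h0
        rw [Polynomial.eval_sub, hQ0, Polynomial.eval_C, Polynomial.eval_zero, zero_sub,
          neg_eq_zero] at h1
        exact hc0 h1
      have hfin : {s : ℝ | (Q - Polynomial.C c).eval (Real.exp s) = 0}.Finite := by
        have h1 : {x : ℝ | (Q - Polynomial.C c).IsRoot x}.Finite :=
          Polynomial.finite_setOfPred_isRoot hpoly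
        exact h1.preimage (f := Real.exp) Real.exp_injective.injOn
      refine measure_mono_null (fun s hs => ?_) (hfin.measure_zero _)
      show (Q - Polynomial.C c).eval (Real.exp s) = 0
      rw [Polynomial.eval_sub, Polynomial.eval_C, ← hQe, key s hs, hc, sub_self]
    · rw [Set.not_nonempty_iff_eq_empty] at hne
      have : {s : ℝ | (fun s => trv w hδ s) s e ∈ {e | NN α e ≠ 0 ∧
        mM M w e = normAtPlace w (Lf (M j) e) ∧ ΨM α M e = t}} = ∅ := hne
      rw [this]
      exact measure_empty

theorem null_level {q r : ℕ} (hq : 2 ≤ q) {α : Fin q → K × K} (hα : ∀ l, α l ≠ 0)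
    (hα' : ∀ i j, i ≠ j → wg (α i) (α j) ≠ 0) {M : Fin (r + 1) → K × K}
    (hM : (∃ j, M j = (0, 1)) ∧ ∃ j, M j = (1, 0)) (hM0 : ∀ j, M j ≠ 0)
    (ν : Measure (mixedSpace K × mixedSpace K)) [ν.IsAddHaarMeasure] (t : ℝ) :
    ν {e | ΨM α M e = t} = 0 := by
  obtain ⟨w⟩ := (inferInstance : Nonempty (InfinitePlace K))
  have hsub : {e | ΨM α M e = t} ⊆ {e | NN α e = 0} ∪ ⋃ j : Fin (r + 1),
      {e | NN α e ≠ 0 ∧ mM M w e = normAtPlace w (Lf (M j) e) ∧ ΨM α M e = t} := by
    intro e he
    by_cases h : NN α e = 0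
    · exact Or.inl h
    · obtain ⟨j, hj⟩ := exists_mM M w e
      exact Or.inr (Set.mem_iUnion.mpr ⟨j, h, hj, he⟩)
  refine measure_mono_null hsub (measure_union_null (null_NN ν hα) ?_)
  refine measure_iUnion_null fun j => ?_
  obtain ⟨l', hl'⟩ : ∃ l' : Fin q, wg (M j) (α l') ≠ 0 := by
    by_contra hcon
    push Not at hcon
    have h0 := hcon ⟨0, by omega⟩
    have h1 := hcon ⟨1, by omega⟩
    have h2 := hα' ⟨0, by omega⟩ ⟨1, by omega⟩ (by
      intro h
      have := congrArg Fin.val h
      simp at this)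
    have hm := hM0 j
    set a := α ⟨0, by omega⟩
    set b := α ⟨1, by omega⟩
    unfold wg at h0 h1 h2
    apply hm
    refine Prod.ext ?_ ?_
    · have h3 : (M j).1 * (a.1 * b.2 - a.2 * b.1) = 0 := by
        linear_combination a.1 * h1 - b.1 * h0
      exact (mul_eq_zero.mp h3).resolve_right h2
    · have h3 : (M j).2 * (a.1 * b.2 - a.2 * b.1) = 0 := by
        linear_combination a.2 * h1 - b.2 * h0
      exact (mul_eq_zero.mp h3).resolve_right h2
  exact null_piece hM w j l' hl' ν t

end Pool.Agent.K6.H14.ABC
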