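import Mathlib
import Pool.Agent.K6.H14.ABC.Count

set_option autoImplicit false
set_option linter.unusedSectionVars false

/-!
# The functions on the points
-/

namespace Pool.Agent.K6.H14.ABC

open MeasureTheory Filter Topology Module NumberField NumberField.InfinitePlace IsDedekindDomain
open NumberField.mixedEmbedding NumberField.Units Pool.Agent.H691R3
open scoped Classical nonZeroDivisors

variable {K : Type*} [Field K] [NumberField K]

/-- the truncated counting function of a pair -/
noncomputable def NTp (T : Set (HeightOneSpectrum (𝓞 K))) {q : ℕ} (α : Fin q → K × K)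
    (p : K × K) : ℝ :=
  ∑ᶠ (v : HeightOneSpectrum (𝓞 K)) (_ : v ∉ T),
    ∑ l : Fin q, min (lamA (fv v) p (α l)) (Real.log (Nv v))

theorem NTp_aff (T : Set (HeightOneSpectrum (𝓞 K))) {q : ℕ} (α : Fin q → K × K) (x : K) :
    NTp T α (aff x) = NTc T α x := rfl

theorem rep_some (x : K) : rep (some x) = aff x := rfl

/-- the total excess -/
noncomputable def Sx (T : Set (HeightOneSpectrum (𝓞 K))) {q : ℕ} (α : Fin q → K × K)
    (p : K × K) : ℝ := ∑ᶠ v : HeightOneSpectrum (𝓞 K), sv T α v p

section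

variable (T : Set (HeightOneSpectrum (𝓞 K))) {q : ℕ} {α : Fin q → K × K} (hα : ∀ l, α l ≠ 0)
  {p : K × K} (hp0 : p ≠ 0) (hp : ∀ l, wg p (α l) ≠ 0)

include hα hp0 hp

/-- the primes at which some local height does not vanish -/
theorem bad_fin : {v : HeightOneSpectrum (𝓞 K) | ∃ l, lamA (fv v) p (α l) ≠ 0}.Finite := by
  have : {v : HeightOneSpectrum (𝓞 K) | ∃ l, lamA (fv v) p (α l) ≠ 0} =
      ⋃ l : Fin q, {v | lamA (fv v) p (α l) ≠ 0} := by
    ext v
    simp
  rw [this]
  exact Set.finite_iUnion fun l => lamF_support_finite hp0 (hα l) (hp l)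

/-- sums over a finite set of primes -/
theorem sums_eq : ∃ W : Finset (HeightOneSpectrum (𝓞 K)),
    (∀ v, v ∉ W → ∀ l, lamA (fv v) p (α l) = 0) ∧
    NTp T α p = ∑ v ∈ W, (if v ∈ T then 0 else
      ∑ l : Fin q, min (lamA (fv v) p (α l)) (Real.log (Nv v))) ∧
    Sx T α p = ∑ v ∈ W, sv T α v p ∧
    Nall α p = ∑ v ∈ W, ∑ l, lamA (fv v) p (α l) := by
  set W := (bad_fin hα hp0 hp).toFinset with hW
  have h0 : ∀ v, v ∉ W → ∀ l, lamA (fv v) p (α l) = 0 := by
    intro v hv l
    by_contra h
    apply hv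
    rw [hW, Set.Finite.mem_toFinset]
    exact ⟨l, h⟩
  refine ⟨W, h0, ?_, ?_, ?_⟩
  · unfold NTp
    have h1 : (fun v : HeightOneSpectrum (𝓞 K) => ∑ᶠ (_ : v ∉ T),
        ∑ l : Fin q, min (lamA (fv v) p (α l)) (Real.log (Nv v))) =
        fun v => (if v ∈ T then 0 else
          ∑ l : Fin q, min (lamA (fv v) p (α l)) (Real.log (Nv v))) := by
      funext v
      by_cases hv : v ∈ T
      · simp [hv]
      · simp [hv]
    rw [h1, finsum_eq_sum_of_support_subset]
    intro v hv
    rw [Function.mem_support] at hv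
    by_contra h
    apply hv
    split_ifs
    · rfl
    · refine Finset.sum_eq_zero fun l _ => ?_
      rw [h0 v h l]
      exact min_eq_left (log_Nv_pos v).le
  · unfold Sx
    rw [finsum_eq_sum_of_support_subset]
    intro v hv
    rw [Function.mem_support] at hv
    by_contra h
    apply hv
    unfold sv
    refine Finset.sum_eq_zero fun l _ => ?_
    rw [h0 v h l, min_eq_left (log_Nv_pos v).le]
    split_ifs <;> simp
  · unfold Nall
    rw [Finset.sum_comm]
    refine Finset.sum_congr rfl fun l _ => ?_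
    rw [finsum_eq_sum_of_support_subset]
    intro v hv
    rw [Function.mem_support] at hv
    by_contra h
    exact hv (h0 v h l)

theorem Nall_eq_add : Nall α p = NTp T α p + Sx T α p := by
  obtain ⟨W, _, h1, h2, h3⟩ := sums_eq T hα hp0 hp
  rw [h1, h2, h3, ← Finset.sum_add_distrib]
  refine Finset.sum_congr rfl fun v _ => ?_
  unfold sv
  split_ifs
  · simp
  · rw [← Finset.sum_add_distrib]
    refine Finset.sum_congr rfl fun l _ => ?_
    ring

theorem NTp_nonneg : 0 ≤ NTp T α p := by
  obtain ⟨W, _, h1, _, _⟩ := sums_eq T hα hp0 hp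
  rw [h1]
  refine Finset.sum_nonneg fun v _ => ?_
  split_ifs
  · exact le_rfl
  · refine Finset.sum_nonneg fun l _ => le_min ?_ (log_Nv_pos v).le
    exact lamF_nonneg v hp0 (hα l) (hp l)

theorem SZ_le_Sx (Z : Finset (HeightOneSpectrum (𝓞 K))) : SZ T α Z p ≤ Sx T α p := by
  obtain ⟨W, h0, _, h2, _⟩ := sums_eq T hα hp0 hp
  have h3 : SZ T α Z p = ∑ v ∈ Z ∩ W, sv T α v p := by
    unfold SZ
    refine (Finset.sum_subset Finset.inter_subset_left fun v hv hv' => ?_).symm
    have hvW : v ∉ W := fun h => hv' (Finset.mem_inter.mpr ⟨hv, h⟩)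
    unfold sv
    refine Finset.sum_eq_zero fun l _ => ?_
    rw [h0 v hvW l, min_eq_left (log_Nv_pos v).le]
    split_ifs <;> simp
  rw [h2, h3]
  exact Finset.sum_le_sum_of_subset_of_nonneg Finset.inter_subset_right
    fun v _ _ => sv_nonneg T hα v hp0 hp

theorem SZ_nonneg (Z : Finset (HeightOneSpectrum (𝓞 K))) : 0 ≤ SZ T α Z p :=
  Finset.sum_nonneg fun v _ => sv_nonneg T hα v hp0 hp

/-- the excess outside `Z` is at least the logarithm of a norm -/
theorem gap {z : ℝ} (hz : 0 < z) {Z : Finset (HeightOneSpectrum (𝓞 K))} (hT : ∀ v ∈ T, v ∈ Z)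
    (hZ : ∀ v, Nv v ≤ z → v ∈ Z) (hne : SZ T α Z p ≠ Sx T α p) :
    SZ T α Z p + Real.log z ≤ Sx T α p := by
  obtain ⟨W, h0, _, h2, _⟩ := sums_eq T hα hp0 hp
  have hsv0 : ∀ v, v ∉ W → sv T α v p = 0 := by
    intro v hv
    unfold sv
    refine Finset.sum_eq_zero fun l _ => ?_
    rw [h0 v hv l, min_eq_left (log_Nv_pos v).le]
    split_ifs <;> simp
  have h3 : Sx T α p = SZ T α Z p + ∑ v ∈ W \ Z, sv T α v p := by
    rw [h2]
    unfold SZ
    have h4 : ∑ v ∈ Z, sv T α v p = ∑ v ∈ W ∩ Z, sv T α v p := by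
      refine (Finset.sum_subset Finset.inter_subset_right fun v hv hv' => ?_).symm
      exact hsv0 v fun h => hv' (Finset.mem_inter.mpr ⟨h, hv⟩)
    rw [h4, Finset.sum_inter_add_sum_sdiff]
  have h4 : ∃ v ∈ W \ Z, sv T α v p ≠ 0 := by
    by_contra hcon
    push Not at hcon
    apply hne
    rw [h3, Finset.sum_eq_zero hcon, add_zero]
  obtain ⟨v, hv, hsv⟩ := h4
  have hvZ : v ∉ Z := (Finset.mem_sdiff.mp hv).2
  have hvT : v ∉ T := fun h => hvZ (hT v h)
  have hNv : z < Nv v := by
    by_contra h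
    exact hvZ (hZ v (not_lt.mp h))
  have hlog := log_Nv_pos v
  have h5 : Real.log (Nv v) ≤ sv T α v p := by
    unfold sv at hsv ⊢
    have h6 : ∃ l, (lamA (fv v) p (α l) -
        if v ∈ T then 0 else min (lamA (fv v) p (α l)) (Real.log (Nv v))) ≠ 0 := by
      by_contra hcon
      push Not at hcon
      exact hsv (Finset.sum_eq_zero fun l _ => hcon l)
    obtain ⟨l, hl⟩ := h6
    have h7 : Real.log (Nv v) ≤ (lamA (fv v) p (α l) -
        if v ∈ T then 0 else min (lamA (fv v) p (α l)) (Real.log (Nv v))) := by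
      rw [if_neg hvT] at hl ⊢
      obtain ⟨k, hk⟩ := lamF_discrete v hp0 (hα l) (hp l)
      rw [hk] at hl ⊢
      have h8 : 2 ≤ k := by
        by_contra hcon
        have : k = 0 ∨ k = 1 := by omega
        rcases this with rfl | rfl
        · apply hl
          rw [Nat.cast_zero, zero_mul, min_eq_left hlog.le, sub_zero]
        · apply hl
          rw [Nat.cast_one, one_mul, min_self, sub_self]
      have h9 : (2 : ℝ) ≤ k := by exact_mod_cast h8
      rw [min_eq_right (by nlinarith)]
      nlinarith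
    refine h7.trans ?_
    exact Finset.single_le_sum (f := fun l => (lamA (fv v) p (α l) -
      if v ∈ T then 0 else min (lamA (fv v) p (α l)) (Real.log (Nv v))))
      (fun l _ => (sv_term_nonneg T α hα v hp0 hp l).2) (Finset.mem_univ l)
  have h6 : sv T α v p ≤ ∑ v ∈ W \ Z, sv T α v p :=
    Finset.single_le_sum (f := fun v => sv T α v p)
      (fun v _ => sv_nonneg T hα v hp0 hp) hv
  have h7 : Real.log z ≤ Real.log (Nv v) := Real.log_le_log hz hNv.le
  rw [h3]
  linarith

theorem Nall_eq' : Nall α p = Real.log (NN α (jK p)) +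
    q * ∑ᶠ v : HeightOneSpectrum (𝓞 K), Real.log (max (fv v p.1) (fv v p.2)) + cα α := by
  have h1 : ∀ l, ∑ᶠ v : HeightOneSpectrum (𝓞 K), lamA (fv v) p (α l) =
      ∑ᶠ v : HeightOneSpectrum (𝓞 K), Real.log (max (fv v p.1) (fv v p.2)) +
      ∑ᶠ v : HeightOneSpectrum (𝓞 K), Real.log (max (fv v (α l).1) (fv v (α l).2)) +
      ∑ w : InfinitePlace K, (w.mult : ℝ) * Real.log (w (wg p (α l))) := by
    intro l
    have h2 := log_product_formula (K := K) (hp l)
    have h3 : ∑ w : InfinitePlace K, (w.mult : ℝ) * Real.log (w (wg p (α l))) =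
        -∑ᶠ v : HeightOneSpectrum (𝓞 K), Real.log (fv v (wg p (α l))) := by linarith
    rw [h3, ← sub_eq_add_neg]
    rw [← finsum_add_distrib (log_max_support_finite hp0) (log_max_support_finite (hα l)),
      ← finsum_sub_distrib _ (log_fv_support_finite (hp l))]
    · exact finsum_congr fun v => lamA_eq (fv v) hp0 (hα l) (hp l)
    · exact ((log_max_support_finite hp0).union (log_max_support_finite (hα l))).subset
        (Function.support_add _ _)
  unfold Nall
  simp_rw [h1]
  rw [Finset.sum_add_distrib, Finset.sum_add_distrib, Finset.sum_const, Finset.card_univ,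
    Fintype.card_fin, nsmul_eq_mul, log_NN hp]
  unfold cα
  ring

/-- the height and the proximity function -/
theorem hr_rel : q * hr p - Nall α p =
    q * Real.log (HH (jK p)) - Real.log (NN α (jK p)) - cα α := by
  rw [Nall_eq' hα hp0 hp]
  unfold hr
  rw [log_HH hp0]
  ring

end

end Pool.Agent.K6.H14.ABC
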