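import Mathlib
import Pool.Agent.R365.SH.Final
import Pool.Agent.K6.H14.ABC.Pts
import Pool.Agent.K6.H14.ABC.Idl

set_option autoImplicit false
set_option linter.unusedSectionVars false

/-!
# The asymptotic number of points ordered by the radical
-/

namespace Pool.Agent.K6.H14.ABC

open MeasureTheory Filter Topology Module NumberField NumberField.InfinitePlace IsDedekindDomain
open NumberField.mixedEmbedding NumberField.Units Pool.Agent.H691R3 Pool.Agent.R365.SH
open scoped Classical nonZeroDivisors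

variable {K : Type} [Field K] [NumberField K]

theorem finite_of_card {X : Type*} {S : Set X} {N : ℝ}
    (h : ∀ E : Finset X, (E : Set X) ⊆ S → (E.card : ℝ) ≤ N) : S.Finite := by
  by_contra hinf
  obtain ⟨n, hn⟩ := exists_nat_gt N
  obtain ⟨E, hE, hc⟩ := Set.Infinite.exists_subset_card_eq hinf n
  have := h E hE
  rw [hc] at this
  linarith

theorem ncard_le_of_card {X : Type*} {S : Set X} {N : ℝ}
    (h : ∀ E : Finset X, (E : Set X) ⊆ S → (E.card : ℝ) ≤ N) : (S.ncard : ℝ) ≤ N := by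
  have hfin := finite_of_card h
  rw [Set.ncard_eq_toFinset_card _ hfin]
  exact h _ (by rw [Set.Finite.coe_toFinset])

/-- the distance from the height to the truncated counting function -/
noncomputable def Dp (T : Set (HeightOneSpectrum (𝓞 K))) {q : ℕ} (α : Fin q → K × K)
    (Ψ : mixedSpace K × mixedSpace K → ℝ) (p : K × K) : ℝ := Ψ (jK p) + Sx T α p

theorem Dp_bounds (T : Set (HeightOneSpectrum (𝓞 K))) {q : ℕ} {α : Fin q → K × K}
    (hα : ∀ l, α l ≠ 0) {Ψ : mixedSpace K × mixedSpace K → ℝ} (h : Adm α Ψ) :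
    ∃ C : ℝ, 0 ≤ C ∧ ∀ p : K × K, p ≠ 0 → (∀ l, wg p (α l) ≠ 0) →
      -C ≤ Dp T α Ψ p ∧ -C ≤ Ψ (jK p) ∧ |Dp T α Ψ p - (q * hr p - NTp T α p)| ≤ C := by
  obtain ⟨C₁, hC₁0, hC₁⟩ := h.lower
  obtain ⟨C₂, hC₂⟩ := h.close
  refine ⟨max C₁ (C₂ + |cα α|), le_max_of_le_left hC₁0, fun p hp0 hp => ?_⟩
  have hN := NN_jK_ne.mpr hp
  have h1 := hC₁ _ hN
  have h2 := hC₂ _ hN
  have h3 := hr_rel hα hp0 hp
  have h4 := Nall_eq_add T hα hp0 hp
  have h5 : 0 ≤ Sx T α p := by
    have := SZ_le_Sx T hα hp0 hp ∅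
    have h6 : SZ T α ∅ p = 0 := Finset.sum_empty
    rwa [h6] at this
  have g1 := le_max_left C₁ (C₂ + |cα α|)
  have g2 := le_max_right C₁ (C₂ + |cα α|)
  unfold Dp
  refine ⟨by linarith, by linarith, ?_⟩
  have h7 : Ψ (jK p) + Sx T α p - (q * hr p - NTp T α p) =
      (Ψ (jK p) - (q * Real.log (HH (jK p)) - Real.log (NN α (jK p)))) + cα α := by
    linarith
  rw [h7]
  refine (abs_add_le _ _).trans ?_
  linarith

/-- the bound for the points far from the diagonal -/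
theorem tail_bound' (T : Set (HeightOneSpectrum (𝓞 K))) (hT : T.Finite) {q : ℕ} (hq : 3 ≤ q)
    {α : Fin q → K × K} (hα : ∀ l, α l ≠ 0) (hα' : ∀ i j, i ≠ j → wg (α i) (α j) ≠ 0)
    {Ψ : mixedSpace K × mixedSpace K → ℝ} (h : Adm α Ψ) (c : ℝ) (hc0 : 0 ≤ c)
    (hc1 : c < 1 - 2 / q) :
    ∃ C ν : ℝ, 0 < C ∧ 0 < ν ∧ ∀ Λ y : ℝ, 0 ≤ Λ → ∀ E : Finset (Option K),
      (∀ o ∈ E, (∀ l, wg (rep o) (α l) ≠ 0) ∧ NTp T α (rep o) ≤ Λ ∧ y ≤ Dp T α Ψ (rep o)) →
      (E.card : ℝ) ≤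
        C * (Real.exp (2 / q * Λ - c * y) + Real.exp ((2 / q - ν) * Λ)) + 1 := by
  obtain ⟨C₀, hC₀, hD⟩ := Dp_bounds T hα h
  obtain ⟨C, ν, hC, hν, hmain⟩ := all_upper hq T hT α hα hα' c hc0 hc1
  refine ⟨C * Real.exp (c * C₀), ν, by positivity, hν, fun Λ y hΛ E hE => ?_⟩
  have h1 := hmain Λ (y - C₀) hΛ (Finset.eraseNone E) (by
    intro x hx
    rw [Finset.mem_eraseNone] at hx
    obtain ⟨g1, g2, g3⟩ := hE _ hx
    obtain ⟨_, _, g4⟩ := hD _ (rep_ne_zero (some x)) g1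
    refine ⟨g1, g2, ?_⟩
    have g5 := (abs_le.mp g4).2
    have g6 : NTp T α (rep (some x)) = NTc T α x := rfl
    have g7 : hr (rep (some x)) = hr (aff x) := rfl
    rw [g6, g7] at g5
    linarith)
  have h2 : E.card ≤ (Finset.eraseNone E).card + 1 := by
    have h3 : E ⊆ insert none ((Finset.eraseNone E).map Function.Embedding.some) := by
      intro o ho
      cases o with
      | none => exact Finset.mem_insert_self _ _
      | some x =>
        refine Finset.mem_insert_of_mem ?_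
        rw [Finset.mem_map]
        exact ⟨x, Finset.mem_eraseNone.mpr ho, rfl⟩
    refine (Finset.card_le_card h3).trans ((Finset.card_insert_le _ _).trans ?_)
    rw [Finset.card_map]
  have h3 : (E.card : ℝ) ≤ ((Finset.eraseNone E).card : ℝ) + 1 := by exact_mod_cast h2
  have h4 : Real.exp (2 / q * Λ - c * (y - C₀)) =
      Real.exp (c * C₀) * Real.exp (2 / q * Λ - c * y) := by
    rw [← Real.exp_add]
    congr 1
    ring
  rw [h4] at h1
  have h5 : (1 : ℝ) ≤ Real.exp (c * C₀) := Real.one_le_exp (by positivity)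
  have h6 : Real.exp ((2 / q - ν) * Λ) ≤ Real.exp (c * C₀) * Real.exp ((2 / q - ν) * Λ) :=
    le_mul_of_one_le_left (Real.exp_pos _).le h5
  have h7 := mul_le_mul_of_nonneg_left h6 hC.le
  linarith

theorem tail_bound (T : Set (HeightOneSpectrum (𝓞 K))) (hT : T.Finite) {q : ℕ} (hq : 3 ≤ q)
    {α : Fin q → K × K} (hα : ∀ l, α l ≠ 0) (hα' : ∀ i j, i ≠ j → wg (α i) (α j) ≠ 0)
    {Ψ : mixedSpace K × mixedSpace K → ℝ} (h : Adm α Ψ) :
    ∃ C c ν : ℝ, 0 < C ∧ 0 < c ∧ 0 < ν ∧ ∀ Λ y : ℝ, 0 ≤ Λ → ∀ E : Finset (Option K),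
      (∀ o ∈ E, (∀ l, wg (rep o) (α l) ≠ 0) ∧ NTp T α (rep o) ≤ Λ ∧ y ≤ Dp T α Ψ (rep o)) →
      (E.card : ℝ) ≤
        C * (Real.exp (2 / q * Λ - c * y) + Real.exp ((2 / q - ν) * Λ)) + 1 := by
  have hqR : (3 : ℝ) ≤ q := by exact_mod_cast hq
  have hq0 : (0 : ℝ) < q := by linarith
  have hpos : (0 : ℝ) < 1 - 2 / q := by
    rw [sub_pos, div_lt_one hq0]
    linarith
  obtain ⟨C, ν, hC, hν, hmain⟩ := tail_bound' T hT hq hα hα' h ((1 - 2 / q) / 2)
    (by positivity) (by linarith)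
  exact ⟨C, (1 - 2 / q) / 2, ν, hC, by positivity, hν, hmain⟩

/-- the points with small truncated counting function -/
def AI (T : Set (HeightOneSpectrum (𝓞 K))) {q : ℕ} (α : Fin q → K × K) (Λ : ℝ) :
    Set (Option K) :=
  {o | (∀ l, wg (rep o) (α l) ≠ 0) ∧ NTp T α (rep o) ≤ Λ}

/-- those near the diagonal -/
def AT (T : Set (HeightOneSpectrum (𝓞 K))) {q : ℕ} (α : Fin q → K × K)
    (Ψ : mixedSpace K × mixedSpace K → ℝ) (t Λ : ℝ) : Set (Option K) :=
  {o | (∀ l, wg (rep o) (α l) ≠ 0) ∧ NTp T α (rep o) ≤ Λ ∧ Dp T α Ψ (rep o) ≤ t}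

theorem AT_sub (T : Set (HeightOneSpectrum (𝓞 K))) {q : ℕ} (α : Fin q → K × K)
    (Ψ : mixedSpace K × mixedSpace K → ℝ) (t Λ : ℝ) : AT T α Ψ t Λ ⊆ AI T α Λ :=
  fun _ ho => ⟨ho.1, ho.2.1⟩

/-- the bound for all points -/
theorem all_bound (T : Set (HeightOneSpectrum (𝓞 K))) (hT : T.Finite) {q : ℕ} (hq : 3 ≤ q)
    {α : Fin q → K × K} (hα : ∀ l, α l ≠ 0) (hα' : ∀ i j, i ≠ j → wg (α i) (α j) ≠ 0)
    {Ψ : mixedSpace K × mixedSpace K → ℝ} (h : Adm α Ψ) :
    ∃ C : ℝ, 0 < C ∧ ∀ Λ : ℝ, ∀ E : Finset (Option K), (E : Set (Option K)) ⊆ AI T α Λ →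
      (E.card : ℝ) ≤ C * Real.exp (2 / q * Λ) := by
  have hqR : (3 : ℝ) ≤ q := by exact_mod_cast hq
  have hq0 : (0 : ℝ) < q := by linarith
  obtain ⟨C₀, hC₀, hD⟩ := Dp_bounds T hα h
  obtain ⟨C, c, ν, hC, hc, hν, hmain⟩ := tail_bound T hT hq hα hα' h
  refine ⟨C * (Real.exp (c * C₀) + 1) + 1, by positivity, fun Λ E hE => ?_⟩
  rcases lt_or_ge Λ 0 with hΛ | hΛ
  · have hemp : E = ∅ := by
      rw [Finset.eq_empty_iff_forall_notMem]
      intro o ho
      obtain ⟨g1, g2⟩ := hE ho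
      have g3 := NTp_nonneg T hα (rep_ne_zero o) g1
      linarith
    rw [hemp, Finset.card_empty, Nat.cast_zero]
    positivity
  · have h1 := hmain Λ (-C₀) hΛ E (by
      intro o ho
      obtain ⟨g1, g2⟩ := hE ho
      exact ⟨g1, g2, (hD _ (rep_ne_zero o) g1).1⟩)
    have h2 : Real.exp (2 / q * Λ - c * -C₀) = Real.exp (c * C₀) * Real.exp (2 / q * Λ) := by
      rw [← Real.exp_add]
      congr 1
      ring
    have h3 : Real.exp ((2 / q - ν) * Λ) ≤ Real.exp (2 / q * Λ) :=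
      Real.exp_le_exp.mpr (mul_le_mul_of_nonneg_right (by linarith) hΛ)
    have h4 : (1 : ℝ) ≤ Real.exp (2 / q * Λ) := Real.one_le_exp (by positivity)
    rw [h2] at h1
    have h5 := mul_le_mul_of_nonneg_left h3 hC.le
    linarith

theorem AI_finite (T : Set (HeightOneSpectrum (𝓞 K))) (hT : T.Finite) {q : ℕ} (hq : 3 ≤ q)
    {α : Fin q → K × K} (hα : ∀ l, α l ≠ 0) (hα' : ∀ i j, i ≠ j → wg (α i) (α j) ≠ 0)
    {Ψ : mixedSpace K × mixedSpace K → ℝ} (h : Adm α Ψ) (Λ : ℝ) : (AI T α Λ).Finite := by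
  obtain ⟨C, _, hC⟩ := all_bound T hT hq hα hα' h
  exact finite_of_card (hC Λ)

/-- the primes of small norm -/
theorem small_primes_finite (z : ℝ) : {v : HeightOneSpectrum (𝓞 K) | Nv v ≤ z}.Finite := by
  obtain ⟨n, hn⟩ := exists_nat_ge z
  have h1 : {I : Ideal (𝓞 K) | Ideal.absNorm I ≤ n}.Finite := Ideal.finite_setOfPred_absNorm_le n
  refine Set.Finite.subset (h1.preimage (f := fun v : HeightOneSpectrum (𝓞 K) => v.asIdeal) ?_) ?_
  · intro v _ v' _ hvv
    exact HeightOneSpectrum.ext hvv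
  · intro v hv
    have h2 : (Ideal.absNorm v.asIdeal : ℝ) ≤ n := le_trans hv hn
    show Ideal.absNorm v.asIdeal ≤ n
    exact_mod_cast h2

/-- the comparison of the points near the diagonal with the pairs of a point and a content -/
theorem compare (T : Set (HeightOneSpectrum (𝓞 K))) (hT : T.Finite) {q : ℕ} (hq : 3 ≤ q)
    {α : Fin q → K × K} (hα : ∀ l, α l ≠ 0) (hα' : ∀ i j, i ≠ j → wg (α i) (α j) ≠ 0)
    {Ψ : mixedSpace K × mixedSpace K → ℝ} (h : Adm α Ψ) (t ε : ℝ) (hε : 0 < ε) :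
    ∃ (Z : Finset (HeightOneSpectrum (𝓞 K))) (C ν : ℝ), 0 < ν ∧ ∀ Λ : ℝ, 0 ≤ Λ →
      ((AT T α Ψ t Λ).ncard : ℝ) ≤ (QS T α Ψ Z t Λ).ncard ∧
      ((QS T α Ψ Z t Λ).ncard : ℝ) ≤ (AT T α Ψ t Λ).ncard +
        (ε * Real.exp (2 / q * Λ) + C * Real.exp ((2 / q - ν) * Λ) + 1) := by
  have hqR : (3 : ℝ) ≤ q := by exact_mod_cast hq
  have hq0 : (0 : ℝ) < q := by linarith
  have hqn : 0 < q := by omega
  obtain ⟨C₀, hC₀, hD⟩ := Dp_bounds T hα h
  obtain ⟨C, c, ν, hC, hc, hν, htail⟩ := tail_bound T hT hq hα hα' h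
  obtain ⟨C', hC', hall⟩ := all_bound T hT hq hα hα' h
  obtain ⟨z₀, hz₀⟩ := ideal_tail K (ε := ε / (2 * C')) (by positivity)
  -- the choice of `z`
  obtain ⟨z, hz1, hz2, hz3, hz4⟩ : ∃ z : ℝ, 1 ≤ z ∧ z₀ ≤ z ∧ t + C₀ < Real.log z ∧
      C * Real.exp (-c * (Real.log z - C₀)) ≤ ε / 2 := by
    have h1 : Tendsto (fun z : ℝ => C * Real.exp (-c * (Real.log z - C₀))) atTop (𝓝 (C * 0)) := by
      refine (Real.tendsto_exp_atBot.comp ?_).const_mul C
      refine Tendsto.const_mul_atTop_of_neg (by linarith) ?_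
      exact tendsto_atTop_add_const_right _ _ Real.tendsto_log_atTop
    rw [mul_zero] at h1
    have h2 := h1.eventually (gt_mem_nhds (show (0 : ℝ) < ε / 2 by positivity))
    have h3 := Real.tendsto_log_atTop.eventually (eventually_gt_atTop (t + C₀))
    obtain ⟨z, hz⟩ := (((eventually_ge_atTop 1).and (eventually_ge_atTop z₀)).and
      (h3.and h2)).exists
    exact ⟨z, hz.1.1, hz.1.2, hz.2.1, hz.2.2.le⟩
  set Z : Finset (HeightOneSpectrum (𝓞 K)) := hT.toFinset ∪ (small_primes_finite z).toFinset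
    with hZ
  have hZT : ∀ v ∈ T, v ∈ Z := fun v hv => by
    rw [hZ, Finset.mem_union, Set.Finite.mem_toFinset]
    exact Or.inl hv
  have hZz : ∀ v : HeightOneSpectrum (𝓞 K), Nv v ≤ z → v ∈ Z := fun v hv => by
    rw [hZ, Finset.mem_union, Set.Finite.mem_toFinset (small_primes_finite z)]
    exact Or.inr hv
  have hz0 : 0 < z := by linarith
  refine ⟨Z, C, ν, hν, fun Λ hΛ => ?_⟩
  have hQfin := QS_finite T hqn hα h Z t Λ
  have hAfin : (AT T α Ψ t Λ).Finite :=
    (AI_finite T hT hq hα hα' h Λ).subset (AT_sub T α Ψ t Λ)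
  -- the points with trivial content
  set B : Finset (Option K) := (hQfin.toFinset.filter (fun y => y.2 = ⊤)).image Prod.fst with hB
  have hBmem : ∀ o, o ∈ B ↔ (o, (⊤ : Ideal (𝓞 K))) ∈ QS T α Ψ Z t Λ := by
    intro o
    rw [hB, Finset.mem_image]
    constructor
    · rintro ⟨⟨o', I⟩, hy, rfl⟩
      rw [Finset.mem_filter, Set.Finite.mem_toFinset] at hy
      obtain ⟨h1, h2⟩ := hy
      simp only at h2
      subst h2
      exact h1
    · intro ho
      refine ⟨(o, ⊤), ?_, rfl⟩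
      rw [Finset.mem_filter, Set.Finite.mem_toFinset]
      exact ⟨ho, rfl⟩
  have hBcard : B.card = (hQfin.toFinset.filter (fun y => y.2 = ⊤)).card := by
    rw [hB]
    refine Finset.card_image_of_injOn ?_
    intro y hy y' hy' heq
    rw [Finset.mem_coe, Finset.mem_filter] at hy hy'
    exact Prod.ext heq (hy.2.trans hy'.2.symm)
  -- (a) near points have trivial content
  have hsub : hAfin.toFinset ⊆ B := by
    intro o ho
    rw [Set.Finite.mem_toFinset] at ho
    obtain ⟨h1, h2, h3⟩ := ho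
    have hr0 := rep_ne_zero o
    obtain ⟨g1, g2, _⟩ := hD _ hr0 h1
    have hSS : SZ T α Z (rep o) = Sx T α (rep o) := by
      by_contra hne
      have g3 := gap T hα hr0 h1 hz0 hZT hZz hne
      have g4 := SZ_nonneg T hα hr0 h1 Z
      unfold Dp at h3
      linarith
    rw [hBmem]
    refine ⟨top_ne_bot, ?_, h1, ?_, ?_⟩
    · intro v _ hv
      have hv2 : (v.asIdeal : Ideal (𝓞 K)) = ⊤ := by
        have := Ideal.le_of_dvd hv
        exact top_le_iff.mp this
      exact v.isPrime.ne_top hv2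
    · simp only
      rw [hSS]
      exact h3
    · simp only
      rw [hSS, Nall_eq_add T hα hr0 h1]
      simp only [Ideal.absNorm_top, Nat.cast_one, Real.log_one, mul_zero, add_zero]
      linarith
  -- (b) the others are far from the diagonal
  have hdiff : ((B \ hAfin.toFinset).card : ℝ) ≤
      ε / 2 * Real.exp (2 / q * Λ) + C * Real.exp ((2 / q - ν) * Λ) + 1 := by
    have h1 := htail Λ (Real.log z - C₀) hΛ (B \ hAfin.toFinset) (by
      intro o ho
      rw [Finset.mem_sdiff, hBmem, Set.Finite.mem_toFinset] at ho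
      obtain ⟨⟨_, _, g1, g2, g3⟩, g4⟩ := ho
      simp only [Ideal.absNorm_top, Nat.cast_one, Real.log_one, mul_zero, add_zero] at g1 g2 g3
      have hr0 := rep_ne_zero o
      have g5 := SZ_le_Sx T hα hr0 g1 Z
      have g6 := Nall_eq_add T hα hr0 g1
      have g7 := SZ_nonneg T hα hr0 g1 Z
      obtain ⟨_, g8, _⟩ := hD _ hr0 g1
      have hne : SZ T α Z (rep o) ≠ Sx T α (rep o) := by
        intro heq
        apply g4
        refine ⟨g1, by linarith, ?_⟩
        unfold Dp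
        rw [← heq]
        exact g2
      have g9 := gap T hα hr0 g1 hz0 hZT hZz hne
      refine ⟨g1, by linarith, ?_⟩
      unfold Dp
      linarith)
    have h2 : Real.exp (2 / q * Λ - c * (Real.log z - C₀)) =
        Real.exp (-c * (Real.log z - C₀)) * Real.exp (2 / q * Λ) := by
      rw [← Real.exp_add]
      congr 1
      ring
    rw [h2] at h1
    have h3 := mul_le_mul_of_nonneg_right hz4 (Real.exp_pos (2 / q * Λ)).le
    nlinarith
  -- (c) nontrivial contents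
  have hcont : ((hQfin.toFinset.filter (fun y => ¬ y.2 = ⊤)).card : ℝ) ≤
      ε / 2 * Real.exp (2 / q * Λ) := by
    set G := hQfin.toFinset.filter (fun y => ¬ y.2 = ⊤) with hG
    have hGmem : ∀ y ∈ G, y ∈ QS T α Ψ Z t Λ ∧ y.2 ≠ ⊤ := by
      intro y hy
      rw [hG, Finset.mem_filter, Set.Finite.mem_toFinset] at hy
      exact hy
    have h1 : (G.card : ℝ) = ∑ I ∈ G.image Prod.snd, ((G.filter (fun y => y.2 = I)).card : ℝ) := by
      have := Finset.card_eq_sum_card_fiberwise (f := Prod.snd) (s := G) (t := G.image Prod.snd)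
        (fun y hy => Finset.mem_coe.mpr (Finset.mem_image_of_mem _ hy))
      exact_mod_cast this
    have h2 : ∀ I ∈ G.image Prod.snd, ((G.filter (fun y => y.2 = I)).card : ℝ) ≤
        C' * Real.exp (2 / q * Λ) * ((Ideal.absNorm I : ℝ) ^ 2)⁻¹ := by
      intro I hI
      obtain ⟨y₀, hy₀, hy₀I⟩ := Finset.mem_image.mp hI
      have hI0 : I ≠ ⊥ := by
        rw [← hy₀I]
        exact (hGmem y₀ hy₀).1.1
      have hNI : (0 : ℝ) < Ideal.absNorm I := by
        have : Ideal.absNorm I ≠ 0 := by rwa [Ne, Ideal.absNorm_eq_zero_iff]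
        exact_mod_cast Nat.pos_of_ne_zero this
      have h3 : (G.filter (fun y => y.2 = I)).card =
          ((G.filter (fun y => y.2 = I)).image Prod.fst).card := by
        refine (Finset.card_image_of_injOn ?_).symm
        intro y hy y' hy' heq
        rw [Finset.mem_coe, Finset.mem_filter] at hy hy'
        exact Prod.ext heq (hy.2.trans hy'.2.symm)
      rw [h3]
      have h4 := hall (Λ - q * Real.log (Ideal.absNorm I))
        ((G.filter (fun y => y.2 = I)).image Prod.fst) (by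
          intro o ho
          rw [Finset.mem_coe, Finset.mem_image] at ho
          obtain ⟨⟨o', I'⟩, hy, rfl⟩ := ho
          rw [Finset.mem_filter] at hy
          obtain ⟨hy1, hy2⟩ := hy
          simp only at hy2
          subst hy2
          obtain ⟨_, _, g1, g2, g3⟩ := (hGmem _ hy1).1
          simp only at g1 g2 g3
          have hr0 := rep_ne_zero o'
          have g5 := SZ_le_Sx T hα hr0 g1 Z
          have g6 := Nall_eq_add T hα hr0 g1
          exact ⟨g1, by simp only; linarith⟩)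
      refine h4.trans (le_of_eq ?_)
      have h5 : 2 / (q : ℝ) * (Λ - q * Real.log (Ideal.absNorm I)) =
          2 / q * Λ + Real.log (((Ideal.absNorm I : ℝ) ^ 2)⁻¹) := by
        rw [Real.log_inv, Real.log_pow]
        push_cast
        field_simp
        ring
      rw [h5, Real.exp_add, Real.exp_log (by positivity)]
      ring
    have h3 : ∑ I ∈ G.image Prod.snd, ((Ideal.absNorm I : ℝ) ^ 2)⁻¹ < ε / (2 * C') := by
      refine hz₀ _ fun I hI => ?_
      obtain ⟨y₀, hy₀, rfl⟩ := Finset.mem_image.mp hI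
      obtain ⟨⟨g1, g2, _⟩, g3⟩ := hGmem y₀ hy₀
      obtain ⟨P, hP, hPI⟩ := Ideal.exists_le_maximal y₀.2 g3
      have hPbot : P ≠ ⊥ := fun hb => g1 (le_bot_iff.mp (hb ▸ hPI))
      let v : HeightOneSpectrum (𝓞 K) := ⟨P, hP.isPrime, hPbot⟩
      have hdvd : v.asIdeal ∣ y₀.2 := Ideal.dvd_iff_le.mpr hPI
      have hvZ : v ∉ Z := fun hv => g2 v hv hdvd
      have hNv : z < Nv v := by
        by_contra hcon
        exact hvZ (hZz v (not_lt.mp hcon))
      have hle : Nv v ≤ (Ideal.absNorm y₀.2 : ℝ) := by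
        have hd : Ideal.absNorm v.asIdeal ∣ Ideal.absNorm y₀.2 := map_dvd _ hdvd
        have h0 : 0 < Ideal.absNorm y₀.2 :=
          Nat.pos_of_ne_zero (by rwa [Ne, Ideal.absNorm_eq_zero_iff])
        have := Nat.le_of_dvd h0 hd
        unfold Nv
        exact_mod_cast this
      linarith
    rw [h1]
    refine (Finset.sum_le_sum h2).trans ?_
    rw [← Finset.mul_sum]
    have h4 : 0 < C' * Real.exp (2 / q * Λ) := by positivity
    refine (mul_le_mul_of_nonneg_left h3.le h4.le).trans (le_of_eq ?_)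
    field_simp
  -- conclusion
  have hA : ((AT T α Ψ t Λ).ncard : ℝ) = (hAfin.toFinset.card : ℝ) := by
    rw [Set.ncard_eq_toFinset_card _ hAfin]
  have hQ : ((QS T α Ψ Z t Λ).ncard : ℝ) = (B.card : ℝ) +
      ((hQfin.toFinset.filter (fun y => ¬ y.2 = ⊤)).card : ℝ) := by
    rw [Set.ncard_eq_toFinset_card _ hQfin, hBcard]
    exact_mod_cast (Finset.card_filter_add_card_filter_not (s := hQfin.toFinset)
      (fun y => y.2 = ⊤)).symm
  have hBA : (B.card : ℝ) = (hAfin.toFinset.card : ℝ) + ((B \ hAfin.toFinset).card : ℝ) := by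
    have := Finset.card_sdiff_add_card_eq_card hsub
    have h2 : ((B \ hAfin.toFinset).card : ℝ) + (hAfin.toFinset.card : ℝ) = B.card := by
      exact_mod_cast this
    linarith
  have hnn1 : (0 : ℝ) ≤ ((B \ hAfin.toFinset).card : ℝ) := Nat.cast_nonneg _
  have hnn2 : (0 : ℝ) ≤ ((hQfin.toFinset.filter (fun y => ¬ y.2 = ⊤)).card : ℝ) :=
    Nat.cast_nonneg _
  constructor
  · rw [hA, hQ, hBA]
    linarith
  · rw [hA, hQ, hBA]
    linarith

end Pool.Agent.K6.H14.ABC
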