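import Mathlib
import Pool.Agent.K6.H14.ABC.Main

set_option autoImplicit false
set_option linter.unusedSectionVars false

/-!
# The asymptotic formula and the limit law
-/

namespace Pool.Agent.K6.H14.ABC

open MeasureTheory Filter Topology Module NumberField NumberField.InfinitePlace IsDedekindDomain
open NumberField.mixedEmbedding NumberField.Units Pool.Agent.H691R3 Pool.Agent.R365.SH
open scoped Classical nonZeroDivisors

variable {K : Type} [Field K] [NumberField K]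

section

variable (T : Set (HeightOneSpectrum (𝓞 K))) (hT : T.Finite) {q : ℕ} (hq : 3 ≤ q)
  {α : Fin q → K × K} (hα : ∀ l, α l ≠ 0) (hα' : ∀ i j, i ≠ j → wg (α i) (α j) ≠ 0)
  {Ψ : mixedSpace K × mixedSpace K → ℝ} (h : Adm α Ψ)

theorem exp_small {q : ℝ} {C ν : ℝ} (hν : 0 < ν) (hq : 0 < q) {ε : ℝ} (hε : 0 < ε) :
    ∀ᶠ Λ : ℝ in atTop, C * Real.exp ((2 / q - ν) * Λ) + 1 ≤ ε * Real.exp (2 / q * Λ) := by
  have h1 : Tendsto (fun Λ : ℝ => C * Real.exp (-ν * Λ) + Real.exp (-(2 / q) * Λ)) atTop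
      (𝓝 (C * 0 + 0)) := by
    refine (Tendsto.const_mul C (Real.tendsto_exp_atBot.comp ?_)).add
      (Real.tendsto_exp_atBot.comp ?_)
    · exact Tendsto.const_mul_atTop_of_neg (by linarith) tendsto_id
    · refine Tendsto.const_mul_atTop_of_neg ?_ tendsto_id
      rw [neg_lt_zero]
      positivity
  rw [mul_zero, add_zero] at h1
  filter_upwards [h1.eventually (gt_mem_nhds hε)] with Λ hΛ
  have h2 := mul_le_mul_of_nonneg_right (le_of_lt hΛ) (Real.exp_pos (2 / q * Λ)).le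
  refine le_trans (le_of_eq ?_) h2
  rw [add_mul, mul_assoc, ← Real.exp_add, ← Real.exp_add]
  have e1 : -ν * Λ + 2 / q * Λ = (2 / q - ν) * Λ := by ring
  have e2 : -(2 / q) * Λ + 2 / q * Λ = 0 := by ring
  rw [e1, e2, Real.exp_zero]

include hT hq hα hα' h

theorem near_limit (hnull : ∀ t : ℝ,
      (Measure.addHaar : Measure (mixedSpace K × mixedSpace K)) {e | Ψ e = t} = 0) (t : ℝ) :
    ∃ κ : ℝ, Tendsto (fun Λ : ℝ => ((AT T α Ψ t Λ).ncard : ℝ) / Real.exp (2 / q * Λ))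
      atTop (𝓝 κ) := by
  have hqR : (3 : ℝ) ≤ q := by exact_mod_cast hq
  have hq0 : (0 : ℝ) < q := by linarith
  refine conv_of_sandwich fun ε hε => ?_
  obtain ⟨Z, C, ν, hν, hc⟩ := compare T hT hq hα hα' h t (ε / 2) (by positivity)
  obtain ⟨κ, hκ⟩ := QS_limit T (by omega) hα h Z t (fun B τ => hnull _)
  refine ⟨_, κ, hκ, ?_⟩
  filter_upwards [eventually_ge_atTop 0, exp_small (C := C) hν hq0 (half_pos hε)] with Λ hΛ hs
  obtain ⟨h1, h2⟩ := hc Λ hΛ
  have hE := Real.exp_pos (2 / q * Λ)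
  rw [← sub_div, abs_div, abs_of_pos hE, div_le_iff₀ hE, abs_le]
  constructor <;> linarith

theorem all_sub_near (c : ℝ) (hc0 : 0 ≤ c) (hc1 : c < 1 - 2 / q) :
    ∃ C ν : ℝ, 0 < C ∧ 0 < ν ∧ ∀ Λ t : ℝ, 0 ≤ Λ →
      ((AT T α Ψ t Λ).ncard : ℝ) ≤ (AI T α Λ).ncard ∧
      ((AI T α Λ).ncard : ℝ) ≤ (AT T α Ψ t Λ).ncard +
        (C * (Real.exp (2 / q * Λ - c * t) + Real.exp ((2 / q - ν) * Λ)) + 1) := by
  obtain ⟨C, ν, hC, hν, hmain⟩ := tail_bound' T hT hq hα hα' h c hc0 hc1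
  refine ⟨C, ν, hC, hν, fun Λ t hΛ => ?_⟩
  have hfin := AI_finite T hT hq hα hα' h Λ
  have hsub := AT_sub T α Ψ t Λ
  have hfin' := hfin.subset hsub
  refine ⟨by exact_mod_cast Set.ncard_le_ncard hsub hfin, ?_⟩
  have h1 := hmain Λ t hΛ (hfin.toFinset \ hfin'.toFinset) (by
    intro o ho
    rw [Finset.mem_sdiff, Set.Finite.mem_toFinset, Set.Finite.mem_toFinset] at ho
    obtain ⟨⟨g1, g2⟩, g3⟩ := ho
    refine ⟨g1, g2, ?_⟩
    by_contra hcon
    exact g3 ⟨g1, g2, (not_le.mp hcon).le⟩)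
  have hss : hfin'.toFinset ⊆ hfin.toFinset := by
    intro o ho
    rw [Set.Finite.mem_toFinset] at ho ⊢
    exact hsub ho
  have h2 := Finset.card_sdiff_add_card_eq_card hss
  rw [Set.ncard_eq_toFinset_card _ hfin, Set.ncard_eq_toFinset_card _ hfin']
  have h3 : ((hfin.toFinset \ hfin'.toFinset).card : ℝ) + (hfin'.toFinset.card : ℝ) =
      hfin.toFinset.card := by exact_mod_cast h2
  linarith

theorem law_option (hnull : ∀ t : ℝ,
      (Measure.addHaar : Measure (mixedSpace K × mixedSpace K)) {e | Ψ e = t} = 0) :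
    ∃ (κ : ℝ) (g : ℝ → ℝ), 0 < κ ∧ Monotone g ∧ (∃ t₀ : ℝ, ∀ t, t < t₀ → g t = 0) ∧
      (∀ c : ℝ, 0 ≤ c → c < 1 - 2 / q → ∃ C : ℝ, ∀ t, κ - g t ≤ C * Real.exp (-c * t)) ∧
      (∀ t, g t ≤ κ) ∧
      Tendsto (fun Λ : ℝ => ((AI T α Λ).ncard : ℝ) / Real.exp (2 / q * Λ)) atTop (𝓝 κ) ∧
      ∀ t, Tendsto (fun Λ : ℝ => ((AT T α Ψ t Λ).ncard : ℝ) / Real.exp (2 / q * Λ))
        atTop (𝓝 (g t)) := by
  have hqR : (3 : ℝ) ≤ q := by exact_mod_cast hq
  have hq0 : (0 : ℝ) < q := by linarith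
  have hpos : (0 : ℝ) < 1 - 2 / q := by
    rw [sub_pos, div_lt_one hq0]
    linarith
  choose g hg using near_limit T hT hq hα hα' h hnull
  -- the limit for all points
  obtain ⟨κ, hκ⟩ : ∃ κ : ℝ, Tendsto (fun Λ : ℝ => ((AI T α Λ).ncard : ℝ) /
      Real.exp (2 / q * Λ)) atTop (𝓝 κ) := by
    refine conv_of_sandwich fun ε hε => ?_
    obtain ⟨C, ν, hC, hν, hc⟩ := all_sub_near T hT hq hα hα' h ((1 - 2 / q) / 2)
      (by positivity) (by linarith)
    set c : ℝ := (1 - 2 / q) / 2 with hcdef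
    have hc0 : 0 < c := by positivity
    obtain ⟨t, ht⟩ : ∃ t : ℝ, C * Real.exp (-c * t) ≤ ε / 2 := by
      have h1 : Tendsto (fun t : ℝ => C * Real.exp (-c * t)) atTop (𝓝 (C * 0)) :=
        (Real.tendsto_exp_atBot.comp
          (Tendsto.const_mul_atTop_of_neg (by linarith) tendsto_id)).const_mul C
      rw [mul_zero] at h1
      obtain ⟨t, ht⟩ := (h1.eventually (gt_mem_nhds (half_pos hε))).exists
      exact ⟨t, le_of_lt ht⟩
    refine ⟨_, g t, hg t, ?_⟩
    filter_upwards [eventually_ge_atTop 0, exp_small (C := C) hν hq0 (half_pos hε)] with Λ hΛ hs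
    obtain ⟨h1, h2⟩ := hc Λ t hΛ
    have hE := Real.exp_pos (2 / q * Λ)
    have h3 : Real.exp (2 / q * Λ - c * t) = Real.exp (-c * t) * Real.exp (2 / q * Λ) := by
      rw [← Real.exp_add]
      congr 1
      ring
    rw [h3] at h2
    have h4 := mul_le_mul_of_nonneg_right ht hE.le
    rw [← sub_div, abs_div, abs_of_pos hE, div_le_iff₀ hE, abs_le]
    constructor <;> nlinarith
  refine ⟨κ, g, ?_, ?_, ?_, ?_, ?_, hκ, hg⟩
  · -- positivity
    obtain ⟨c₁, X₀, hc₁, hX₀, hl⟩ := low_all (K := K) hq T α hα hα'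
    have hd : (0 : ℝ) < Module.finrank ℚ K := by exact_mod_cast Module.finrank_pos
    have h1 : ∀ᶠ Λ : ℝ in atTop, c₁ ≤ ((AI T α Λ).ncard : ℝ) / Real.exp (2 / q * Λ) := by
      have h2 : Tendsto (fun Λ : ℝ => Real.exp (Λ / Module.finrank ℚ K)) atTop atTop :=
        Real.tendsto_exp_atTop.comp (tendsto_id.atTop_div_const hd)
      filter_upwards [h2.eventually (eventually_ge_atTop X₀)] with Λ hΛ
      obtain ⟨E, hE, hcard⟩ := hl _ hΛ
      rw [Real.log_exp, mul_div_cancel₀ _ hd.ne'] at hE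
      rw [le_div_iff₀ (Real.exp_pos _)]
      have h3 : Real.exp (Λ / Module.finrank ℚ K) ^ (2 / (q : ℝ) * Module.finrank ℚ K) =
          Real.exp (2 / q * Λ) := by
        rw [← Real.exp_mul]
        congr 1
        field_simp
      rw [h3] at hcard
      refine hcard.trans ?_
      have hfin := AI_finite T hT hq hα hα' h Λ
      have h4 : ((E.map Function.Embedding.some : Finset (Option K)) : Set (Option K)) ⊆
          AI T α Λ := by
        intro o ho
        rw [Finset.mem_coe, Finset.mem_map] at ho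
        obtain ⟨x, hx, rfl⟩ := ho
        obtain ⟨g1, g2, _⟩ := hE x hx
        exact ⟨g1, g2⟩
      have h5 := Set.ncard_le_ncard h4 hfin
      rw [Set.ncard_coe_finset, Finset.card_map] at h5
      exact_mod_cast h5
    exact hc₁.trans_le (ge_of_tendsto hκ h1)
  · -- monotonicity
    intro s t hst
    refine le_of_tendsto_of_tendsto (hg s) (hg t) (Eventually.of_forall fun Λ => ?_)
    refine div_le_div_of_nonneg_right ?_ (Real.exp_pos _).le
    have hfin := (AI_finite T hT hq hα hα' h Λ).subset (AT_sub T α Ψ t Λ)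
    have hsub : AT T α Ψ s Λ ⊆ AT T α Ψ t Λ := fun o ho => ⟨ho.1, ho.2.1, ho.2.2.trans hst⟩
    exact_mod_cast Set.ncard_le_ncard hsub hfin
  · obtain ⟨C₀, hC₀, hD⟩ := Dp_bounds T hα h
    refine ⟨-C₀, fun t ht => ?_⟩
    have h1 : ∀ Λ, AT T α Ψ t Λ = ∅ := by
      intro Λ
      rw [Set.eq_empty_iff_forall_notMem]
      rintro o ⟨g1, _, g3⟩
      have := (hD _ (rep_ne_zero o) g1).1
      linarith
    have h2 := hg t
    simp only [h1, Set.ncard_empty, Nat.cast_zero, zero_div] at h2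
    exact tendsto_nhds_unique h2 tendsto_const_nhds
  · intro c hc0 hc1
    obtain ⟨C, ν, hC, hν, hc⟩ := all_sub_near T hT hq hα hα' h c hc0 hc1
    refine ⟨C, fun t => ?_⟩
    refine le_of_forall_pos_le_add fun ε hε => ?_
    refine le_of_tendsto (hκ.sub (hg t)) ?_
    filter_upwards [eventually_ge_atTop 0, exp_small (C := C) hν hq0 hε] with Λ hΛ hs
    obtain ⟨h1, h2⟩ := hc Λ t hΛ
    have hE := Real.exp_pos (2 / q * Λ)
    have h3 : Real.exp (2 / q * Λ - c * t) = Real.exp (-c * t) * Real.exp (2 / q * Λ) := by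
      rw [← Real.exp_add]
      congr 1
      ring
    rw [h3] at h2
    rw [← sub_div, div_le_iff₀ hE]
    nlinarith
  · intro t
    refine le_of_tendsto_of_tendsto (hg t) hκ (Eventually.of_forall fun Λ => ?_)
    refine div_le_div_of_nonneg_right ?_ (Real.exp_pos _).le
    have hfin := AI_finite T hT hq hα hα' h Λ
    exact_mod_cast Set.ncard_le_ncard (AT_sub T α Ψ t Λ) hfin

end

omit [NumberField K] in
theorem option_ncard {S : Set (Option K)} (hS : S.Finite) :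
    {x : K | some x ∈ S}.ncard ≤ S.ncard ∧ S.ncard ≤ {x : K | some x ∈ S}.ncard + 1 := by
  have hfin : {x : K | some x ∈ S}.Finite :=
    hS.preimage (f := (some : K → Option K)) (Option.some_injective K).injOn
  have h1 : (some '' {x : K | some x ∈ S} : Set (Option K)).ncard = {x : K | some x ∈ S}.ncard :=
    Set.ncard_image_of_injective _ (Option.some_injective K)
  constructor
  · rw [← h1]
    refine Set.ncard_le_ncard ?_ hS
    rintro _ ⟨x, hx, rfl⟩
    exact hx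
  · rw [← h1]
    refine (Set.ncard_le_ncard (t := insert none (some '' {x : K | some x ∈ S})) ?_
      ((hfin.image some).insert none)).trans (Set.ncard_insert_le _ _)
    intro o ho
    cases o with
    | none => exact Set.mem_insert _ _
    | some x => exact Set.mem_insert_of_mem _ ⟨x, ho, rfl⟩

theorem limit_transfer {f g : ℝ → ℝ} {q : ℝ} (hq : 0 < q) {κ : ℝ}
    (h : ∀ Λ, 0 ≤ Λ → g Λ ≤ f Λ ∧ f Λ ≤ g Λ + 1)
    (hf : Tendsto (fun Λ => f Λ / Real.exp (2 / q * Λ)) atTop (𝓝 κ)) :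
    Tendsto (fun Λ => g Λ / Real.exp (2 / q * Λ)) atTop (𝓝 κ) := by
  have h1 : Tendsto (fun Λ : ℝ => Real.exp (-(2 / q) * Λ)) atTop (𝓝 0) := by
    refine Real.tendsto_exp_atBot.comp (Tendsto.const_mul_atTop_of_neg ?_ tendsto_id)
    rw [neg_lt_zero]
    positivity
  have h2 := hf.sub h1
  rw [sub_zero] at h2
  refine tendsto_of_tendsto_of_tendsto_of_le_of_le' h2 hf ?_ ?_
  · filter_upwards [eventually_ge_atTop 0] with Λ hΛ
    have hE := Real.exp_pos (2 / q * Λ)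
    have h3 : Real.exp (-(2 / q) * Λ) = 1 / Real.exp (2 / q * Λ) := by
      rw [neg_mul, Real.exp_neg, one_div]
    rw [h3, ← sub_div]
    exact div_le_div_of_nonneg_right (by linarith [(h Λ hΛ).2]) hE.le
  · filter_upwards [eventually_ge_atTop 0] with Λ hΛ
    exact div_le_div_of_nonneg_right (h Λ hΛ).1 (Real.exp_pos _).le

/-- **The asymptotic formula and the limit law**, in terms of the elements of the field. -/
theorem law (T : Set (HeightOneSpectrum (𝓞 K))) (hT : T.Finite) {q : ℕ} (hq : 3 ≤ q)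
    {α : Fin q → K × K} (hα : ∀ l, α l ≠ 0) (hα' : ∀ i j, i ≠ j → wg (α i) (α j) ≠ 0)
    {Ψ : mixedSpace K × mixedSpace K → ℝ} (h : Adm α Ψ) (hnull : ∀ t : ℝ,
      (Measure.addHaar : Measure (mixedSpace K × mixedSpace K)) {e | Ψ e = t} = 0) :
    ∃ (κ : ℝ) (G : ℝ → ℝ), 0 < κ ∧ Monotone G ∧ (∃ t₀ : ℝ, ∀ t, t < t₀ → G t = 0) ∧
      (∀ t, G t ≤ 1) ∧
      (∀ c : ℝ, 0 ≤ c → c < 1 - 2 / q → ∃ C : ℝ, ∀ t, 1 - G t ≤ C * Real.exp (-c * t)) ∧
      (∀ Λ, {x : K | Off α x ∧ NTc T α x ≤ Λ}.Finite) ∧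
      Tendsto (fun Λ : ℝ => ({x : K | Off α x ∧ NTc T α x ≤ Λ}.ncard : ℝ) /
        Real.exp (2 / q * Λ)) atTop (𝓝 κ) ∧
      ∀ t, Tendsto (fun Λ : ℝ =>
        ({x : K | Off α x ∧ NTc T α x ≤ Λ ∧ Dp T α Ψ (aff x) ≤ t}.ncard : ℝ) /
          ({x : K | Off α x ∧ NTc T α x ≤ Λ}.ncard : ℝ)) atTop (𝓝 (G t)) := by
  have hqR : (3 : ℝ) ≤ q := by exact_mod_cast hq
  have hq0 : (0 : ℝ) < q := by linarith
  obtain ⟨κ, g, hκ0, hg1, ⟨t₀, hg2⟩, hg3, hg4, hκ, hg⟩ := law_option T hT hq hα hα' h hnull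
  have hfin : ∀ Λ, {x : K | Off α x ∧ NTc T α x ≤ Λ}.Finite := fun Λ =>
    (AI_finite T hT hq hα hα' h Λ).preimage (f := (some : K → Option K))
      (Option.some_injective K).injOn
  have hall : Tendsto (fun Λ : ℝ => ({x : K | Off α x ∧ NTc T α x ≤ Λ}.ncard : ℝ) /
        Real.exp (2 / q * Λ)) atTop (𝓝 κ) := by
    refine limit_transfer (f := fun Λ => ((AI T α Λ).ncard : ℝ)) hq0 (fun Λ hΛ => ?_) hκ
    have := option_ncard (AI_finite T hT hq hα hα' h Λ)
    exact ⟨by exact_mod_cast this.1, by exact_mod_cast this.2⟩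
  have hnear : ∀ t, Tendsto (fun Λ : ℝ =>
      ({x : K | Off α x ∧ NTc T α x ≤ Λ ∧ Dp T α Ψ (aff x) ≤ t}.ncard : ℝ) /
        Real.exp (2 / q * Λ)) atTop (𝓝 (g t)) := by
    intro t
    refine limit_transfer (f := fun Λ => ((AT T α Ψ t Λ).ncard : ℝ)) hq0 (fun Λ hΛ => ?_) (hg t)
    have := option_ncard ((AI_finite T hT hq hα hα' h Λ).subset (AT_sub T α Ψ t Λ))
    exact ⟨by exact_mod_cast this.1, by exact_mod_cast this.2⟩
  refine ⟨κ, fun t => g t / κ, hκ0, ?_, ⟨t₀, fun t ht => ?_⟩, fun t => ?_, ?_, hfin, hall,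
    fun t => ?_⟩
  · intro s t hst
    exact div_le_div_of_nonneg_right (hg1 hst) hκ0.le
  · simp only
    rw [hg2 t ht, zero_div]
  · exact (div_le_one hκ0).mpr (hg4 t)
  · intro c hc0 hc1
    obtain ⟨C, hC⟩ := hg3 c hc0 hc1
    refine ⟨C / κ, fun t => ?_⟩
    have h1 : 1 - g t / κ = (κ - g t) / κ := by
      field_simp
    simp only
    rw [h1, div_mul_eq_mul_div]
    exact div_le_div_of_nonneg_right (hC t) hκ0.le
  · refine ((hnear t).div hall hκ0.ne').congr fun Λ => ?_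
    have hE := Real.exp_pos (2 / q * Λ)
    exact div_div_div_cancel_right₀ hE.ne' _ _

end Pool.Agent.K6.H14.ABC
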