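import Mathlib
import Pool.Agent.R365.SH.Three
import Pool.Agent.K6.H14.ABC.Lim
import Pool.Agent.K6.H14.ABC.Lev2

set_option autoImplicit false
set_option linter.unusedSectionVars false

/-!
# The three points `0`, `-1`, `∞`
-/

namespace Pool.Agent.K6.H14.ABC

open MeasureTheory Filter Topology Module NumberField NumberField.InfinitePlace IsDedekindDomain
open NumberField.mixedEmbedding Pool.Agent.H691R3 Pool.Agent.R365.SH
open Pool.Agent.R365.RC Pool.Agent.W223.AK
open scoped Classical

variable {K : Type} [Field K] [NumberField K]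

theorem α3_coord : (∃ j : Fin (2 + 1), α3 K j = (0, 1)) ∧ ∃ j : Fin (2 + 1), α3 K j = (1, 0) :=
  ⟨⟨0, rfl⟩, ⟨1, rfl⟩⟩

theorem mM_three (w : InfinitePlace K) (x : K) :
    mM (r := 2) (α3 K) w (jK (aff x)) =
      max (w (z3 x 0)) (max (w (z3 x 1)) (w (z3 x 2))) := by
  have hneg : ∀ y : K, w (-y) = w y := fun y => w.1.map_neg y
  have h0 : normAtPlace w (Lf (α3 K 0) (jK (aff x))) = w (z3 x 0) := by
    rw [Lf_jK, normAtPlace_apply]
    congr 1
    show x * 1 - 1 * 0 = x
    ring
  have h1 : normAtPlace w (Lf (α3 K 1) (jK (aff x))) = w (z3 x 1) := by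
    rw [Lf_jK, normAtPlace_apply]
    have : wg (aff x) (α3 K 1) = -1 := by
      show x * 0 - 1 * 1 = -1
      ring
    rw [this, hneg]
    rfl
  have h2 : normAtPlace w (Lf (α3 K 2) (jK (aff x))) = w (z3 x 2) := by
    rw [Lf_jK, normAtPlace_apply]
    have : wg (aff x) (α3 K 2) = -(z3 x 2) := by
      show x * 1 - 1 * (-1) = -(-(x + 1))
      ring
    rw [this, hneg]
  apply le_antisymm
  · rw [mM_le_iff]
    intro j
    fin_cases j
    · exact h0.le.trans (le_max_left _ _)
    · exact h1.le.trans ((le_max_left _ _).trans (le_max_right _ _))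
    · exact h2.le.trans ((le_max_right _ _).trans (le_max_right _ _))
  · refine max_le ?_ (max_le ?_ ?_)
    · rw [← h0]
      exact le_mM (r := 2) (α3 K) w _ 0
    · rw [← h1]
      exact le_mM (r := 2) (α3 K) w _ 1
    · rw [← h2]
      exact le_mM (r := 2) (α3 K) w _ 2

theorem cα_three : cα (α3 K) = 0 := by
  unfold cα
  refine Finset.sum_eq_zero fun l _ => ?_
  have h : ∀ v : HeightOneSpectrum (𝓞 K),
      Real.log (max (fv v (α3 K l).1) (fv v (α3 K l).2)) = 0 := by
    intro v
    have h1 : max (fv v (α3 K l).1) (fv v (α3 K l).2) = 1 := by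
      fin_cases l
      · show max (fv v 0) (fv v 1) = 1
        rw [map_zero, map_one]
        exact max_eq_right zero_le_one
      · show max (fv v 1) (fv v 0) = 1
        rw [map_zero, map_one]
        exact max_eq_left zero_le_one
      · show max (fv v (-1)) (fv v 1) = 1
        rw [map_neg_eq_map, map_one]
        exact max_self _
    rw [h1, Real.log_one]
  simp_rw [h]
  exact finsum_zero

/-- the distance is the difference of three times the height and the radical -/
theorem Dp_three (T : Set (HeightOneSpectrum (𝓞 K))) (hT : T.Finite) {x : K}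
    (hx : Off (α3 K) x) :
    Dp T (α3 K) (ΨM (r := 2) (α3 K) (α3 K)) (aff x) = 3 * H3 (z3 x) - R3 T (z3 x) := by
  have hp0 := aff_ne_zero x
  have h1 := Nall_eq_add T α3_ne hp0 hx
  have h2 := Nall_eq' α3_ne hp0 hx
  rw [cα_three] at h2
  have h3 : NTp T (α3 K) (aff x) = R3 T (z3 x) := by
    rw [NTp_aff, R3_eq_NTc T hT hx]
  have h4 : Real.log (HM (r := 2) (α3 K) (jK (aff x))) = ∑ w : InfinitePlace K, (w.mult : ℝ) *
      Real.log (max (w (z3 x 0)) (max (w (z3 x 1)) (w (z3 x 2)))) := by
    unfold HM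
    simp_rw [mM_three]
    rw [Real.log_prod]
    · refine Finset.sum_congr rfl fun w _ => ?_
      rw [Real.log_pow]
    · intro w _
      refine pow_ne_zero _ (ne_of_gt ?_)
      refine lt_max_of_lt_right (lt_max_of_lt_left ?_)
      rw [z3_one, map_one]
      exact one_pos
  have h5 : ∑ᶠ v : HeightOneSpectrum (𝓞 K), Real.log (max (fv v (aff x).1) (fv v (aff x).2)) =
      ∑ᶠ v : HeightOneSpectrum (𝓞 K), Real.log (max (FinitePlace.mk v (z3 x 0))
      (max (FinitePlace.mk v (z3 x 1)) (FinitePlace.mk v (z3 x 2)))) := by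
    refine finsum_congr fun v => ?_
    rw [max_fv_eq v (by rw [z3_one]; exact one_ne_zero) (z3_sum x), z3_div, z3_one, map_one,
      one_mul]
    congr 1
    show max (fv v x) (fv v 1) = max (fv v x) 1
    rw [map_one]
  unfold Dp ΨM H3
  rw [h4]
  rw [h5] at h2
  push_cast at h2 ⊢
  linarith

end Pool.Agent.K6.H14.ABC
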